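import Pool.Agent.N202.QR.Word2

/-!
# The signs of all words
-/

set_option autoImplicit false
set_option linter.unusedSectionVars false
set_option linter.unusedVariables false

namespace Pool.Agent.N202.QR

open NumberField Pool.Agent.H204R3.CM Pool.Agent.W547.KB Pool.Agent.W547.LD Pool.Agent.W547.HR
  Pool.Agent.W495.TA Module Pool.Agent.TH117.PO Pool.Agent.W976.TA Pool.Agent.W417.TA
  Pool.Agent.TH117.BL Pool.Agent.W495.TC Pool.Agent.W495.TB Pool.Agent.TH117.F5
open scoped TensorProduct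

noncomputable section

variable {p : ℕ} [Fact p.Prime] {ν : PadicAlgCl p ≃+* ℂ}
  {L : Type} [Field L] [NumberField L] [IsCMField L] [IsGalois ℚ L] {j : L →+* ℂ}

section alg

variable {Ω : Type} [Field Ω] [CharZero Ω] (jO : L →+* Ω)

theorem tf_bar {Y : RedAV p ν} (w : Wt Y.X L) :
    tf p ν j (St j (bar w)) = -tf p ν j (St j w) := by
  have h1 : bar w = cc L • w := rfl
  rw [h1]
  funext σ
  exact tf_cc_wt j Y.X w σ

/-- The monomials of the words on a product. -/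
theorem alg_K {Z : RedAV p ν} (hkp : BigA (kp p) j) [Fintype (Wt Z.X L)]
    {Y Y' : RedAV p ν} (hY : Big Y.X j) (hY' : Big Y'.X j) {κ κ' : Type} [Fintype κ]
    [DecidableEq κ] [Fintype κ'] [DecidableEq κ'] {s : κ → Wt Y.X L}
    {w : κ → Option (Wt Z.X L)}
    (hw : ∀ k, tf p ν j (St j (s k)) = ext0 (tw p ν j Z.X) (w k)) (heven : Even (Fintype.card κ))
    {J : κ' → Wt Y'.X L} {w' : κ' → Option (Wt Z.X L)}
    (hw' : ∀ k, tf p ν j (St j (J k)) = ext0 (tw p ν j Z.X) (w' k))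
    (heven' : Even (Fintype.card κ'))
    (hG : GenD (AlgM p ν j jO) (Set.range (ext0 (tw p ν j Z.X)))
      (DD (tw p ν j Z.X) (Pool.Agent.TH117.BL.cnt w) -
        DD (tw p ν j Z.X) (Pool.Agent.TH117.BL.cnt w'))) :
    Alg Ω (prodR Y' Y) (κ' ⊕ κ)
      (monoO jO (Sum.elim (fun k => inlW (J k)) fun k => inrW (bar (s k)))) := by
  classical
  have hclosed := closedM (p := p) (ν := ν) j jO
  have hc0 := cancel_zero (p := p) (ν := ν) j jO hkp
  let wK : κ' ⊕ κ → Option (Wt Z.X L) := Sum.elim w' fun k => (w k).map (cw Z)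
  have h1 : GenD (AlgM p ν j jO) (Set.range (ext0 (tw p ν j Z.X)))
      (dcnt fun k => ext0 (tw p ν j Z.X) (wK k)) := by
    rw [dcnt_eq_DD]
    have h2 : Pool.Agent.TH117.BL.cnt wK = Pool.Agent.TH117.BL.cnt w' +
        fun l => Pool.Agent.TH117.BL.cnt w (cw Z l) := by
      rw [← cnt_map (cw Z) cw_cw]
      exact cnt_elim _ _
    rw [h2, DD_add, DD_conj (tw p ν j Z.X) (cw Z) cw_cw tw_cw]
    have h3 := hG.neg
    rw [neg_sub, sub_eq_add_neg] at h3
    exact h3
  have h2 : AlgM p ν j jO (κ' ⊕ κ) fun k => ext0 (tw p ν j Z.X) (wK k) := by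
    refine @of_genD _ _ (Set.range (ext0 (tw p ν j Z.X))) hclosed ?_ (κ' ⊕ κ) _
      (fun k => ext0 (tw p ν j Z.X) (wK k)) (fun k => ⟨wK k, rfl⟩) ?_ h1
    · rintro f ⟨o, rfl⟩
      rcases o with _ | l
      · exact hc0
      · exact cancel_nn j jO (Z.X.factor l.1) l.2
    · rw [Nat.card_eq_fintype_card, Fintype.card_sum]
      exact heven'.add heven
  refine @h2 _ _ (prodR Y' Y) (big_prodR hY' hY) _ ?_
  rintro (k | k)
  · exact hw' k
  · change tf p ν j (St j (bar (s k))) = ext0 (tw p ν j Z.X) ((w k).map (cw Z))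
    rw [tf_bar, hw, ext0_map (tw p ν j Z.X) (cw Z) tw_cw]

end alg

theorem prod_sgn_bal {X : CMAV} {κ : Type} [Fintype κ] {J : κ → Wt X L}
    (hbal : Balanced (fun k => St j (J k))) : ∏ k, Pool.Agent.TH117.PO.sgn j (J k) = 1 := by
  classical
  have h5 := prod_unit (z := Complex.I) (by simp)
    (fun k => j.comp ((1 : L ≃ₐ[ℚ] L) • (J k).2) ∈ (X.factor (J k).1).Φ) (by
      have h6 := hbal 1
      convert h6
      exact Iff.rfl)
  rw [Complex.conj_I] at h5
  rw [← h5]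
  refine Finset.prod_congr rfl fun k _ => ?_
  unfold Pool.Agent.TH117.PO.sgn
  rfl

theorem even_of_bal {κ : Type} [Fintype κ] {y : κ → Set (L ≃ₐ[ℚ] L)} (h : Balanced y) :
    Even (Fintype.card κ) := by
  classical
  have h1 := h 1
  have h2 : ∀ k, (if (1 : L ≃ₐ[ℚ] L) ∈ y k then (1 : ℤ) else -1) =
      2 * (if (1 : L ≃ₐ[ℚ] L) ∈ y k then (1 : ℤ) else 0) - 1 := by
    intro k
    split_ifs <;> ring
  rw [Finset.sum_congr rfl fun k _ => h2 k, Finset.sum_sub_distrib, ← Finset.mul_sum] at h1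
  simp only [Finset.sum_const, Finset.card_univ, nsmul_eq_mul, mul_one] at h1
  have h3 : Even ((Fintype.card κ : ℕ) : ℤ) := by
    refine ⟨∑ k, if (1 : L ≃ₐ[ℚ] L) ∈ y k then (1 : ℤ) else 0, ?_⟩
    linarith
  exact_mod_cast h3

section sign

variable {Ω : Type} [Field Ω] [CharZero Ω] {jO : L →+* Ω}
  {C : (Y : RedAV p ν) → (κ : Type) → ((TM Ω Y) [⋀^κ]→ₗ[Ω] Ω) → Prop}

/-- The line on the second factor and a line on the product give a line on the first factor. -/
theorem line_div (hC : IsCycleSystem Ω C) {Y Y' : RedAV p ν} (hY : Big Y.X j) {κ κ' : Type}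
    [Fintype κ] [DecidableEq κ] [Fintype κ'] [DecidableEq κ'] {s : κ → Wt Y.X L}
    (hs : Function.Injective s) {J : κ' → Wt Y'.X L} (hJ : Function.Injective J) {c c' d d' : Ω}
    (h : Ln jO C Y s c c')
    (hK : Ln jO C (prodR Y' Y) (Sum.elim (fun k => inlW (J k)) fun k => inrW (bar (s k))) d d') :
    ∃ δ : L, δ ≠ 0 ∧ Ln jO C Y' J (d * c * jO δ) (d' * c' * jO (cc L δ)) := by
  classical
  have : Finite (Wt Y.X L) := Pool.Agent.W67.TA.finite_wt j hY
  let _ : Fintype (Wt Y.X L) := Fintype.ofFinite _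
  let P := prodR Y' (prodR Y Y)
  have hs' : Function.Injective fun k => bar (s k) := fun k k' hk => hs (bar_injective hk)
  let R := {w : Wt Y.X L // w ∉ Set.range fun k => bar (s k)}
  let K1 : κ' ⊕ κ → Wt P.X L := Sum.elim (fun k => inlW (J k)) fun k => inrW (inlW (bar (s k)))
  have hKi : Function.Injective (Sum.elim (fun k => inlW (J k)) fun k => inrW (bar (s k)) :
      κ' ⊕ κ → Wt (prodR Y' Y).X L) := by
    refine Function.Injective.sumElim ?_ ?_ ?_
    · intro k k' hk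
      refine hJ ?_
      have h5 := Sigma.mk.inj_iff.1 hk
      exact Sigma.ext (Sum.inl.inj h5.1) h5.2
    · intro k k' hk
      refine hs' ?_
      have h5 := Sigma.mk.inj_iff.1 hk
      exact Sigma.ext (Sum.inr.inj h5.1) h5.2
    · intro k k' hk
      exact Sum.inl_ne_inr (Sigma.mk.inj_iff.1 hk).1
  have h1 : Ln jO C P K1 d d' := by
    refine Ln.types hC j (I := K1) hKi ?_ hK
    rintro (k | k)
    · rfl
    · rfl
  let K2 : κ → Wt P.X L := fun k => inrW (inrW (bar (bar (s k))))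
  have h2 : Ln jO C P K2 c c' := by
    refine Ln.types hC j (I := K2) hs (fun k => ?_) h
    change St j (bar (bar (s k))) = _
    rw [bar_bar]
  let K3 : R × Fin 2 → Wt P.X L := fun x => inrW (restK (fun k => bar (s k)) x)
  have h3 : Ln jO C P K3 1 1 := by
    have h4 := Ln_pairsF (jO := jO) hC K3 (fun _ => 1) (fun _ => 1) fun i =>
      Ln_hodge hC j rfl
    rw [Finset.prod_const_one] at h4
    exact h4
  have h4 := Ln.cup hC h1 (Ln.cup hC h2 h3)
  rw [mul_one, mul_one] at h4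
  let f : (κ' ⊕ κ) ⊕ (κ ⊕ (R × Fin 2)) ≃ κ' ⊕ ((κ ⊕ κ) ⊕ (R × Fin 2)) :=
    { toFun := fun x => match x with
        | Sum.inl (Sum.inl k) => Sum.inl k
        | Sum.inl (Sum.inr k) => Sum.inr (Sum.inl (Sum.inl k))
        | Sum.inr (Sum.inl k) => Sum.inr (Sum.inl (Sum.inr k))
        | Sum.inr (Sum.inr y) => Sum.inr (Sum.inr y)
      invFun := fun x => match x with
        | Sum.inl k => Sum.inl (Sum.inl k)
        | Sum.inr (Sum.inl (Sum.inl k)) => Sum.inl (Sum.inr k)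
        | Sum.inr (Sum.inl (Sum.inr k)) => Sum.inr (Sum.inl k)
        | Sum.inr (Sum.inr y) => Sum.inr (Sum.inr y)
      left_inv := by
        rintro ((k | k) | k | y) <;> rfl
      right_inv := by
        rintro (k | (k | k) | y) <;> rfl }
  have h5 : Ln jO C P (Sum.elim (fun k => inlW (J k)) fun x =>
      inrW (fullK (fun k => bar (s k)) x)) (d * c) (d' * c') := by
    refine Ln.reindex hC f ?_ h4
    rintro ((k | k) | k | y) <;> rfl
  exact Ln.push hC j (big_prodR hY hY) (full_bijective hs') h5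

/-- The sign of a word. -/
theorem sign_div (hC : IsCycleSystem Ω C) (hR : IsRosatiPositive Ω C) {Y Y' : RedAV p ν}
    (hY : Big Y.X j) (hY' : Big Y'.X j) {κ κ' : Type}
    [Fintype κ] [DecidableEq κ] [Fintype κ'] [DecidableEq κ'] {s : κ → Wt Y.X L}
    (hs : Function.Injective s) (heven : Even (Fintype.card κ)) {J : κ' → Wt Y'.X L}
    (hJ : Function.Injective J) (hbal : Balanced (fun k => St j (J k)))
    (hJp : ∀ c c' : Ω, Ln jO C Y' J c c' → c * c' ≠ 0 → IsPos jO C j Y' J)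
    (hK : IsPos jO C j (prodR Y' Y) (Sum.elim (fun k => inlW (J k)) fun k => inrW (bar (s k))))
    {c c' : Ω} (h : Ln jO C Y s c c') (hcc : c * c' ≠ 0) :
    ∃ μ : L, c * c' = jO μ ∧ PosC (j μ * ∏ k, Pool.Agent.TH117.PO.sgn j (s k)) := by
  classical
  obtain ⟨d, d', μK, h1, h2, h3⟩ := hK
  have hdd : d * d' ≠ 0 := by
    rw [h2]
    refine (map_ne_zero jO).2 fun h => ?_
    have h4 := h3.1
    rw [h, map_zero, zero_mul] at h4
    exact h4 rfl
  obtain ⟨δ, hδ, h4⟩ := line_div hC hY hs hJ h h1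
  have hcδ : jO (cc L δ) ≠ 0 := (map_ne_zero jO).2 ((map_ne_zero (cc L)).2 hδ)
  have hδ' : jO δ ≠ 0 := (map_ne_zero jO).2 hδ
  have hne1 : d * c * jO δ ≠ 0 := mul_ne_zero (mul_ne_zero (left_ne_zero_of_mul hdd)
    (left_ne_zero_of_mul hcc)) hδ'
  have hne2 : d' * c' * jO (cc L δ) ≠ 0 := mul_ne_zero (mul_ne_zero (right_ne_zero_of_mul hdd)
    (right_ne_zero_of_mul hcc)) hcδ
  have hP := hJp _ _ h4 (mul_ne_zero hne1 hne2)
  obtain ⟨μJ, h5, h6⟩ := hP.line hC hY' hJ h4 hne1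
  obtain ⟨l, h7, -⟩ := two_lines hC j hY hs h h
  refine ⟨l, h7, ?_⟩
  have h8 := h6.2 hR
  rw [prod_sgn_bal hbal, mul_one] at h8
  have h9 := h3.2 hR
  rw [Fintype.prod_sum_type] at h9
  have e1 : ∏ k, Pool.Agent.TH117.PO.sgn j (Sum.elim (fun k => inlW (J k))
      (fun k => inrW (bar (s k))) (Sum.inl k) : Wt (prodR Y' Y).X L) = 1 := by
    rw [← prod_sgn_bal hbal]
    rfl
  have e2 : ∏ k, Pool.Agent.TH117.PO.sgn j (Sum.elim (fun k => inlW (J k))
      (fun k => inrW (bar (s k))) (Sum.inr k) : Wt (prodR Y' Y).X L) =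
      ∏ k, Pool.Agent.TH117.PO.sgn j (s k) := by
    have e3 : ∏ k, Pool.Agent.TH117.PO.sgn j (Sum.elim (fun k => inlW (J k))
      (fun k => inrW (bar (s k))) (Sum.inr k) : Wt (prodR Y' Y).X L) =
      ∏ k, Pool.Agent.TH117.PO.sgn j (bar (s k)) := rfl
    rw [e3, Finset.prod_congr rfl fun k _ => sgn_bar j (s k)]
    have e4 : ∀ k, -Pool.Agent.TH117.PO.sgn j (s k) = -1 * Pool.Agent.TH117.PO.sgn j (s k) :=
      fun k => (neg_one_mul _).symm
    rw [Finset.prod_congr rfl fun k _ => e4 k, Finset.prod_mul_distrib, Finset.prod_const,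
      Finset.card_univ, heven.neg_one_pow, one_mul]
  rw [e1, e2, one_mul] at h9
  set S : ℂ := ∏ k, Pool.Agent.TH117.PO.sgn j (s k) with hS
  have hSS : S * S = 1 := by
    rw [hS, ← Finset.prod_mul_distrib, Finset.prod_congr rfl fun k _ => sgn_sq j (s k),
      Finset.prod_const, Finset.card_univ, heven.neg_one_pow]
  have hμ : μJ = μK * l * (δ * cc L δ) := by
    apply jO.injective
    rw [← h5, map_mul, map_mul, map_mul, ← h2, ← h7]
    ring
  have h10 := (h8.mul h9.inv).mul (PosC.norm j hδ).inv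
  have hjK : j μK ≠ 0 := by
    intro h
    have := h9.ne
    rw [h, zero_mul] at this
    exact this rfl
  have hjδ : j (δ * cc L δ) ≠ 0 := (PosC.norm j hδ).ne
  have hS0 : S ≠ 0 := fun h => by rw [h, mul_zero] at hSS; exact zero_ne_one hSS
  have h11 : j μJ * (j μK * S)⁻¹ * (j (δ * cc L δ))⁻¹ = j l * S := by
    rw [hμ, map_mul j (μK * l), map_mul j μK]
    have h12 : S⁻¹ = S := by
      field_simp
      rw [pow_two]
      exact hSS.symm
    rw [mul_inv, h12]
    field_simp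
  rwa [h11] at h10

end sign

section quad

variable {Ω : Nat.Primes → Type} [∀ l, Field (Ω l)] [∀ l, CharZero (Ω l)]
  [∀ l : Nat.Primes, Algebra ℚ_[(l : ℕ)] (Ω l)]
  {C : (Y : RedAV p ν) → (κ : Type) → FCl Ω Y κ → Prop}

/-- The words stable under the Galois group of an imaginary quadratic field. -/
theorem quad_pos (hC : IsCompatible Ω C) {δ : L} {d : ℚ} (hδ : IsRoot δ d)
    (jO : ∀ l, L →+* Ω l) {Y : RedAV p ν} (hB : Big Y.X j)
    {κ : Type} [Fintype κ] [DecidableEq κ] {J : κ → Wt Y.X L}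
    (hJ : Function.Injective J) (hbal : Balanced (fun k => St j (J k)))
    (hK : ∀ σ : L ≃ₐ[ℚ] L, σ δ = δ → ∃ π : Equiv.Perm κ, ∀ k, sw σ (J k) = J (π k))
    (l0 : Nat.Primes) {c c' : Ω l0} (h : Ln (jO l0) (atPrime C l0) Y J c c') (hcc : c * c' ≠ 0) :
    IsPos (jO l0) (atPrime C l0) j Y J := by
  classical
  have hC0 := hC.cycle l0
  have hbasis := fun l => Pool.Agent.W67.TA.basis p ν (Ω l) L j (jO l) Y hB
  choose e h1 h0 using hbasis
  obtain ⟨_, ⟨z, hz, rfl⟩, hz1, hz2⟩ := exists_both (e l0) (h1 l0) (h0 l0) hC0 j hB hJ h hcc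
  obtain ⟨a, ha, h2⟩ := quad_nonneg hC hδ jO j hB e h1 h0 hz hJ hbal hK
  have h3 := h2 l0
  have ha0 : a ≠ 0 := by
    intro h
    rw [h, Rat.cast_zero] at h3
    exact mul_ne_zero hz1 hz2 h3
  have ha' : 0 < a := lt_of_le_of_ne ha (Ne.symm ha0)
  refine ⟨_, _, (a : L), Ln_coef hC0 j hB (e l0) (h1 l0) (h0 l0) ⟨z, hz, rfl⟩ hJ, ?_, ?_⟩
  · rw [h3, map_ratCast]
  · rw [prod_sgn_bal hbal, mul_one, map_ratCast]
    refine PosC.posR ⟨(a : ℝ), by exact_mod_cast ha', ?_⟩
    push_cast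
    rfl

end quad

end

end Pool.Agent.N202.QR
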