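import Pool.Agent.TH117.PO.Final
import Pool.Agent.N202.QR.Sgn

/-!
# Positivity of primitive classes, from the signs of the words
-/

set_option autoImplicit false
set_option linter.unusedSectionVars false
set_option linter.unusedVariables false

namespace Pool.Agent.N202.QR

open NumberField Pool.Agent.H204R3.CM Pool.Agent.W547.KB Pool.Agent.W547.LD Pool.Agent.W547.HR
  Pool.Agent.W495.TA Module Pool.Agent.W976.TA Equiv Pool.Agent.TH117.PO
open scoped TensorProduct

noncomputable section

variable {p : ℕ} [Fact p.Prime] {ν : PadicAlgCl p ≃+* ℂ} {Ω : Type} [Field Ω] [CharZero Ω]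
  {C : (Y : RedAV p ν) → (κ : Type) → ((TM Ω Y) [⋀^κ]→ₗ[Ω] Ω) → Prop}
  {L : Type} [Field L] [NumberField L] [IsCMField L] [IsGalois ℚ L]
  {jO : L →+* Ω} {j : L →+* ℂ}

/-- Positivity of a primitive class, if the sum over the words is positive. -/
theorem positive_of (hC : IsCycleSystem Ω C) {Y : RedAV p ν} (hB : Big Y.X j)
    (e : Basis (Wt Y.X L) Ω (TM Ω Y)) (h1 : ∀ w, co jO w (e w) = 1)
    (h0 : ∀ w w', w ≠ w' → co jO w (e w') = 0) {α : Y.X.H1}
    (hα : IsPolar Y.X α) {r m : ℕ} (hrm : 2 * (2 * r + m) = finrank ℚ Y.X.H1)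
    {z : (TM Ω Y) [⋀^Fin r × Fin 2]→ₗ[Ω] Ω} (hz : C Y _ z)
    (hprim : IsPrim α m z) {γ : L} (hγ : ∑ s : Fin r × Fin 2 → Wt Y.X L, (z fun k => e (s k)) *
      (z fun k => JJ jO e α (e (s k))) = jO γ) (hpos : PosC (j γ)) : IsPosClass α m z := by
  classical
  obtain ⟨θ, hθ⟩ := exists_theta (jO := jO) j hα
  have hθr := res_theta j hB hθ
  have hCθ : C Y (Fin 2) θ := theta_mem hC hα hθr
  have hθ1 : ∀ x y : Y.X.H1, θ ![(1 : Ω) ⊗ₜ[ℚ] x, (1 : Ω) ⊗ₜ[ℚ] y] =
      castE Ω (riemannForm Y.X α) x y := by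
    intro x y
    rw [castE, ← hθr]
    unfold res
    congr 1
    funext k
    fin_cases k <;> rfl
  have hpow : ∀ (k : ℕ) (v : Fin k × Fin 2 → Y.X.H1),
      powE (fun x y => θ ![x, y]) k (fun i => (1 : Ω) ⊗ₜ[ℚ] v i) =
        powE (castE Ω (riemannForm Y.X α)) k v := by
    intro k v
    unfold powE
    exact Finset.prod_congr rfl fun i _ => hθ1 _ _
  -- the primitivity over `Ω`
  have hprim' : ∀ v, altSum (times z (powE (fun x y => θ ![x, y]) (m + 1))) v = 0 := by
    have h2 : (times z (powE (fun x y => θ ![x, y]) (m + 1)) : _ → Ω) =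
        RK.mulM z.toMultilinearMap (RK.pw θ.toMultilinearMap (m + 1)) := by
      funext v
      rw [RK.mulM_apply, RK.pw_apply]
      unfold times powE
      congr 1
      refine Finset.prod_congr rfl fun i _ => ?_
      change θ _ = θ _
      congr 1
      funext k
      fin_cases k <;> rfl
    rw [h2]
    refine ext_altSum _ fun v => ?_
    rw [← h2, ← hprim v]
    unfold altSum
    refine Finset.sum_congr rfl fun σ _ => ?_
    congr 1
    unfold times
    rw [hpow]
    rfl
  have hmain := RK.hr_basis e θ (JJ jO e α)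
    (fun u w => JJ_spec e h1 h0 hα (fun w => ev_polar_ne j hα w) hθ u w) r m z hprim'
  rw [hγ] at hmain
  have hmain' : ∀ v : (Fin r × Fin 2) ⊕ ((Fin r × Fin 2) ⊕ (Fin m × Fin 2)) → Y.X.H1,
      (-1) ^ r * altSum (times (res z) (times (res z)
        (powE (castE Ω (riemannForm Y.X α)) m))) v =
      RK.cst r m (jO γ) * altSum (times (powE (castE Ω (riemannForm Y.X α)) r)
        (times (powE (castE Ω (riemannForm Y.X α)) r)
          (powE (castE Ω (riemannForm Y.X α)) m))) v := by
    intro v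
    have h2 := hmain fun i => (1 : Ω) ⊗ₜ[ℚ] v i
    have e1 : altSum (times z (times z (powE (fun a b => θ ![a, b]) m)))
        (fun i => (1 : Ω) ⊗ₜ[ℚ] v i) = altSum (times (res z) (times (res z)
        (powE (castE Ω (riemannForm Y.X α)) m))) v := by
      unfold altSum
      refine Finset.sum_congr rfl fun σ _ => ?_
      congr 1
      unfold times
      rw [hpow]
      rfl
    have e2 : altSum (times (powE (fun a b => θ ![a, b]) r)
          (times (powE (fun a b => θ ![a, b]) r) (powE (fun a b => θ ![a, b]) m)))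
        (fun i => (1 : Ω) ⊗ₜ[ℚ] v i) = altSum (times (powE (castE Ω (riemannForm Y.X α)) r)
        (times (powE (castE Ω (riemannForm Y.X α)) r)
          (powE (castE Ω (riemannForm Y.X α)) m))) v := by
      unfold altSum
      refine Finset.sum_congr rfl fun σ _ => ?_
      congr 1
      unfold times
      rw [hpow, hpow, hpow]
    rw [e1, e2] at h2
    exact h2
  -- the constant is rational
  obtain ⟨v0, hv0⟩ := exists_vol_rat (isPolarization hα) r m hrm
  obtain ⟨Θ, a, ha, hΘ, hΘv⟩ := power_mem hC hCθ m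
  have hW : C Y _ (cupO z (cupO z Θ)) :=
    hC.cup z _ hz (hC.cup z Θ hz hΘ _ fun v => cupO_apply z Θ v) _ fun v =>
      cupO_apply z (cupO z Θ) v
  obtain ⟨b, hb⟩ := hC.top (cupO z (cupO z Θ)) (by
    rw [← hrm, Nat.card_eq_fintype_card]
    simp only [Fintype.card_prod, Fintype.card_fin, Fintype.card_sum]
    ring) hW v0
  have hWv : ∀ w : (Fin r × Fin 2) ⊕ ((Fin r × Fin 2) ⊕ (Fin m × Fin 2)) → TM Ω Y,
      cupO z (cupO z Θ) w = ((Fintype.card (Perm ((Fin r × Fin 2) ⊕ (Fin m × Fin 2))) : ℕ) : Ω) *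
        ((a : Ω) * ((Fintype.card (Perm (Fin m × Fin 2)) : ℕ) : Ω)) *
          altSum (times z (times z (powE (fun a b => θ ![a, b]) m))) w := by
    intro w
    have h2 : ∀ u, cupO z Θ u = (a : Ω) * ((Fintype.card (Perm (Fin m × Fin 2)) : ℕ) : Ω) *
        altSum (times z (powE (fun a b => θ ![a, b]) m)) u := by
      intro u
      rw [cupO_apply, mul_assoc, ← altSum_absorb, ← altSum_const_mul]
      congr 1
      funext x
      unfold times
      rw [hΘv]
      ring
    rw [cupO_apply, mul_comm ((Fintype.card (Perm ((Fin r × Fin 2) ⊕ (Fin m × Fin 2))) : ℕ) : Ω),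
      mul_assoc, ← altSum_absorb, ← altSum_const_mul]
    congr 1
    funext x
    unfold times
    rw [h2]
    unfold times
    ring
  have e0 : res (cupO z (cupO z Θ)) v0 =
      ((Fintype.card (Perm ((Fin r × Fin 2) ⊕ (Fin m × Fin 2))) : ℕ) : Ω) *
        ((a : Ω) * ((Fintype.card (Perm (Fin m × Fin 2)) : ℕ) : Ω)) *
          altSum (times (res z) (times (res z)
        (powE (castE Ω (riemannForm Y.X α)) m))) v0 := by
    change cupO z (cupO z Θ) (fun i => (1 : Ω) ⊗ₜ[ℚ] v0 i) = _
    rw [hWv]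
    congr 1
    unfold altSum
    refine Finset.sum_congr rfl fun σ _ => ?_
    congr 1
    unfold times
    rw [hpow]
    rfl
  have hvol : altSum (times (powE (castE Ω (riemannForm Y.X α)) r)
        (times (powE (castE Ω (riemannForm Y.X α)) r)
          (powE (castE Ω (riemannForm Y.X α)) m))) v0 =
      ((altSum (times (powE (riemannForm Y.X α) r) (times (powE (riemannForm Y.X α) r)
        (powE (riemannForm Y.X α) m))) v0 : ℚ) : Ω) := by
    have h2 := altSum_cast (Q := Unit) (Rat.castHom Ω) (times (powE (riemannForm Y.X α) r)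
      (times (powE (riemannForm Y.X α) r) (powE (riemannForm Y.X α) m))) v0
    rw [Rat.coe_castHom] at h2
    rw [h2]
    congr 1
    funext w
    have h3 : ∀ (k : ℕ) (u : Fin k × Fin 2 → Y.X.H1),
        powE (castE Ω (riemannForm Y.X α)) k u = ((powE (riemannForm Y.X α) k u : ℚ) : Ω) :=
      fun k u => (powE_cast (Rat.castHom Ω) (riemannForm Y.X α) k u).symm
    unfold times
    rw [h3, h3, h3, Rat.cast_mul, Rat.cast_mul]
  set V0 : ℚ := altSum (times (powE (riemannForm Y.X α) r) (times (powE (riemannForm Y.X α) r)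
        (powE (riemannForm Y.X α) m))) v0 with hV0
  set N : ℚ := (Fintype.card (Perm ((Fin r × Fin 2) ⊕ (Fin m × Fin 2))) : ℕ) *
    (a * (Fintype.card (Perm (Fin m × Fin 2)) : ℕ)) with hN
  have hN0 : N ≠ 0 := mul_ne_zero (Nat.cast_ne_zero.2 Fintype.card_ne_zero)
    (mul_ne_zero ha (Nat.cast_ne_zero.2 Fintype.card_ne_zero))
  have hf1 : ((m.factorial : ℕ) : ℚ) ≠ 0 := Nat.cast_ne_zero.2 (Nat.factorial_ne_zero _)
  have hf2 : ((Fintype.card (Perm (Fin r × Fin 2)) : ℕ) : ℚ) ≠ 0 :=
    Nat.cast_ne_zero.2 Fintype.card_ne_zero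
  have hf3 : (((m + len r).factorial : ℕ) : ℚ) ≠ 0 :=
    Nat.cast_ne_zero.2 (Nat.factorial_ne_zero _)
  set D : ℚ := (m.factorial : ℕ) * (Fintype.card (Perm (Fin r × Fin 2)) : ℕ) /
    (((m + len r).factorial : ℕ) * 2 ^ (len r)) with hD
  have hD0 : 0 < D := by
    rw [hD]
    have e1 : 0 < ((m.factorial : ℕ) : ℚ) := Nat.cast_pos.2 (Nat.factorial_pos _)
    have e2 : 0 < ((Fintype.card (Perm (Fin r × Fin 2)) : ℕ) : ℚ) :=
      Nat.cast_pos.2 Fintype.card_pos
    have e3 : 0 < (((m + len r).factorial : ℕ) : ℚ) := Nat.cast_pos.2 (Nat.factorial_pos _)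
    positivity
  have hcst : RK.cst r m (jO γ) = (D : Ω) * jO γ := by
    unfold RK.cst
    rw [hD]
    push_cast
    ring
  have hmm := hmain' v0
  rw [hvol, hcst] at hmm
  have hq : jO γ = (((-1) ^ r * b / (N * D * V0) : ℚ) : Ω) := by
    have e1 : ((N : ℚ) : Ω) ≠ 0 := Rat.cast_ne_zero.2 hN0
    have e2 : ((D : ℚ) : Ω) ≠ 0 := Rat.cast_ne_zero.2 hD0.ne'
    have e3 : ((V0 : ℚ) : Ω) ≠ 0 := Rat.cast_ne_zero.2 hv0
    rw [hb] at e0
    have e4 : (b : Ω) = (N : Ω) * altSum (times (res z) (times (res z)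
        (powE (castE Ω (riemannForm Y.X α)) m))) v0 := by
      rw [e0, hN]
      push_cast
      ring
    push_cast
    rw [e4]
    field_simp
    linear_combination (-1 : Ω) * hmm
  have hq0 := rat_of_pos j jO hpos hq
  refine ⟨D * ((-1) ^ r * b / (N * D * V0)), mul_pos hD0 hq0, fun v => ?_⟩
  rw [hmain' v, hcst, hq, Rat.cast_mul]

/-- A class with vanishing products of conjugate coefficients is numerically trivial. -/
theorem numTriv_of (hC : IsCycleSystem Ω C) {Y : RedAV p ν} (hB : Big Y.X j)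
    (e : Basis (Wt Y.X L) Ω (TM Ω Y)) (h1 : ∀ w, co jO w (e w) = 1)
    (h0 : ∀ w w', w ≠ w' → co jO w (e w') = 0) {κ : Type} [Fintype κ] [DecidableEq κ]
    {z : (TM Ω Y) [⋀^κ]→ₗ[Ω] Ω} (hz : C Y κ z)
    (h : ∀ s : κ → Wt Y.X L, Function.Injective s →
      (z fun k => e (s k)) * (z fun k => e (bar (s k))) = 0) : IsNumTrivial Ω C z := by
  classical
  intro κ' _ _ y hy hcard v
  have : Finite (Wt Y.X L) := Pool.Agent.W67.TA.finite_wt j hB
  have h2 : cupO z y = 0 := by
    refine Basis.ext_alternating e fun I hI => ?_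
    rw [cupO_apply]
    change altSum (times z y) (fun k => e (I k)) = 0
    unfold altSum
    refine Finset.sum_eq_zero fun σ _ => ?_
    have hterm : times z y (fun k => e (I (σ k))) = 0 := by
      change (z fun k => e (I (σ (Sum.inl k)))) * (y fun k => e (I (σ (Sum.inr k)))) = 0
      by_contra hne
      have hI' : Function.Injective fun k => I (σ k) := hI.comp σ.injective
      have hs : Function.Injective fun k => I (σ (Sum.inl k)) := fun k k' hk =>
        Sum.inl_injective (hI' hk)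
      have ht : Function.Injective fun k => I (σ (Sum.inr k)) := fun k k' hk =>
        Sum.inr_injective (hI' hk)
      have l1 := Ln.cup hC (Ln_coef hC j hB e h1 h0 hz hs) (Ln_coef hC j hB e h1 h0 hy ht)
      have hbij : Function.Bijective (Sum.elim (fun k => I (σ (Sum.inl k)))
          fun k => I (σ (Sum.inr k)) : κ ⊕ κ' → Wt Y.X L) := by
        have h3 : (Sum.elim (fun k => I (σ (Sum.inl k))) fun k => I (σ (Sum.inr k)) :
            κ ⊕ κ' → Wt Y.X L) = fun k => I (σ k) := by
          funext k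
          rcases k with k | k <;> rfl
        rw [h3]
        refine hI'.bijective_of_nat_card_le ?_
        rw [Pool.Agent.W67.TA.card_wt j hB, ← hcard, Nat.card_eq_fintype_card, Fintype.card_sum]
      obtain ⟨l, h4, h5⟩ := Ln.top hC j hB hbij l1
      have h6 : jO l ≠ 0 := by
        rw [← h4]
        exact hne
      have h7 : jO (cc L l) ≠ 0 := by
        refine (map_ne_zero jO).2 ((map_ne_zero (cc L)).2 ?_)
        exact (map_ne_zero jO).1 h6
      rw [← h5] at h7
      exact mul_ne_zero (left_ne_zero_of_mul hne) (left_ne_zero_of_mul h7) (h _ hs)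
    rw [hterm, mul_zero]
  have h3 : res (cupO z y) v = 0 := by
    rw [h2]
    rfl
  rw [res_cupO] at h3
  exact h3

end

end Pool.Agent.N202.QR
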