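import Pool.Agent.W351.HB.PF
import Pool.Agent.W215.HB.Bilo
import Pool.Agent.W864.HB.Bilt

/-!
# A rational number which is everywhere locally a norm of an imaginary quadratic field is positive
-/

set_option autoImplicit false

namespace Pool.Agent.N202.QR

open Pool.Agent.W313.BMX Pool.Agent.W351.HB.PF

/-- **Consequence of the product formula for Hilbert symbols.** -/
theorem nonneg_of_norms {d R : ℚ} (hd : 0 < d)
    (h : ∀ l : Nat.Primes, ∃ u v : ℚ_[(l : ℕ)], ((R : ℚ) : ℚ_[(l : ℕ)]) = u ^ 2 + (d : ℚ) * v ^ 2) :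
    0 ≤ R := by
  by_contra hR
  have hR := not_le.1 hR
  obtain ⟨a, ha⟩ : ∃ a : ℤ, a = -(d.num * d.den) := ⟨_, rfl⟩
  obtain ⟨b, hb⟩ : ∃ b : ℤ, b = R.num * R.den := ⟨_, rfl⟩
  have had : (a : ℚ) = -d * (d.den : ℚ) ^ 2 := by
    have h1 := Rat.num_div_den d
    have h2 : (d.den : ℚ) ≠ 0 := by exact_mod_cast d.den_nz
    have h3 : (d.num : ℚ) = d * d.den := by
      rw [eq_comm, ← eq_div_iff h2, h1]
    rw [ha]
    push_cast
    rw [h3]
    ring
  have hbR : (b : ℚ) = R * (R.den : ℚ) ^ 2 := by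
    have h1 := Rat.num_div_den R
    have h2 : (R.den : ℚ) ≠ 0 := by exact_mod_cast R.den_nz
    have h3 : (R.num : ℚ) = R * R.den := by
      rw [eq_comm, ← eq_div_iff h2, h1]
    rw [hb]
    push_cast
    rw [h3]
    ring
  have hden : (0 : ℚ) < (d.den : ℚ) := by exact_mod_cast d.den_pos
  have hRden : (0 : ℚ) < (R.den : ℚ) := by exact_mod_cast R.den_pos
  have ha0 : (a : ℚ) < 0 := by
    rw [had]
    have : 0 < d * (d.den : ℚ) ^ 2 := by positivity
    linarith
  have hb0 : (b : ℚ) < 0 := by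
    rw [hbR]
    have : 0 < -R * (R.den : ℚ) ^ 2 := by
      have : 0 < -R := by linarith
      positivity
    linarith
  have ha1 : a < 0 := by exact_mod_cast ha0
  have hb1 : b < 0 := by exact_mod_cast hb0
  have hloc : ∀ l : Nat.Primes, Splits (a : ℚ_[(l : ℕ)]) (b : ℚ_[(l : ℕ)]) := by
    intro l
    obtain ⟨u, v, huv⟩ := h l
    have e1 : (a : ℚ_[(l : ℕ)]) = -((d : ℚ) : ℚ_[(l : ℕ)]) * (d.den : ℚ_[(l : ℕ)]) ^ 2 := by
      have := congrArg (fun x : ℚ => (x : ℚ_[(l : ℕ)])) had
      push_cast at this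
      exact this
    have e2 : (b : ℚ_[(l : ℕ)]) = ((R : ℚ) : ℚ_[(l : ℕ)]) * (R.den : ℚ_[(l : ℕ)]) ^ 2 := by
      have := congrArg (fun x : ℚ => (x : ℚ_[(l : ℕ)])) hbR
      push_cast at this
      exact this
    have hdd : (d.den : ℚ_[(l : ℕ)]) ≠ 0 := by exact_mod_cast d.den_nz
    refine ⟨R.den * v / d.den, 1, R.den * u, Or.inr (Or.inl one_ne_zero), ?_⟩
    rw [e1, e2, huv]
    field_simp
    ring
  obtain ⟨-, hev⟩ := ev_all Pool.Agent.W215.HB.bilo_
    Pool.Agent.W864.HBm.bilt_ a b ha1.ne hb1.ne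
  have hreal : Splits (a : ℝ) (b : ℝ) := by
    by_contra hno
    have h1 : ram (diag a) b = {none} := by
      ext v
      cases v with
      | none =>
        rw [mem_none]
        simpa using hno
      | some l =>
        rw [mem_some]
        simp [hloc l]
    rw [h1, Set.ncard_singleton] at hev
    exact absurd hev (by decide)
  obtain ⟨x, y, z, h0, h1⟩ := hreal
  have ha2 : (a : ℝ) < 0 := by exact_mod_cast ha1
  have hb2 : (b : ℝ) < 0 := by exact_mod_cast hb1
  have hx : x = 0 := by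
    by_contra hx
    have : 0 < x ^ 2 := by positivity
    nlinarith [sq_nonneg z, sq_nonneg y]
  have hy : y = 0 := by
    by_contra hy
    have : 0 < y ^ 2 := by positivity
    nlinarith [sq_nonneg z, sq_nonneg x]
  subst hx hy
  have hz : z = 0 := by
    have : z ^ 2 = 0 := by rw [h1]; ring
    exact pow_eq_zero_iff two_ne_zero |>.1 this
  rcases h0 with h | h | h
  · exact h rfl
  · exact h rfl
  · exact h hz

end Pool.Agent.N202.QR
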