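import Pool.Agent.N202.QR.Word
import Pool.Agent.TH117.PO.Full
import Pool.Agent.N202.QR.Hil

/-!
# Words of Hodge type defined over an imaginary quadratic field
-/

set_option autoImplicit false
set_option linter.unusedSectionVars false
set_option linter.unusedVariables false

namespace Pool.Agent.N202.QR

open NumberField Pool.Agent.H204R3.CM Pool.Agent.W547.KB Pool.Agent.W547.LD Pool.Agent.W547.HR
  Pool.Agent.W495.TA Module Pool.Agent.TH117.PO Pool.Agent.W976.TA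
open scoped TensorProduct

noncomputable section

section

variable {L : Type} [Field L] [NumberField L] [IsGalois ℚ L]

theorem rat_of_fixed {x : L} (h : ∀ σ : L ≃ₐ[ℚ] L, σ x = x) : ∃ a : ℚ, x = (a : L) := by
  have h1 := (IsGalois.mem_bot_iff_fixed (F := ℚ) (E := L) x).2 h
  obtain ⟨a, ha⟩ := IntermediateField.mem_bot.1 h1
  exact ⟨a, by rw [← ha, eq_ratCast]⟩

/-- The square root `δ` of a negative rational number. -/
structure IsRoot [IsCMField L] (δ : L) (d : ℚ) : Prop where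
  pos : 0 < d
  sq : δ ^ 2 = -(d : L)

variable [IsCMField L] {δ : L} {d : ℚ}

theorem IsRoot.ne (h : IsRoot δ d) : δ ≠ 0 := by
  intro h0
  have h1 := h.sq
  rw [h0, zero_pow two_ne_zero, eq_comm, neg_eq_zero] at h1
  have h2 : d = 0 := by exact_mod_cast h1
  exact h.pos.ne' h2

theorem IsRoot.conj_or (h : IsRoot δ d) (σ : L ≃ₐ[ℚ] L) : σ δ = δ ∨ σ δ = -δ := by
  have h1 : (σ δ) ^ 2 = δ ^ 2 := by
    rw [← map_pow, h.sq, map_neg, map_ratCast]
  exact sq_eq_sq_iff_eq_or_eq_neg.1 h1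

theorem IsRoot.cj (h : IsRoot δ d) (j : L →+* ℂ) : cc L δ = -δ := by
  rcases h.conj_or (cc L) with h1 | h1
  · exfalso
    have h2 := emb_cc j δ
    rw [h1] at h2
    obtain ⟨t, ht⟩ := Complex.conj_eq_iff_real.1 h2.symm
    have h3 := congrArg j h.sq
    rw [map_pow, map_neg, map_ratCast, ht] at h3
    have h4 : t ^ 2 = -(d : ℝ) := by exact_mod_cast h3
    have h5 : (0 : ℝ) < d := by exact_mod_cast h.pos
    nlinarith [sq_nonneg t]
  · exact h1

/-- Elements fixed by the automorphisms that fix `δ`. -/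
theorem IsRoot.exists_rat (h : IsRoot δ d) (j : L →+* ℂ) {m : L}
    (hm : ∀ σ : L ≃ₐ[ℚ] L, σ δ = δ → σ m = m) : ∃ a b : ℚ, m = a + b * δ := by
  have hcc := h.cj j
  have hinv : ∀ x : L, Pool.Agent.W547.KB.cc L (Pool.Agent.W547.KB.cc L x) = x := cc_invol
  have hcomm : ∀ (σ : L ≃ₐ[ℚ] L) (x : L), σ (Pool.Agent.W547.KB.cc L x) =
      Pool.Agent.W547.KB.cc L (σ x) := fun σ x => (DFunLike.congr_fun (cc_comm j σ) x).symm
  -- an element fixed by these automorphisms and by the conjugation is rational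
  have key : ∀ x : L, (∀ σ : L ≃ₐ[ℚ] L, σ δ = δ → σ x = x) →
      Pool.Agent.W547.KB.cc L x = x → ∃ a : ℚ, x = (a : L) := by
    intro x h1 h2
    refine rat_of_fixed fun σ => ?_
    rcases h.conj_or σ with h3 | h3
    · exact h1 σ h3
    · have h4 : (Pool.Agent.W547.KB.cc L * σ) δ = δ := by
        change Pool.Agent.W547.KB.cc L (σ δ) = δ
        rw [h3, map_neg, hcc, neg_neg]
      have h5 := h1 _ h4
      change Pool.Agent.W547.KB.cc L (σ x) = x at h5
      rw [← hcomm, h2] at h5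
      exact h5
  obtain ⟨a, ha⟩ := key ((m + Pool.Agent.W547.KB.cc L m) / 2) (fun σ hσ => by
    rw [map_div₀, map_add, hcomm, hm σ hσ, map_ofNat]) (by
    rw [map_div₀, map_add, hinv, map_ofNat, add_comm])
  obtain ⟨b, hb⟩ := key ((m - Pool.Agent.W547.KB.cc L m) / (2 * δ)) (fun σ hσ => by
    rw [map_div₀, map_sub, hcomm, hm σ hσ, map_mul, map_ofNat, hσ]) (by
    rw [map_div₀, map_sub, hinv, map_mul, map_ofNat, hcc]
    have := h.ne
    field_simp
    ring)
  refine ⟨a, b, ?_⟩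
  rw [← ha, ← hb]
  have := h.ne
  field_simp
  ring

end

section

variable {p : ℕ} [Fact p.Prime] {ν : PadicAlgCl p ≃+* ℂ}
  {Ω : Nat.Primes → Type} [∀ l, Field (Ω l)] [∀ l, CharZero (Ω l)]
  [∀ l : Nat.Primes, Algebra ℚ_[(l : ℕ)] (Ω l)] {L : Type} [Field L] [NumberField L]
  [IsCMField L] [IsGalois ℚ L] {δ : L} {d : ℚ}

open Classical in
/-- The sums over the two cosets. -/
theorem SS_sums (hδ : IsRoot δ d) (j : L →+* ℂ) (jO : ∀ l, L →+* Ω l) (l : Nat.Primes)
    {x : (L ≃ₐ[ℚ] L) → Ω l} (hx : x ∈ SS jO l) : ∃ u v : ℚ_[(l : ℕ)],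
      (∑ σ with σ δ = δ, x σ) = algebraMap _ (Ω l) u + algebraMap _ (Ω l) v * jO l δ ∧
      (∑ σ with σ δ = δ, x (cc L * σ)) = algebraMap _ (Ω l) u - algebraMap _ (Ω l) v * jO l δ := by
  induction hx using AddSubgroup.closure_induction with
  | mem x hx =>
    obtain ⟨m, q, h⟩ := hx
    set M : L := ∑ σ : L ≃ₐ[ℚ] L with σ δ = δ, σ m with hM
    have hfix : ∀ τ : L ≃ₐ[ℚ] L, τ δ = δ → τ M = M := by
      intro τ hτ
      rw [hM, map_sum]
      refine Finset.sum_bij (fun σ _ => τ * σ) ?_ ?_ ?_ ?_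
      · intro σ hσ
        refine Finset.mem_filter.2 ⟨Finset.mem_univ _, ?_⟩
        change τ (σ δ) = δ
        rw [(Finset.mem_filter.1 hσ).2, hτ]
      · intro σ _ σ' _ h
        exact mul_left_cancel h
      · intro σ hσ
        refine ⟨τ⁻¹ * σ, Finset.mem_filter.2 ⟨Finset.mem_univ _, ?_⟩, mul_inv_cancel_left τ σ⟩
        change τ⁻¹ (σ δ) = δ
        rw [(Finset.mem_filter.1 hσ).2]
        conv_lhs => rw [← hτ]
        exact DFunLike.congr_fun (inv_mul_cancel τ) δ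
      · intro σ _
        rfl
    obtain ⟨a, b, hab⟩ := hδ.exists_rat j hfix
    refine ⟨a * q, b * q, ?_, ?_⟩
    · have h1 : (∑ σ with σ δ = δ, x σ) = jO l M * algebraMap _ (Ω l) q := by
        rw [hM, map_sum, Finset.sum_mul]
        exact Finset.sum_congr rfl fun σ _ => h σ
      rw [h1, hab]
      simp only [map_add, map_mul, map_ratCast]
      ring
    · have h1 : (∑ σ with σ δ = δ, x (cc L * σ)) = jO l (cc L M) * algebraMap _ (Ω l) q := by
        rw [hM, map_sum, map_sum, Finset.sum_mul]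
        exact Finset.sum_congr rfl fun σ _ => h (cc L * σ)
      rw [h1, hab]
      simp only [map_add, map_mul, map_ratCast, hδ.cj j, map_neg]
      ring
  | zero => exact ⟨0, 0, by simp, by simp⟩
  | add x y _ _ h1 h2 =>
    obtain ⟨u, v, h3, h4⟩ := h1
    obtain ⟨u', v', h5, h6⟩ := h2
    refine ⟨u + u', v + v', ?_, ?_⟩
    · simp only [Pi.add_apply, Finset.sum_add_distrib, h3, h5, map_add]
      ring
    · simp only [Pi.add_apply, Finset.sum_add_distrib, h4, h6, map_add]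
      ring
  | neg x _ h1 =>
    obtain ⟨u, v, h3, h4⟩ := h1
    refine ⟨-u, -v, ?_, ?_⟩
    · simp only [Pi.neg_apply, Finset.sum_neg_distrib, h3, map_neg]
      ring
    · simp only [Pi.neg_apply, Finset.sum_neg_distrib, h4, map_neg]
      ring

/-- The action on weights. -/
def sw {X : CMAV} (σ : L ≃ₐ[ℚ] L) (w : Wt X L) : Wt X L := ⟨w.1, σ • w.2⟩

theorem ev_sw {X : CMAV} (σ : L ≃ₐ[ℚ] L) (v : X.H1) (w : Wt X L) : ev v (sw σ w) = σ (ev v w) :=
  rfl

theorem sw_cc {X : CMAV} (σ : L ≃ₐ[ℚ] L) (w : Wt X L) : sw (cc L * σ) w = bar (sw σ w) := by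
  refine Sigma.ext rfl (heq_of_eq ?_)
  exact mul_smul _ _ _

theorem sw_mul {X : CMAV} (σ τ : L ≃ₐ[ℚ] L) (w : Wt X L) : sw (σ * τ) w = sw σ (sw τ w) := by
  refine Sigma.ext rfl (heq_of_eq ?_)
  exact mul_smul _ _ _

theorem sw_one {X : CMAV} (w : Wt X L) : sw (1 : L ≃ₐ[ℚ] L) w = w := by
  refine Sigma.ext rfl (heq_of_eq ?_)
  exact one_smul _ _

theorem mono_sw {X : CMAV} {κ : Type} [Fintype κ] [DecidableEq κ] (σ : L ≃ₐ[ℚ] L)
    (I : κ → Wt X L) (v : κ → X.H1) : mono (fun k => sw σ (I k)) v = σ (mono I v) := by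
  rw [mono_apply, mono_apply, map_sum]
  refine Finset.sum_congr rfl fun τ _ => ?_
  rw [map_mul, map_intCast, map_prod]
  rfl

/-- The permutation of the weights. -/
def swE (X : CMAV) (σ : L ≃ₐ[ℚ] L) : Wt X L ≃ Wt X L where
  toFun w := sw σ⁻¹ w
  invFun w := sw σ w
  left_inv w := by
    change sw σ (sw σ⁻¹ w) = w
    rw [← sw_mul, mul_inv_cancel, sw_one]
  right_inv w := by
    change sw σ⁻¹ (sw σ w) = w
    rw [← sw_mul, inv_mul_cancel, sw_one]

theorem co_jS (jO : ∀ l, L →+* Ω l) (Y : RedAV p ν) (i : Nat.Primes × (L ≃ₐ[ℚ] L))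
    (w : Wt Y.X L) : co (jS jO i) w = co (jO i.1) (sw i.2 w) := rfl

variable {C : (Y : RedAV p ν) → (κ : Type) → FCl Ω Y κ → Prop} (hC : IsCompatible Ω C)
include hC

/-- **The sign of the classes of Hodge type defined over an imaginary quadratic field.** -/
theorem quad_nonneg (hδ : IsRoot δ d) (jO : ∀ l, L →+* Ω l) (j : L →+* ℂ)
    {Y : RedAV p ν} (hB : Big Y.X j) (e : ∀ l, Basis (Wt Y.X L) (Ω l) (TM (Ω l) Y))
    (h1 : ∀ l w, co (jO l) w (e l w) = 1) (h0 : ∀ l w w', w ≠ w' → co (jO l) w (e l w') = 0)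
    {κ : Type} [Fintype κ] [DecidableEq κ] {z : FCl Ω Y κ} (hz : C Y κ z) {I : κ → Wt Y.X L}
    (hI : Function.Injective I) (hbal : Balanced (fun k => St j (I k)))
    (hK : ∀ σ : L ≃ₐ[ℚ] L, σ δ = δ → ∃ π : Equiv.Perm κ, ∀ k, sw σ (I k) = I (π k)) :
    ∃ a : ℚ, 0 ≤ a ∧ ∀ l, (z l fun k => e l (I k)) * (z l fun k => e l (bar (I k))) =
      (a : Ω l) := by
  classical
  have hC' : IsFam (fun i : Nat.Primes × (L ≃ₐ[ℚ] L) => Ω i.1) (rep (L ≃ₐ[ℚ] L) C) :=
    hC.toIsFam.rep 1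
  have hinv : ∀ x : L, cc L (cc L x) = x := cc_invol
  let e' : ∀ i : Nat.Primes × (L ≃ₐ[ℚ] L), Basis (Wt Y.X L) (Ω i.1) (TM (Ω i.1) Y) := fun i =>
    (e i.1).reindex (swE Y.X i.2)
  have he' : ∀ (i : Nat.Primes × (L ≃ₐ[ℚ] L)) (w : Wt Y.X L), e' i w = e i.1 (sw i.2 w) := by
    intro i w
    exact Basis.reindex_apply _ _ _
  have hinj : ∀ σ : L ≃ₐ[ℚ] L, Function.Injective (sw (X := Y.X) σ) := fun σ =>
    (swE Y.X σ).symm.injective
  have h1' : ∀ i w, co (jS jO i) w (e' i w) = 1 := by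
    intro i w
    rw [he', co_jS]
    exact h1 _ _
  have h0' : ∀ i w w', w ≠ w' → co (jS jO i) w (e' i w') = 0 := by
    intro i w w' hw
    rw [he', co_jS]
    exact h0 _ _ _ fun h => hw (hinj _ h)
  -- a rational vector where the monomial does not vanish
  obtain ⟨v0, hv0⟩ : ∃ v : κ → Y.X.H1, mono I v ≠ 0 := by
    by_contra hcon
    push Not at hcon
    let l : Nat.Primes := ⟨2, Nat.prime_two⟩
    have h2 : monoO (jO l) I = 0 := by
      refine Pool.Agent.W417.TA.ext_tmul fun v => ?_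
      rw [Pool.Agent.W417.TA.monoO_tmul, hcon, map_zero]
      rfl
    have h3 : monoO (jO l) I (fun k => e l (I k)) = 1 := by
      rw [monoO_det]
      have h4 : (Matrix.of fun k k' => co (jO l) (I k') (e l (I k))) = (1 : Matrix κ κ (Ω l)) := by
        ext k k'
        rw [Matrix.of_apply, Matrix.one_apply]
        split_ifs with h5
        · rw [h5]; exact h1 _ _
        · exact h0 _ _ _ fun h6 => h5 (hI h6).symm
      rw [h4, Matrix.det_one]
    rw [h2] at h3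
    exact zero_ne_one h3
  set D : L := mono I v0 with hD
  -- the coefficients
  let c : ∀ i : Nat.Primes × (L ≃ₐ[ℚ] L), Ω i.1 := fun i => z i.1 fun k => e i.1 (sw i.2 (I k))
  let c' : ∀ i : Nat.Primes × (L ≃ₐ[ℚ] L), Ω i.1 := fun i =>
    z i.1 fun k => e i.1 (sw i.2 (bar (I k)))
  have hzr : rep (L ≃ₐ[ℚ] L) C Y κ (fun i => z i.1) := ⟨z, hz, fun i => rfl⟩
  have hIb : Function.Injective fun k => bar (I k) := fun k k' h => hI (bar_injective h)
  have hLn : LnF (rep (L ≃ₐ[ℚ] L) C) (jS jO) Y I c := by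
    have h2 := LnF_coef hC' j hB e' h1' h0' hzr hI
    have h3 : (fun i : Nat.Primes × (L ≃ₐ[ℚ] L) => z i.1 fun k => e' i (I k)) = c := by
      funext i
      simp only [he']
      rfl
    rw [h3] at h2
    exact h2
  have hLn' : LnF (rep (L ≃ₐ[ℚ] L) C) (jS jO) Y (fun k => bar (I k)) c' := by
    have h2 := LnF_coef hC' j hB e' h1' h0' hzr hIb
    have h3 : (fun i : Nat.Primes × (L ≃ₐ[ℚ] L) => z i.1 fun k => e' i (bar (I k))) = c' := by
      funext i
      simp only [he']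
      rfl
    rw [h3] at h2
    exact h2
  have hne : Nonempty (Nat.Primes × (L ≃ₐ[ℚ] L)) := ⟨(⟨2, Nat.prime_two⟩, 1)⟩
  obtain ⟨m, hm⟩ := two_linesF hC' j hB hI hLn hLn'
  -- the values on the two cosets
  let s : Equiv.Perm κ → ℤ := fun π => (Equiv.Perm.sign π : ℤ)
  have hss : ∀ π, s π * s π = 1 := fun π => by
    change ((Equiv.Perm.sign π : ℤ)) * ((Equiv.Perm.sign π : ℤ)) = 1
    rw [← Units.val_mul, Int.units_mul_self, Units.val_one]
  have hperm : ∀ (l : Nat.Primes) (π : Equiv.Perm κ) (v : κ → TM (Ω l) Y),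
      (z l fun k => v (π k)) = (s π : Ω l) * z l v := by
    intro l π v
    have h2 := (z l).map_perm v π
    rw [Units.smul_def, zsmul_eq_mul] at h2
    exact h2
  have hbs : ∀ (σ : L ≃ₐ[ℚ] L) (w : Wt Y.X L), sw σ (bar w) = bar (sw σ w) := by
    intro σ w
    have h2 : bar w = sw (cc L) w := rfl
    have h3 : bar (sw σ w) = sw (cc L) (sw σ w) := rfl
    rw [h2, h3, ← sw_mul, ← sw_mul, cc_comm j]
  set z0 : ∀ l, Ω l := fun l => z l fun k => e l (I k) with hz0
  set z1 : ∀ l, Ω l := fun l => z l fun k => e l (bar (I k)) with hz1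
  have key : ∀ σ : L ≃ₐ[ℚ] L, σ δ = δ → ∃ ε : ℤ, ε * ε = 1 ∧ σ D = ε * D ∧ ∀ l,
      c (l, σ) = ε * z0 l ∧ c' (l, σ) = ε * z1 l ∧ c (l, cc L * σ) = ε * z1 l ∧
        c' (l, cc L * σ) = ε * z0 l := by
    intro σ hσ
    obtain ⟨π, hπ⟩ := hK σ hσ
    refine ⟨s π, hss π, ?_, fun l => ⟨?_, ?_, ?_, ?_⟩⟩
    · rw [hD, ← mono_sw]
      have h2 : (fun k => sw σ (I k)) = I ∘ π := funext hπ
      rw [h2, mono_perm]
    · change (z l fun k => e l (sw σ (I k))) = _
      simp only [hπ]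
      exact hperm l π fun k => e l (I k)
    · change (z l fun k => e l (sw σ (bar (I k)))) = _
      simp only [hbs, hπ]
      exact hperm l π fun k => e l (bar (I k))
    · change (z l fun k => e l (sw (cc L * σ) (I k))) = _
      simp only [sw_cc, hπ]
      exact hperm l π fun k => e l (bar (I k))
    · change (z l fun k => e l (sw (cc L * σ) (bar (I k)))) = _
      simp only [sw_cc, hbs, hπ, bar_bar]
      exact hperm l π fun k => e l (I k)
  have hcos : ∀ σ : L ≃ₐ[ℚ] L, σ δ = δ ∨ ∃ τ : L ≃ₐ[ℚ] L, τ δ = δ ∧ σ = cc L * τ := by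
    intro σ
    rcases hδ.conj_or σ with h2 | h2
    · exact Or.inl h2
    · refine Or.inr ⟨cc L * σ, ?_, ?_⟩
      · change cc L (σ δ) = δ
        rw [h2, map_neg, hδ.cj j, neg_neg]
      · rw [← mul_assoc, cc_cc, one_mul]
  -- the product of the coefficients is rational
  let l0 : Nat.Primes := ⟨2, Nat.prime_two⟩
  have hmfix : ∀ σ : L ≃ₐ[ℚ] L, σ m = m := by
    intro σ
    apply (jO l0).injective
    have e1 : jO l0 (σ m) = c (l0, σ) * c' (l0, σ) := (hm (l0, σ)).symm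
    have e2 : jO l0 m = z0 l0 * z1 l0 := by
      have e3 := hm (l0, 1)
      obtain ⟨ε, hε, -, h2⟩ := key 1 rfl
      obtain ⟨h3, h4, -⟩ := h2 l0
      rw [h3, h4] at e3
      have e4 : jS jO (l0, 1) m = jO l0 m := rfl
      rw [← e4, ← e3]
      have e5 : ((ε : ℤ) : Ω l0) * ((ε : ℤ) : Ω l0) = 1 := by rw [← Int.cast_mul, hε, Int.cast_one]
      linear_combination (z0 l0 * z1 l0) * e5
    rw [e1, e2]
    rcases hcos σ with h2 | ⟨τ, h2, rfl⟩
    · obtain ⟨ε, hε, -, h3⟩ := key σ h2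
      obtain ⟨h4, h5, -⟩ := h3 l0
      have e5 : ((ε : ℤ) : Ω l0) * ((ε : ℤ) : Ω l0) = 1 := by rw [← Int.cast_mul, hε, Int.cast_one]
      rw [h4, h5]
      linear_combination (z0 l0 * z1 l0) * e5
    · obtain ⟨ε, hε, -, h3⟩ := key τ h2
      obtain ⟨-, -, h4, h5⟩ := h3 l0
      have e5 : ((ε : ℤ) : Ω l0) * ((ε : ℤ) : Ω l0) = 1 := by rw [← Int.cast_mul, hε, Int.cast_one]
      rw [h4, h5]
      linear_combination (z0 l0 * z1 l0) * e5
  obtain ⟨a, ha⟩ := rat_of_fixed hmfix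
  have hprod : ∀ l, z0 l * z1 l = (a : Ω l) := by
    intro l
    have e3 := hm (l, 1)
    obtain ⟨ε, hε, -, h2⟩ := key 1 rfl
    obtain ⟨h3, h4, -⟩ := h2 l
    rw [h3, h4, ha, map_ratCast] at e3
    rw [← e3]
    have e5 : ((ε : ℤ) : Ω l) * ((ε : ℤ) : Ω l) = 1 := by rw [← Int.cast_mul, hε, Int.cast_one]
    linear_combination (-(z0 l * z1 l)) * e5
  refine ⟨a, ?_, hprod⟩
  -- the norm of `D` is rational and positive
  have hEfix : ∀ σ : L ≃ₐ[ℚ] L, σ (D * cc L D) = D * cc L D := by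
    have hcomm : ∀ (σ : L ≃ₐ[ℚ] L) (x : L), σ (cc L x) = cc L (σ x) := fun σ x =>
      (DFunLike.congr_fun (cc_comm j σ) x).symm
    have h2 : ∀ σ : L ≃ₐ[ℚ] L, σ δ = δ → σ (D * cc L D) = D * cc L D := by
      intro σ hσ
      obtain ⟨ε, hε, h3, -⟩ := key σ hσ
      have e5 : ((ε : ℤ) : L) * ((ε : ℤ) : L) = 1 := by rw [← Int.cast_mul, hε, Int.cast_one]
      rw [map_mul, hcomm, h3, map_mul, map_intCast]
      linear_combination (D * cc L D) * e5
    intro σ
    rcases hcos σ with h3 | ⟨τ, h3, rfl⟩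
    · exact h2 σ h3
    · change cc L (τ (D * cc L D)) = _
      rw [h2 τ h3, map_mul, hinv, mul_comm]
  obtain ⟨E, hE⟩ := rat_of_fixed hEfix
  have hEpos : 0 < E := by
    have h2 := PosC.norm j hv0
    exact rat_of_pos j (RingHom.id L) h2 (by rw [RingHom.id_apply]; exact hE)
  -- the local conditions
  set N : ℚ := ((Finset.univ.filter fun σ : L ≃ₐ[ℚ] L => σ δ = δ).card : ℚ) with hN
  have hNpos : 0 < N := by
    rw [hN]
    exact Nat.cast_pos.2 (Finset.card_pos.2 ⟨(1 : L ≃ₐ[ℚ] L),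
      Finset.mem_filter.2 ⟨Finset.mem_univ _, rfl⟩⟩)
  have hloc : ∀ l : Nat.Primes, ∃ u v : ℚ_[(l : ℕ)],
      ((N ^ 2 * (a * E) : ℚ) : ℚ_[(l : ℕ)]) = u ^ 2 + (d : ℚ) * v ^ 2 := by
    intro l
    have h2 := coef_mem hC jO j hB hI hbal hLn l
    have h3 := SS_smul jO l D h2
    obtain ⟨u, v, h4, h5⟩ := SS_sums hδ j jO l h3
    have e1 : (∑ σ with σ δ = δ, jO l (σ D) * c (l, σ)) = (N : Ω l) * (jO l D * z0 l) := by
      have e2 : ∀ σ ∈ Finset.univ.filter (fun σ : L ≃ₐ[ℚ] L => σ δ = δ),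
          jO l (σ D) * c (l, σ) = jO l D * z0 l := by
        intro σ hσ
        obtain ⟨ε, hε, h6, h7⟩ := key σ (Finset.mem_filter.1 hσ).2
        have e5 : ((ε : ℤ) : Ω l) * ((ε : ℤ) : Ω l) = 1 := by
          rw [← Int.cast_mul, hε, Int.cast_one]
        rw [h6, (h7 l).1, map_mul, map_intCast]
        linear_combination (jO l D * z0 l) * e5
      rw [Finset.sum_congr rfl e2, Finset.sum_const, nsmul_eq_mul, hN]
      push_cast
      rfl
    have e1' : (∑ σ with σ δ = δ, jO l ((cc L * σ) D) * c (l, cc L * σ)) =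
        (N : Ω l) * (jO l (cc L D) * z1 l) := by
      have e2 : ∀ σ ∈ Finset.univ.filter (fun σ : L ≃ₐ[ℚ] L => σ δ = δ),
          jO l ((cc L * σ) D) * c (l, cc L * σ) = jO l (cc L D) * z1 l := by
        intro σ hσ
        obtain ⟨ε, hε, h6, h7⟩ := key σ (Finset.mem_filter.1 hσ).2
        have e5 : ((ε : ℤ) : Ω l) * ((ε : ℤ) : Ω l) = 1 := by
          rw [← Int.cast_mul, hε, Int.cast_one]
        have e6 : (cc L * σ) D = (ε : L) * cc L D := by
          change cc L (σ D) = _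
          rw [h6, map_mul, map_intCast]
        rw [e6, (h7 l).2.2.1, map_mul, map_intCast]
        linear_combination (jO l (cc L D) * z1 l) * e5
      rw [Finset.sum_congr rfl e2, Finset.sum_const, nsmul_eq_mul, hN]
      push_cast
      rfl
    rw [e1] at h4
    rw [e1'] at h5
    refine ⟨u, v, ?_⟩
    apply (algebraMap ℚ_[(l : ℕ)] (Ω l)).injective
    rw [map_ratCast, map_add, map_pow, map_mul, map_pow, map_ratCast]
    have e7 : (N : Ω l) ^ 2 * ((a : Ω l) * (E : Ω l)) =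
        ((N : Ω l) * (jO l D * z0 l)) * ((N : Ω l) * (jO l (cc L D) * z1 l)) := by
      have e8 : (E : Ω l) = jO l D * jO l (cc L D) := by
        rw [← map_mul, hE, map_ratCast]
      rw [e8, ← hprod l]
      ring
    have e9 : jO l δ ^ 2 = -(d : Ω l) := by
      rw [← map_pow, hδ.sq, map_neg, map_ratCast]
    push_cast
    rw [e7, h4, h5]
    linear_combination (-(algebraMap ℚ_[(l : ℕ)] (Ω l) v) ^ 2) * e9
  have h2 := nonneg_of_norms hδ.pos hloc
  by_contra hneg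
  have hneg := not_le.1 hneg
  have h3 : N ^ 2 * (a * E) < 0 := by
    have h4 : a * E < 0 := mul_neg_of_neg_of_pos hneg hEpos
    exact mul_neg_of_pos_of_neg (by positivity) h4
  linarith

end

end

end Pool.Agent.N202.QR
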