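import Pool.Agent.TH117.PO.Ind
import Pool.Agent.N202.QR.Quad

/-!
# Lines and positive monomials under a change of the CM field
-/

set_option autoImplicit false
set_option linter.unusedSectionVars false
set_option linter.unusedVariables false

namespace Pool.Agent.N202.QR

open NumberField Pool.Agent.H204R3.CM Pool.Agent.W547.KB Pool.Agent.W547.LD Pool.Agent.W547.HR
  Pool.Agent.W495.TA Module Pool.Agent.TH117.PO Pool.Agent.W976.TA
open scoped TensorProduct

noncomputable section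

variable {p : ℕ} [Fact p.Prime] {ν : PadicAlgCl p ≃+* ℂ} {Ω : Type} [Field Ω] [CharZero Ω]
  {C : (Y : RedAV p ν) → (κ : Type) → ((TM Ω Y) [⋀^κ]→ₗ[Ω] Ω) → Prop}

section

variable {L : Type} [Field L] [NumberField L] [IsCMField L] [IsGalois ℚ L] {jO : L →+* Ω}

/-- The first components of the twisted span are restrictions of combinations of classes. -/
theorem V_fst {Y : RedAV p ν} {κ : Type} {F : W jO Y κ} (hF : F ∈ V C jO Y κ) :
    ∃ A ∈ Submodule.span Ω {g : (TM Ω Y) [⋀^κ]→ₗ[Ω] Ω | C Y κ g}, F.fst = res A := by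
  unfold V at hF
  induction hF using Submodule.span_induction with
  | mem F hF =>
    obtain ⟨z, hz, rfl⟩ := hF
    exact ⟨z, Submodule.subset_span hz, rfl⟩
  | zero => exact ⟨0, Submodule.zero_mem _, rfl⟩
  | add F G _ _ h1 h2 =>
    obtain ⟨A, hA, h3⟩ := h1
    obtain ⟨B, hB, h4⟩ := h2
    refine ⟨A + B, Submodule.add_mem _ hA hB, ?_⟩
    rw [W.add_fst, h3, h4]
    rfl
  | smul l F _ h1 =>
    obtain ⟨A, hA, h3⟩ := h1
    refine ⟨jO l • A, Submodule.smul_mem _ _ hA, ?_⟩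
    rw [W.smul_fst, h3]
    rfl

variable {Y : RedAV p ν} {κ : Type} [Fintype κ] [DecidableEq κ]
  (e : Basis (Wt Y.X L) Ω (TM Ω Y)) (h1 : ∀ w, co jO w (e w) = 1)
  (h0 : ∀ w w', w ≠ w' → co jO w (e w') = 0)

include h1 h0

theorem monoO_self {I : κ → Wt Y.X L} (hI : Function.Injective I) :
    (monoO jO I fun k => e (I k)) = 1 := by
  rw [monoO_det]
  have h4 : (Matrix.of fun k k' => co jO (I k') (e (I k))) = (1 : Matrix κ κ Ω) := by
    ext k k'
    rw [Matrix.of_apply, Matrix.one_apply]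
    split_ifs with h5
    · rw [h5]; exact h1 _
    · exact h0 _ _ fun h6 => h5 (hI h6).symm
  rw [h4, Matrix.det_one]

/-- A class whose coefficient on a given line does not vanish. -/
theorem exists_class {I : κ → Wt Y.X L} (hI : Function.Injective I) {c c' : Ω}
    (h : Ln jO C Y I c c') (hc : c ≠ 0) : ∃ z, C Y κ z ∧ (z fun k => e (I k)) ≠ 0 := by
  obtain ⟨A, hA, h2⟩ := V_fst h
  have h3 : A = c • monoO jO I := by
    refine ext_res fun v => ?_
    rw [← h2]
    change c * jO (mono I v) = c * monoO jO I (fun k => 1 ⊗ₜ[ℚ] v k)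
    rw [Pool.Agent.W417.TA.monoO_tmul]
  have h4 : (A fun k => e (I k)) ≠ 0 := by
    rw [h3]
    change c * (monoO jO I fun k => e (I k)) ≠ 0
    rw [monoO_self e h1 h0 hI, mul_one]
    exact hc
  obtain ⟨z, hz, h5⟩ := exists_of_span hA h4
  exact ⟨z, hz, h5⟩

/-- A class with two nonvanishing coefficients. -/
theorem exists_both (hC : IsCycleSystem Ω C) (j : L →+* ℂ) (hB : Big Y.X j)
    {I : κ → Wt Y.X L} (hI : Function.Injective I) {c c' : Ω}
    (h : Ln jO C Y I c c') (hc : c * c' ≠ 0) :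
    ∃ z, C Y κ z ∧ (z fun k => e (I k)) ≠ 0 ∧ (z fun k => e (bar (I k))) ≠ 0 := by
  obtain ⟨z, hz, hz1⟩ := exists_class e h1 h0 hI h (left_ne_zero_of_mul hc)
  obtain ⟨z', hz', hz1'⟩ := exists_class e h1 h0 (fun k k' hk => hI (bar_injective hk))
    (Ln.swap h) (right_ne_zero_of_mul hc)
  refine ⟨z, hz, hz1, ?_⟩
  obtain ⟨l, h2, h3⟩ := two_lines hC j hB hI (Ln_coef hC j hB e h1 h0 hz hI)
    (Ln_coef hC j hB e h1 h0 hz' hI)
  have h4 : jO l ≠ 0 := by
    rw [← h2]
    exact mul_ne_zero hz1 hz1'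
  have h5 : jO (cc L l) ≠ 0 := by
    refine (map_ne_zero jO).2 ((map_ne_zero (cc L)).2 ?_)
    exact (map_ne_zero jO).1 h4
  rw [← h3] at h5
  exact left_ne_zero_of_mul h5

end

section

variable {L L' : Type} [Field L] [NumberField L] [IsCMField L] [IsGalois ℚ L]
  [Field L'] [NumberField L'] [IsCMField L'] [IsGalois ℚ L'] {jO : L →+* Ω} {jO' : L' →+* Ω}
  {j : L →+* ℂ} {j' : L' →+* ℂ} {ι : L →+* L'}

/-- The weight over a larger field. -/
def up (ι : L →+* L') {X : CMAV} (w : Wt X L) : Wt X L' := ⟨w.1, ι.comp w.2⟩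

theorem up_injective {X : CMAV} : Function.Injective (up (X := X) ι) := by
  rintro ⟨i, φ⟩ ⟨i', φ'⟩ h
  obtain ⟨h1, h2⟩ := Sigma.mk.inj_iff.1 h
  change i = i' at h1
  subst h1
  have h3 : ι.comp φ = ι.comp φ' := eq_of_heq h2
  have h4 : φ = φ' := by
    ext a
    exact ι.injective (RingHom.congr_fun h3 a)
  rw [h4]

theorem up_surjective (hj : j'.comp ι = j) {X : CMAV} (hB : Big X j) :
    Function.Surjective (up (X := X) ι) := by
  rintro ⟨i, φ⟩
  obtain ⟨φ', h⟩ := hB i (j'.comp φ)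
  refine ⟨⟨i, φ'⟩, ?_⟩
  have h3 : ι.comp φ' = φ := by
    ext a
    apply j'.injective
    have h4 := RingHom.congr_fun h a
    rw [← hj] at h4
    exact h4
  exact Sigma.ext rfl (heq_of_eq h3)

theorem co_up (hO : jO'.comp ι = jO) {Y : RedAV p ν} (w : Wt Y.X L) :
    co jO' (up ι w) = co jO w := by
  unfold co
  congr 1
  refine LinearMap.ext fun x => ?_
  change jO' (ι (w.2 (x w.1))) = jO (w.2 (x w.1))
  exact RingHom.congr_fun hO _

theorem monoO_up (hO : jO'.comp ι = jO) {Y : RedAV p ν} {κ : Type} [Fintype κ] [DecidableEq κ]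
    (I : κ → Wt Y.X L) : monoO jO' (fun k => up ι (I k)) = monoO jO I := by
  unfold monoO
  simp only [co_up hO]

theorem cc_up (hj : j'.comp ι = j) (x : L) : cc L' (ι x) = ι (cc L x) := by
  apply j'.injective
  have h1 : ∀ y, j' (ι y) = j y := fun y => RingHom.congr_fun hj y
  rw [emb_cc, h1, h1, emb_cc]

theorem bar_up (hj : j'.comp ι = j) {X : CMAV} (w : Wt X L) : bar (up ι w) = up ι (bar w) := by
  refine Sigma.ext rfl (heq_of_eq ?_)
  ext x
  exact cc_up hj (w.2 x)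

theorem sgn_up (hj : j'.comp ι = j) {X : CMAV} (w : Wt X L) :
    Pool.Agent.TH117.PO.sgn j' (up ι w) = Pool.Agent.TH117.PO.sgn j w := by
  have h1 : (1 : L' ≃ₐ[ℚ] L') ∈ St j' (up ι w) ↔ (1 : L ≃ₐ[ℚ] L) ∈ St j w := by
    change j'.comp ((1 : L' ≃ₐ[ℚ] L') • ι.comp w.2) ∈ (X.factor w.1).Φ ↔
      j.comp ((1 : L ≃ₐ[ℚ] L) • w.2) ∈ (X.factor w.1).Φ
    rw [one_smul, one_smul]
    have h2 : j'.comp (ι.comp w.2) = j.comp w.2 := by
      rw [← hj]
      rfl
    rw [h2]
  unfold Pool.Agent.TH117.PO.sgn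
  by_cases h : (1 : L ≃ₐ[ℚ] L) ∈ St j w
  · rw [if_pos h, if_pos (h1.2 h)]
  · rw [if_neg h, if_neg fun h2 => h (h1.1 h2)]

theorem Big.up (hj : j'.comp ι = j) {X : CMAV} (hB : Big X j) : Big X j' := by
  intro i ψ
  obtain ⟨φ, h⟩ := hB i ψ
  refine ⟨ι.comp φ, ?_⟩
  rw [← h, ← hj]
  rfl

/-- The elements of the basis. -/
theorem e_up (hO : jO'.comp ι = jO) {Y : RedAV p ν} (hs : Function.Surjective (up (X := Y.X) ι))
    (e : Basis (Wt Y.X L) Ω (TM Ω Y)) (h1 : ∀ w, co jO w (e w) = 1)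
    (h0 : ∀ w w', w ≠ w' → co jO w (e w') = 0)
    (e' : Basis (Wt Y.X L') Ω (TM Ω Y)) (h1' : ∀ w, co jO' w (e' w) = 1)
    (h0' : ∀ w w', w ≠ w' → co jO' w (e' w') = 0) (w : Wt Y.X L) : e' (up ι w) = e w := by
  refine e.ext_elem fun v => ?_
  rw [Pool.Agent.TH117.BL.repr_eq jO e h1 h0, Pool.Agent.TH117.BL.repr_eq jO e h1 h0]
  by_cases hv : v = w
  · subst hv
    rw [h1, ← co_up hO, h1']
  · rw [h0 _ _ hv, ← co_up hO, h0' _ _ fun h => hv (up_injective h)]

/-- Descent of positivity. -/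
theorem IsPos.desc (hC : IsCycleSystem Ω C) (hj : j'.comp ι = j) (hO : jO'.comp ι = jO)
    {Y : RedAV p ν} (hB : Big Y.X j) {κ : Type} [Fintype κ] [DecidableEq κ] {I : κ → Wt Y.X L}
    (hI : Function.Injective I) (h : IsPos jO' C j' Y (fun k => up ι (I k))) :
    IsPos jO C j Y I := by
  have hB' : Big Y.X j' := Big.up hj hB
  obtain ⟨e, h1, h0⟩ := Pool.Agent.W67.TA.basis p ν Ω L j jO Y hB
  obtain ⟨e', h1', h0'⟩ := Pool.Agent.W67.TA.basis p ν Ω L' j' jO' Y hB'
  have he := e_up hO (up_surjective hj hB) e h1 h0 e' h1' h0'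
  have hI' : Function.Injective fun k => up ι (I k) := fun k k' hk => hI (up_injective hk)
  obtain ⟨c, c', μ', hL, hcc, hpos⟩ := h
  have hcc0 : c * c' ≠ 0 := by
    rw [hcc]
    refine (map_ne_zero jO').2 fun h => ?_
    have h2 := hpos.1
    rw [h, map_zero, zero_mul] at h2
    exact h2 rfl
  obtain ⟨z, hz, hz1, hz2⟩ := exists_both e' h1' h0' hC j' hB' hI' hL hcc0
  obtain ⟨μ, h2, h3⟩ := IsPos.line hC hB' hI' ⟨c, c', μ', hL, hcc, hpos⟩
    (Ln_coef hC j' hB' e' h1' h0' hz hI') hz1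
  have e1 : (fun k => e' (up ι (I k))) = fun k => e (I k) := funext fun k => he _
  have e2 : (fun k => e' (bar (up ι (I k)))) = fun k => e (bar (I k)) :=
    funext fun k => by rw [bar_up hj, he]
  have hl := Ln_coef hC j hB e h1 h0 hz hI
  obtain ⟨l, h4, -⟩ := two_lines hC j hB hI hl hl
  rw [e1, e2] at h2
  have h5 : μ = ι l := by
    apply jO'.injective
    rw [← h2, h4, ← hO]
    rfl
  refine ⟨_, _, l, hl, h4, ?_⟩
  rw [h5] at h3
  have h6 : j' (ι l) = j l := RingHom.congr_fun hj l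
  rw [h6, Finset.prod_congr rfl fun k _ => sgn_up hj (I k)] at h3
  exact h3

end

/-- A CM type on a CM field. -/
def anyPair (L : Type) [Field L] [NumberField L] [IsCMField L] : CMPair where
  E := L
  Φ := {ψ | (InfinitePlace.mk ψ).embedding = ψ}
  isCMType := by
    intro φ
    have hne : ComplexEmbedding.conjugate φ ≠ φ := Pool.Agent.TH117.BL.conj_ne φ
    change (InfinitePlace.mk φ).embedding = φ ↔
      ¬ (InfinitePlace.mk (ComplexEmbedding.conjugate φ)).embedding = ComplexEmbedding.conjugate φ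
    rw [InfinitePlace.mk_conjugate_eq]
    rcases InfinitePlace.embedding_mk_eq φ with h | h
    · rw [h]
      exact ⟨fun _ h2 => hne h2.symm, fun _ => rfl⟩
    · rw [h]
      exact ⟨fun h2 => absurd h2 hne, fun h2 => absurd rfl h2⟩

/-- Monomials in `Alg` are positive. -/
theorem pos_of_alg [IsAlgClosed Ω] (hC : IsCycleSystem Ω C) {L : Type} [Field L] [NumberField L]
    [IsCMField L] [IsGalois ℚ L] (jO : L →+* Ω) (j : L →+* ℂ) {Y : RedAV p ν} (hB : Big Y.X j)
    {κ : Type} [Fintype κ] [DecidableEq κ] {I : κ → Wt Y.X L} (hI : Function.Injective I)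
    (hA : Alg Ω Y κ (monoO jO I)) : IsPos jO C j Y I := by
  classical
  obtain ⟨T, hT⟩ := alg_SP hC hA
  have hne : Nonempty ((T.prod Y.X).prod (single (anyPair L))).I := ⟨Sum.inr ()⟩
  obtain ⟨L', _, _, _, _, j', hj'⟩ := exists_cm ((T.prod Y.X).prod (single (anyPair L)))
  have hTj : Big T j' := fun i ψ => hj' (Sum.inl (Sum.inl i)) ψ
  obtain ⟨ι, hι⟩ : ∃ ι : L →+* L', j'.comp ι = j := hj' (Sum.inr ()) j
  obtain ⟨jO', hO⟩ : ∃ jO' : L' →+* Ω, jO'.comp ι = jO := by
    letI : Algebra L L' := ι.toAlgebra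
    letI : Algebra L Ω := jO.toAlgebra
    have : IsScalarTower ℚ L L' := IsScalarTower.of_algebraMap_eq fun x => by
      change algebraMap ℚ L' x = ι (algebraMap ℚ L x)
      simp
    have : Algebra.IsAlgebraic L L' := Algebra.IsAlgebraic.tower_top (K := ℚ) L
    let f : L' →ₐ[L] Ω := IsAlgClosed.lift
    exact ⟨(f : L' →+* Ω), RingHom.ext fun x => f.commutes x⟩
  have hB' : Big Y.X j' := Big.up hι hB
  obtain ⟨e', h1', h0'⟩ := Pool.Agent.W67.TA.basis p ν Ω L' j' jO' Y hB'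
  have hI' : Function.Injective fun k => up ι (I k) := fun k k' hk => hI (up_injective hk)
  have hS : monoO jO I ∈ SP jO' C j' Y κ := hT L' j' jO' hTj hB'
  have hx : (monoO jO I fun k => e' (up ι (I k))) ≠ 0 := by
    rw [← monoO_up hO, monoO_self e' h1' h0' hI']
    exact one_ne_zero
  obtain ⟨_, ⟨J, hJ, rfl⟩, hg⟩ := exists_of_span hS hx
  obtain ⟨σ, hσ⟩ := exists_of_mono hg
  have h2 : ∀ k, J k = up ι (I (σ k)) := by
    intro k
    by_contra hne
    exact hσ k (h0' _ _ hne)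
  have h3 : IsPos jO' C j' Y (fun k => up ι (I k)) := IsPos.reindex hC σ (fun k => (h2 k).symm) hJ
  exact IsPos.desc hC hι hO hB hI h3

end

end Pool.Agent.N202.QR
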