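import Pool.Agent.TH117.PO.Defs
import Pool.Agent.TH117.BL.Defs

/-!
# Compatible systems of classes of cycles, and relations between the Frobenius eigenvalues:
definitions
-/

set_option autoImplicit false

namespace Pool.Agent.N202.QR

open NumberField Pool.Agent.H204R3.CM Pool.Agent.W547.KB Pool.Agent.W547.LD Pool.Agent.W547.HR
  Pool.Agent.W495.TA Module Pool.Agent.TH117.PO Pool.Agent.TH117.BL
open scoped TensorProduct

instance (priority := 2000) primesFact (l : Nat.Primes) : Fact (l : ℕ).Prime := ⟨l.2⟩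

noncomputable section

variable {p : ℕ} [Fact p.Prime] {ν : PadicAlgCl p ≃+* ℂ} {T : Type} {Ω : T → Type}
  [∀ i, Field (Ω i)] [∀ i, CharZero (Ω i)]

/-- Families of cohomology classes of `Y` with coefficients in the fields `Ω i`. -/
abbrev FCl (Ω : T → Type) [∀ i, Field (Ω i)] [∀ i, CharZero (Ω i)] (Y : RedAV p ν) (κ : Type) :
    Type := ∀ i, (TM (Ω i) Y) [⋀^κ]→ₗ[Ω i] Ω i

/-- First properties of a set of families of classes: the class of degree zero and cup products (up
to a factor). -/
structure IsFamCup (Ω : T → Type) [∀ i, Field (Ω i)] [∀ i, CharZero (Ω i)]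
    (C : (Y : RedAV p ν) → (κ : Type) → FCl Ω Y κ → Prop) : Prop where
  /-- renaming of the variables -/
  reindex : ∀ {Y} {κ κ' : Type} (e : κ ≃ κ') (f), C Y κ f → C Y κ' fun i => (f i).domDomCongr e
  unit : ∀ {Y} {κ : Type} [IsEmpty κ] (f : FCl Ω Y κ), (∀ i v, f i v = 1) → C Y κ f
  cup : ∀ {Y} {κ κ' : Type} [Fintype κ] [DecidableEq κ] [Fintype κ'] [DecidableEq κ']
    (f : FCl Ω Y κ) (g : FCl Ω Y κ'), C Y κ f → C Y κ' g →
    ∀ h : FCl Ω Y (κ ⊕ κ'), (∀ i v, h i v = altSum (times (f i) (g i)) v) → C Y (κ ⊕ κ') h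

/-- Further properties of a set of families of classes: pull-backs along homomorphisms of the
liftings, rational degrees (independent of the coefficient field), and the rational Hodge classes
of degree two of the lifting. -/
structure IsFam (Ω : T → Type) [∀ i, Field (Ω i)] [∀ i, CharZero (Ω i)]
    (C : (Y : RedAV p ν) → (κ : Type) → FCl Ω Y κ → Prop) : Prop extends IsFamCup Ω C where
  pull : ∀ {Y Z : RedAV p ν} {κ : Type} (h : Y.X.H1 →ₗ[ℚ] Z.X.H1), IsHom Y.X Z.X h →
    ∀ f, C Z κ f → C Y κ fun i => (f i).compLinearMap (h.baseChange (Ω i))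
  top : ∀ {Y κ} (f), Nat.card κ = finrank ℚ Y.X.H1 → C Y κ f → ∀ v, ∃ a : ℚ, ∀ i, res (f i) v = a
  hodge : ∀ {Y} (f : Y.X.H1 [⋀^Fin 2]→ₗ[ℚ] ℚ), IsHodge Y.X.per f →
    ∀ g : FCl Ω Y (Fin 2), (∀ i v, res (g i) v = (f v : Ω i)) → C Y (Fin 2) g

/-- The classes at one prime number of the members of a set of families. -/
def atPrime {Ω : Nat.Primes → Type} [∀ l, Field (Ω l)] [∀ l, CharZero (Ω l)]
    (C : (Y : RedAV p ν) → (κ : Type) → FCl Ω Y κ → Prop) (l : Nat.Primes) (Y : RedAV p ν)
    (κ : Type) (f : (TM (Ω l) Y) [⋀^κ]→ₗ[Ω l] Ω l) : Prop :=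
  ∃ z, C Y κ z ∧ z l = f

/-- A compatible system: a set `C` of families `(z l)` of cohomology classes, indexed by the prime
numbers `l`, which has the formal properties of the set of the families of the classes of algebraic
cycles; for each `l` the members are a cycle system (`IsCycleSystem`); and the intersection number
of a member and of a rational Hodge class of the lifting, of complementary degrees, is an element of
the field of `l`-adic numbers, for each `l`. -/
structure IsCompatible (Ω : Nat.Primes → Type) [∀ l, Field (Ω l)] [∀ l, CharZero (Ω l)]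
    [∀ l : Nat.Primes, Algebra ℚ_[(l : ℕ)] (Ω l)]
    (C : (Y : RedAV p ν) → (κ : Type) → FCl Ω Y κ → Prop) : Prop extends IsFam Ω C where
  cycle : ∀ l, IsCycleSystem (Ω l) (atPrime C l)
  mixed : ∀ {Y : RedAV p ν} {κ κ' : Type} [Fintype κ] [DecidableEq κ] [Fintype κ']
    [DecidableEq κ'] (z : FCl Ω Y κ) (h : Y.X.H1 [⋀^κ']→ₗ[ℚ] ℚ), C Y κ z → IsHodge Y.X.per h →
    Fintype.card κ + Fintype.card κ' = finrank ℚ Y.X.H1 → ∀ (l : Nat.Primes) (v : κ ⊕ κ' → Y.X.H1),
      ∃ a : ℚ_[(l : ℕ)], altSum (times (res (z l)) fun u => ((h u : ℚ) : Ω l)) v =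
        algebraMap ℚ_[(l : ℕ)] (Ω l) a

/-- The standard conjecture of Hodge type, modulo numerical equivalence, for `Y` and all the
polarizations which are compatible with the complex multiplications of the lifting: for all
primitive classes `z` of codimension `r` in the system `C` which are not numerically equivalent to
zero, `(-1) ^ r * deg (z ∪ z ∪ E ^ (dim Y - 2 r))` is positive. -/
def HodgeType (Ω : Type) [Field Ω] [CharZero Ω]
    (C : (Y : RedAV p ν) → (κ : Type) → ((TM Ω Y) [⋀^κ]→ₗ[Ω] Ω) → Prop) (Y : RedAV p ν) : Prop :=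
  ∀ α : Y.X.H1, IsPolar Y.X α → ∀ r m : ℕ, 2 * (2 * r + m) = finrank ℚ Y.X.H1 →
    ∀ z : (TM Ω Y) [⋀^Fin r × Fin 2]→ₗ[Ω] Ω, C Y (Fin r × Fin 2) z → ¬ IsNumTrivial Ω C z →
      IsPrim α m z → IsPosClass α m z

/-- The exponents `n w` are invariant under the automorphisms of the field of complex numbers which
fix the field `K` (for the embedding `κ`). -/
def IsInvariant {K : Type} [Field K] (κ : K →+* ℂ) (Z : RedAV p ν) (n : Emb Z → ℕ) : Prop :=
  ∀ σ : ℂ ≃+* ℂ, (∀ x, σ (κ x) = κ x) → ∀ w : Emb Z, n ⟨w.1, (σ : ℂ →+* ℂ).comp w.2⟩ = n w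

/-- The multiplicative relations between the Frobenius eigenvalues are products of relations
between at most two eigenvalues, of relations which are invariant under the automorphisms over `K`,
and of inverses of such relations. -/
def HasQuadraticRelations {K : Type} [Field K] (κ : K →+* ℂ) (Z : RedAV p ν) : Prop :=
  ∀ e : Emb Z → ℕ, IsRel Z e → (fun w => (e w : ℤ)) ∈ AddSubgroup.closure
    {d : Emb Z → ℤ | ∃ n : Emb Z → ℕ, IsRel Z n ∧ (∑ w, n w ≤ 2 ∨ IsInvariant κ Z n) ∧
      ∀ w, d w = n w}

/-- The complex conjugate embedding. -/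
def conjE {Z : RedAV p ν} (w : Emb Z) : Emb Z := ⟨w.1, ComplexEmbedding.conjugate w.2⟩

/-- The difference of the exponents of an eigenvalue and of its complex conjugate. -/
def oddE {Z : RedAV p ν} (e : Emb Z → ℕ) (w : Emb Z) : ℤ := (e w : ℤ) - e (conjE w)

/-- Up to pairs of complex conjugate eigenvalues, the relations between the Frobenius eigenvalues
form a group of rank at most one. -/
def HasRankOneRelations (Z : RedAV p ν) : Prop :=
  ∀ e e' : Emb Z → ℕ, IsRel Z e → IsRel Z e' → ∀ w w',
    oddE e w * oddE e' w' = oddE e w' * oddE e' w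

/-- The lifting of `Z` is one abelian variety with complex multiplication by a CM field of degree
`2 g`. By the theorem of Honda and Tate each simple abelian variety of dimension `g` over an
algebraic closure of a finite field is isogenous to such a `Z`. -/
def HasOneFactor (Z : RedAV p ν) (g : ℕ) : Prop :=
  ∃ i0 : Z.X.I, (∀ i : Z.X.I, i = i0) ∧ finrank ℚ (Z.X.factor i0).E = 2 * g

end

end Pool.Agent.N202.QR
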