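import Mathlib

/-!
# Extension of automorphisms of number fields to the field of complex numbers
-/

set_option autoImplicit false

namespace Pool.Agent.N202.QR

open Cardinal

/-- Two algebraically closed fields of the same uncountable cardinality which contain a countable
field are isomorphic over it. -/
theorem exists_ringEquiv {R K K' : Type} [Field R] [Field K] [Field K'] [Algebra R K]
    [Algebra R K'] [IsAlgClosed K] [IsAlgClosed K'] (hR : #R ≤ ℵ₀) (hK : ℵ₀ < #K)
    (hKK : #K = #K') : ∃ e : K ≃+* K', ∀ x, e (algebraMap R K x) = algebraMap R K' x := by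
  obtain ⟨s, hs⟩ := exists_isTranscendenceBasis R K
  obtain ⟨t, ht⟩ := exists_isTranscendenceBasis R K'
  have hK' : ℵ₀ < #K' := hKK ▸ hK
  have h1 : #K = #s := IsAlgClosed.cardinal_eq_cardinal_transcendence_basis_of_aleph0_lt' _ hs hR hK
  have h2 : #K' = #t :=
    IsAlgClosed.cardinal_eq_cardinal_transcendence_basis_of_aleph0_lt' _ ht hR hK'
  obtain ⟨ε⟩ : Nonempty (s ≃ t) := Cardinal.eq.1 (by rw [← h1, ← h2, hKK])
  let := IsAlgClosed.isAlgClosure_of_transcendence_basis _ hs
  let := IsAlgClosed.isAlgClosure_of_transcendence_basis _ ht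
  let f : Algebra.adjoin R (Set.range ((↑) : s → K)) ≃ₐ[R]
      Algebra.adjoin R (Set.range ((↑) : t → K')) :=
    (hs.1.aevalEquiv.symm.trans (MvPolynomial.renameEquiv R ε)).trans ht.1.aevalEquiv
  let e : K ≃+* K' := IsAlgClosure.equivOfEquiv K K' f.toRingEquiv
  refine ⟨e, fun x => ?_⟩
  have h3 : algebraMap R K x = algebraMap (Algebra.adjoin R (Set.range ((↑) : s → K))) K
      (algebraMap R _ x) := rfl
  rw [h3]
  have h4 := IsAlgClosure.equivOfEquiv_algebraMap K K' f.toRingEquiv (algebraMap R _ x)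
  refine h4.trans ?_
  have h5 : f.toRingEquiv (algebraMap R (Algebra.adjoin R (Set.range ((↑) : s → K))) x) =
      algebraMap R (Algebra.adjoin R (Set.range ((↑) : t → K'))) x := f.commutes x
  rw [h5]
  rfl

/-- Automorphisms of a number field extend to the field of complex numbers. -/
theorem exists_extend {L : Type} [Field L] [NumberField L] (j : L →+* ℂ) (σ : L ≃ₐ[ℚ] L) :
    ∃ τ : ℂ ≃+* ℂ, ∀ x, τ (j x) = j (σ x) := by
  have hR : #L ≤ ℵ₀ := by
    have h1 : Algebra.IsAlgebraic ℚ L := inferInstance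
    refine (Algebra.IsAlgebraic.cardinalMk_le_max ℚ L).trans ?_
    simp
  have hK : ℵ₀ < #ℂ := by
    rw [Cardinal.mk_complex]
    exact Cardinal.aleph0_lt_continuum
  obtain ⟨e, he⟩ := @exists_ringEquiv L ℂ ℂ _ _ _ j.toAlgebra
    (j.comp (σ : L →+* L)).toAlgebra _ _ hR hK rfl
  exact ⟨e, he⟩

end Pool.Agent.N202.QR
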