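import Pool.Agent.TH117.PO.Coef
import Pool.Agent.N202.QR.Defs

/-!
# Spans of families of rational classes over a CM field

The twisted span of `Pool.Agent.TH117.PO.Span`, for families of classes with coefficients in
several fields.
-/

set_option autoImplicit false
set_option linter.unusedSectionVars false
set_option linter.unusedVariables false

namespace Pool.Agent.N202.QR

open NumberField Pool.Agent.H204R3.CM Pool.Agent.W547.KB Pool.Agent.W547.LD Pool.Agent.W547.HR
  Pool.Agent.W495.TA Module Pool.Agent.TH117.PO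
open scoped TensorProduct

noncomputable section

variable {p : ℕ} [Fact p.Prime] {ν : PadicAlgCl p ≃+* ℂ} {T : Type} {Ω : T → Type}
  [∀ i, Field (Ω i)] [∀ i, CharZero (Ω i)] {L : Type} [Field L] [NumberField L]

/-- Families of functions, with the action of `L`. -/
@[ext] structure WF (jO : ∀ i, L →+* Ω i) (Y : RedAV p ν) (κ : Type) where
  val : ∀ i, Fn (Ω i) Y κ

namespace WF

variable {jO : ∀ i, L →+* Ω i} {Y : RedAV p ν} {κ : Type}

instance : Zero (WF jO Y κ) := ⟨⟨0⟩⟩
instance : Add (WF jO Y κ) := ⟨fun F G => ⟨fun i => F.val i + G.val i⟩⟩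
instance : Neg (WF jO Y κ) := ⟨fun F => ⟨fun i => -F.val i⟩⟩
instance : SMul L (WF jO Y κ) := ⟨fun l F => ⟨fun i v => jO i l * F.val i v⟩⟩

@[simp] theorem zero_val (i : T) : (0 : WF jO Y κ).val i = 0 := rfl
@[simp] theorem add_val (F G : WF jO Y κ) (i : T) : (F + G).val i = F.val i + G.val i := rfl
@[simp] theorem neg_val (F : WF jO Y κ) (i : T) : (-F).val i = -F.val i := rfl
theorem smul_val (l : L) (F : WF jO Y κ) (i : T) :
    (l • F).val i = fun v => jO i l * F.val i v := rfl

instance : AddCommGroup (WF jO Y κ) where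
  add_assoc F G H := by ext i v; simp [add_assoc]
  zero_add F := by ext i v; simp
  add_zero F := by ext i v; simp
  add_comm F G := by ext i v; simp [add_comm]
  neg_add_cancel F := by ext i v; simp
  nsmul := nsmulRec
  zsmul := zsmulRec

instance : Module L (WF jO Y κ) where
  one_smul F := by ext i v; simp [smul_val]
  mul_smul a b F := by ext i v; simp [smul_val, mul_assoc]
  smul_zero a := by ext i v; simp [smul_val]
  smul_add a F G := by ext i v; simp [smul_val, mul_add]
  add_smul a b F := by ext i v; simp [smul_val, add_mul]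
  zero_smul F := by ext i v; simp [smul_val]

theorem sum_val {J : Type} (s : Finset J) (F : J → WF jO Y κ) (i : T) (v : κ → Y.X.H1) :
    (∑ a ∈ s, F a).val i v = ∑ a ∈ s, (F a).val i v := by
  classical
  induction s using Finset.induction_on with
  | empty => rfl
  | insert a s ha ih => rw [Finset.sum_insert ha, Finset.sum_insert ha, ← ih]; rfl

end WF

variable (C : (Y : RedAV p ν) → (κ : Type) → FCl Ω Y κ → Prop) (jO : ∀ i, L →+* Ω i)

/-- The span. -/
def VF (Y : RedAV p ν) (κ : Type) : Submodule L (WF jO Y κ) :=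
  Submodule.span L {F | ∃ z, C Y κ z ∧ F = ⟨fun i => res (z i)⟩}

variable {C jO}

theorem VF_of {Y : RedAV p ν} {κ : Type} {z : FCl Ω Y κ} (hz : C Y κ z) :
    (⟨fun i => res (z i)⟩ : WF jO Y κ) ∈ VF C jO Y κ :=
  Submodule.subset_span ⟨z, hz, rfl⟩

/-- A family of linear maps. -/
def famMap {Y Z : RedAV p ν} {κ κ' : Type} (Φ : ∀ i, Fn (Ω i) Y κ →ₗ[Ω i] Fn (Ω i) Z κ') :
    WF jO Y κ →ₗ[L] WF jO Z κ' where
  toFun F := ⟨fun i => Φ i (F.val i)⟩
  map_add' F G := by ext i v; simp
  map_smul' l F := by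
    have h1 : ∀ (i : T) (c : Ω i) (G : Fn (Ω i) Y κ), (fun v => c * G v) = c • G :=
      fun i c G => rfl
    ext i v
    simp only [WF.smul_val, h1, map_smul, RingHom.id_apply]
    rfl

theorem VF_map {Y Z : RedAV p ν} {κ κ' : Type} (Φ : ∀ i, Fn (Ω i) Y κ →ₗ[Ω i] Fn (Ω i) Z κ')
    (h : ∀ z, C Y κ z → (⟨fun i => Φ i (res (z i))⟩ : WF jO Z κ') ∈ VF C jO Z κ') {F : WF jO Y κ}
    (hF : F ∈ VF C jO Y κ) : (⟨fun i => Φ i (F.val i)⟩ : WF jO Z κ') ∈ VF C jO Z κ' := by
  have h1 : VF C jO Y κ ≤ (VF C jO Z κ').comap (famMap Φ) := by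
    refine Submodule.span_le.2 ?_
    rintro _ ⟨z, hz, rfl⟩
    exact h z hz
  exact h1 hF

section closure

variable (hC : IsFam Ω C)
include hC

theorem VF_unit {Y : RedAV p ν} {κ : Type} [IsEmpty κ] :
    (⟨fun _ _ => 1⟩ : WF jO Y κ) ∈ VF C jO Y κ :=
  VF_of (z := fun i => AlternatingMap.constOfIsEmpty (Ω i) _ _ 1) (hC.unit _ fun i v => rfl)

theorem VF_reindex {Y : RedAV p ν} {κ κ' : Type} (e : κ ≃ κ') {F : WF jO Y κ}
    (hF : F ∈ VF C jO Y κ) :
    (⟨fun i v => F.val i fun k => v (e k)⟩ : WF jO Y κ') ∈ VF C jO Y κ' := by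
  let Φ : ∀ i, Fn (Ω i) Y κ →ₗ[Ω i] Fn (Ω i) Y κ' := fun i =>
    { toFun := fun F v => F fun k => v (e k), map_add' := fun _ _ => rfl,
      map_smul' := fun _ _ => rfl }
  exact VF_map Φ (fun z hz => VF_of (z := fun i => (z i).domDomCongr e) (hC.reindex e z hz)) hF

theorem VF_pull {Y Z : RedAV p ν} {κ : Type} {h : Y.X.H1 →ₗ[ℚ] Z.X.H1} (hh : IsHom Y.X Z.X h)
    {F : WF jO Z κ} (hF : F ∈ VF C jO Z κ) :
    (⟨fun i v => F.val i fun k => h (v k)⟩ : WF jO Y κ) ∈ VF C jO Y κ := by
  let Φ : ∀ i, Fn (Ω i) Z κ →ₗ[Ω i] Fn (Ω i) Y κ := fun i =>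
    { toFun := fun F v => F fun k => h (v k), map_add' := fun _ _ => rfl,
      map_smul' := fun _ _ => rfl }
  refine VF_map Φ (fun z hz => ?_) hF
  have h1 := VF_of (jO := jO) (hC.pull h hh z hz)
  have h2 : ∀ i, res ((z i).compLinearMap (h.baseChange (Ω i))) = Φ i (res (z i)) :=
    fun i => funext fun v => res_pull h (z i) v
  simp only [h2] at h1
  exact h1

theorem VF_cup {Y : RedAV p ν} {κ κ' : Type} [Fintype κ] [DecidableEq κ] [Fintype κ']
    [DecidableEq κ'] {F : WF jO Y κ} {G : WF jO Y κ'} (hF : F ∈ VF C jO Y κ)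
    (hG : G ∈ VF C jO Y κ') :
    (⟨fun i => cupF (F.val i) (G.val i)⟩ : WF jO Y (κ ⊕ κ')) ∈ VF C jO Y (κ ⊕ κ') := by
  have hR : ∀ w : FCl Ω Y κ', C Y κ' w →
      (⟨fun i => cupF (F.val i) (res (w i))⟩ : WF jO Y (κ ⊕ κ')) ∈ VF C jO Y (κ ⊕ κ') := by
    intro w hw
    let Φ : ∀ i, Fn (Ω i) Y κ →ₗ[Ω i] Fn (Ω i) Y (κ ⊕ κ') := fun i =>
      { toFun := fun F => cupF F (res (w i))
        map_add' := fun F G => by
          funext v
          simp only [cupF, altSum, times, Pi.add_apply, add_mul, mul_add, Finset.sum_add_distrib]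
        map_smul' := fun c F => by
          funext v
          simp only [cupF, altSum, times, Pi.smul_apply, smul_eq_mul, Finset.mul_sum,
            RingHom.id_apply]
          exact Finset.sum_congr rfl fun σ _ => by ring }
    refine VF_map Φ (fun z hz => ?_) hF
    have h1 := VF_of (jO := jO) (hC.cup z w hz hw (fun i => cupO (z i) (w i))
      fun i v => cupO_apply (z i) (w i) v)
    simp only [res_cupO] at h1
    exact h1
  let Ψ : ∀ i, Fn (Ω i) Y κ' →ₗ[Ω i] Fn (Ω i) Y (κ ⊕ κ') := fun i =>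
    { toFun := fun G => cupF (F.val i) G
      map_add' := fun G G' => by
        funext v
        simp only [cupF, altSum, times, Pi.add_apply, mul_add, Finset.sum_add_distrib]
      map_smul' := fun c G => by
        funext v
        simp only [cupF, altSum, times, Pi.smul_apply, smul_eq_mul, Finset.mul_sum,
          RingHom.id_apply]
        exact Finset.sum_congr rfl fun σ _ => by ring }
  exact VF_map Ψ hR hG

/-- Top degree. -/
theorem VF_top {Y : RedAV p ν} {κ : Type} (hκ : Nat.card κ = finrank ℚ Y.X.H1) {F : WF jO Y κ}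
    (hF : F ∈ VF C jO Y κ) (v : κ → Y.X.H1) : ∃ l : L, ∀ i, F.val i v = jO i l := by
  unfold VF at hF
  induction hF using Submodule.span_induction with
  | mem F hF =>
    obtain ⟨z, hz, rfl⟩ := hF
    obtain ⟨a, ha⟩ := hC.top z hκ hz v
    exact ⟨(a : L), fun i => by rw [map_ratCast]; exact ha i⟩
  | zero => exact ⟨0, fun i => by simp⟩
  | add F G _ _ hF hG =>
    obtain ⟨l, h1⟩ := hF
    obtain ⟨m, h3⟩ := hG
    exact ⟨l + m, fun i => by rw [map_add, ← h1, ← h3]; rfl⟩
  | smul c F _ hF =>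
    obtain ⟨l, h1⟩ := hF
    exact ⟨c * l, fun i => by rw [map_mul, ← h1]; rfl⟩

end closure

/-! ### Lines -/

variable (jO) in
/-- Multiplication of a function with values in `L` by a family of constants. -/
def semiF (Y : RedAV p ν) (κ : Type) (c : ∀ i, Ω i) : ((κ → Y.X.H1) → L) →ₗ[L] WF jO Y κ where
  toFun f := ⟨fun i v => c i * jO i (f v)⟩
  map_add' f g := by
    ext i v
    simp only [WF.add_val, Pi.add_apply, map_add, mul_add]
  map_smul' l f := by
    ext i v
    simp only [WF.smul_val, Pi.smul_apply, smul_eq_mul, map_mul, RingHom.id_apply]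
    ring

variable (jO C) in
/-- The monomial of `I` with the coefficients `c`. -/
def LnF (Y : RedAV p ν) {κ : Type} [Fintype κ] [DecidableEq κ] (I : κ → Wt Y.X L) (c : ∀ i, Ω i) :
    Prop :=
  semiF jO Y κ c (mono I) ∈ VF C jO Y κ

section

variable {Y : RedAV p ν} {κ κ' : Type} [Fintype κ] [DecidableEq κ] [Fintype κ'] [DecidableEq κ']

variable (hC : IsFam Ω C)
include hC

theorem LnF_empty [IsEmpty κ] (I : κ → Wt Y.X L) : LnF C jO Y I fun _ => 1 := by
  have h1 := VF_unit (jO := jO) hC (Y := Y) (κ := κ)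
  have h3 : ∀ v, mono I v = 1 := by
    intro v
    rw [mono_eq_det, Matrix.det_isEmpty]
  have h2 : (⟨fun _ _ => 1⟩ : WF jO Y κ) = semiF jO Y κ (fun _ => 1) (mono I) := by
    ext i v
    change (1 : Ω i) = 1 * jO i (mono I v)
    rw [h3, map_one, one_mul]
  rw [h2] at h1
  exact h1

/-- Cup products. -/
theorem LnF.cup {I : κ → Wt Y.X L} {I' : κ' → Wt Y.X L} {c d : ∀ i, Ω i}
    (h : LnF C jO Y I c) (h' : LnF C jO Y I' d) :
    LnF C jO Y (Sum.elim I I') fun i => c i * d i := by
  have h1 := VF_cup hC h h'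
  set N : L := (Fintype.card (Equiv.Perm κ) : L) * (Fintype.card (Equiv.Perm κ') : L) with hN
  have hN0 : N ≠ 0 := mul_ne_zero (Nat.cast_ne_zero.2 Fintype.card_ne_zero)
    (Nat.cast_ne_zero.2 Fintype.card_ne_zero)
  have h2 : (⟨fun i => cupF ((semiF jO Y κ c (mono I)).val i) ((semiF jO Y κ' d (mono I')).val i)⟩ :
      WF jO Y (κ ⊕ κ')) = N • semiF jO Y (κ ⊕ κ') (fun i => c i * d i) (mono (Sum.elim I I')) := by
    ext i v
    change cupF (fun v => c i * jO i (mono I v)) (fun v => d i * jO i (mono I' v)) v =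
      jO i N * (c i * d i * jO i (mono (Sum.elim I I') v))
    have h3 := congrFun (mono_cup I I') v
    rw [Pi.smul_apply, smul_eq_mul] at h3
    have h4 := congrArg (jO i) h3
    rw [map_mul] at h4
    unfold cupF altSum times
    unfold cupFun at h4
    rw [map_sum] at h4
    have h5 : jO i N * (c i * d i * jO i (mono (Sum.elim I I') v)) =
        c i * d i * (jO i N * jO i (mono (Sum.elim I I') v)) := by ring
    rw [h5, hN, ← h4, Finset.mul_sum]
    refine Finset.sum_congr rfl fun σ _ => ?_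
    rw [map_mul, map_mul, map_intCast]
    ring
  rw [h2] at h1
  have h3 := Submodule.smul_mem _ N⁻¹ h1
  rwa [smul_smul, inv_mul_cancel₀ hN0, one_smul] at h3

theorem LnF.reindex (e : κ ≃ κ') {I : κ → Wt Y.X L} {I' : κ' → Wt Y.X L} (hI : ∀ k, I' (e k) = I k)
    {c : ∀ i, Ω i} (h : LnF C jO Y I c) : LnF C jO Y I' c := by
  have h1 := VF_reindex hC e h
  have h2 : (⟨fun i v => (semiF jO Y κ c (mono I)).val i fun k => v (e k)⟩ : WF jO Y κ') =
      semiF jO Y κ' c (mono I') := by
    ext i v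
    change c i * jO i (mono I fun k => v (e k)) = c i * jO i (mono I' v)
    have h3 := congrFun (mono_reindex e I) v
    rw [h3]
    congr 3
    funext k
    rw [← hI, e.apply_symm_apply]
  rw [h2] at h1
  exact h1

/-- Top degree. -/
theorem LnF.top [IsGalois ℚ L] [IsCMField L] (j : L →+* ℂ) (hB : Big Y.X j) {I : κ → Wt Y.X L}
    (hI : Function.Bijective I) {c : ∀ i, Ω i} (h : LnF C jO Y I c) [Nonempty T] :
    ∃ l : L, ∀ i, c i = jO i l := by
  have hcard : Nat.card κ = finrank ℚ Y.X.H1 := by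
    rw [Nat.card_eq_of_bijective I hI, Pool.Agent.W67.TA.card_wt j hB]
  let b0 := Module.finBasis ℚ Y.X.H1
  let e : Fin (finrank ℚ Y.X.H1) ≃ κ := (Finite.equivFinOfCardEq hcard).symm
  let b : Basis κ ℚ Y.X.H1 := b0.reindex e
  obtain ⟨i0⟩ : Nonempty T := inferInstance
  have hd := mono_ne_zero (jO i0) j hB hI b
  obtain ⟨l, h1⟩ := VF_top hC hcard h b
  refine ⟨l / mono I b, fun i => ?_⟩
  have h3 : c i * jO i (mono I b) = jO i l := h1 i
  have h5 : jO i (mono I b) ≠ 0 := (map_ne_zero (jO i)).2 hd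
  rw [map_div₀, ← h3, mul_div_assoc, div_self h5, mul_one]

end

end

end Pool.Agent.N202.QR
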