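import Pool.Agent.N202.QR.Fam

/-!
# Families of lines: pairs, two lines with conjugate monomials, coefficients of classes
-/

set_option autoImplicit false
set_option linter.unusedSectionVars false
set_option linter.unusedVariables false

namespace Pool.Agent.N202.QR

open NumberField Pool.Agent.H204R3.CM Pool.Agent.W547.KB Pool.Agent.W547.LD Pool.Agent.W547.HR
  Pool.Agent.W495.TA Module Pool.Agent.TH117.PO Pool.Agent.W976.TA
open scoped TensorProduct

noncomputable section

variable {p : ℕ} [Fact p.Prime] {ν : PadicAlgCl p ≃+* ℂ} {T : Type} {Ω : T → Type}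
  [∀ i, Field (Ω i)] [∀ i, CharZero (Ω i)] {L : Type} [Field L] [NumberField L] [IsCMField L]
  [IsGalois ℚ L] {C : (Y : RedAV p ν) → (κ : Type) → FCl Ω Y κ → Prop} {jO : ∀ i, L →+* Ω i}
  (hC : IsFam Ω C)

include hC

/-- Transfer between weights with the same types. -/
theorem LnF.types (j : L →+* ℂ) {Y Z : RedAV p ν} {κ : Type} [Fintype κ] [DecidableEq κ]
    {I : κ → Wt Y.X L} {J : κ → Wt Z.X L}
    (hJ : Function.Injective J) (hI : ∀ k, St j (I k) = St j (J k)) {c : ∀ i, Ω i}
    (h : LnF C jO Z J c) : LnF C jO Y I c :=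
  mono_mem_of_pull j I J hJ hI ((VF C jO Y κ).comap (semiF jO Y κ c)) fun _ hg => VF_pull hC hg h

/-- Pairs of conjugate types. -/
theorem LnF_hodge {Y : RedAV p ν} (j : L →+* ℂ) {I : Fin 2 → Wt Y.X L}
    (hI : St j (I 1) = St j (bar (I 0))) : LnF C jO Y I fun _ => 1 := by
  classical
  have hbal : Balanced (fun k => St j (I k)) := by
    intro σ
    rw [Fin.sum_univ_two]
    change (if σ ∈ St j (I 0) then (1 : ℤ) else -1) + (if σ ∈ St j (I 1) then (1 : ℤ) else -1) = 0
    rw [hI]
    have h1 : σ ∈ St j (bar (I 0)) ↔ σ ∉ St j (I 0) := by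
      change j.comp (σ • (cc L • (I 0).2)) ∈ (Y.X.factor (I 0).1).Φ ↔
        ¬ (j.comp (σ • (I 0).2) ∈ (Y.X.factor (I 0).1).Φ)
      have h2 : σ • (cc L • (I 0).2) = cc L • (σ • (I 0).2) := by
        rw [← mul_smul, ← mul_smul, cc_comm j]
      rw [h2, comp_conj]
      have h3 := (Y.X.factor (I 0).1).isCMType (j.comp (σ • (I 0).2))
      constructor
      · intro h4 h5
        exact (h3.1 h5) h4
      · intro h4
        by_contra h5
        exact h4 (h3.2 h5)
    by_cases h2 : σ ∈ St j (I 0)
    · rw [if_pos h2, if_neg fun h => (h1.1 h) h2]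
      norm_num
    · rw [if_neg h2, if_pos (h1.2 h2)]
      norm_num
  obtain ⟨n, a, b, hab⟩ := exists_dual L
  have hr : ∀ (α : L) (i : T) (v : Fin 2 → Y.X.H1),
      res (Pool.Agent.W417.TA.trO (jO i) α I) v = ((trForm α I v : ℚ) : Ω i) :=
    fun α i v => Pool.Agent.W417.TA.trO_tmul (jO i) α I v
  have h1 : semiF jO Y (Fin 2) (fun _ => 1) (mono I) =
      ∑ t, b t • (⟨fun i => res (Pool.Agent.W417.TA.trO (jO i) (a t) I)⟩ : WF jO Y (Fin 2)) := by
    ext i v
    rw [WF.sum_val]
    change (1 : Ω i) * jO i (mono I v) = _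
    rw [one_mul]
    conv_lhs => rw [hab (mono I v)]
    rw [map_sum]
    refine Finset.sum_congr rfl fun t _ => ?_
    rw [map_mul, map_ratCast, WF.smul_val]
    change _ = jO i (b t) * res (Pool.Agent.W417.TA.trO (jO i) (a t) I) v
    rw [hr]
    rfl
  unfold LnF
  rw [h1]
  exact Submodule.sum_mem _ fun t _ => Submodule.smul_mem _ _
    (VF_of (hC.hodge (trForm (a t) I) (isHodge_trForm j I hbal _) _ fun i v => hr (a t) i v))

/-- Products of lines of degree two. -/
theorem LnF_pairs {Y : RedAV p ν} (n : ℕ) (K : Fin n × Fin 2 → Wt Y.X L) (c : Fin n → ∀ i, Ω i)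
    (h : ∀ a, LnF C jO Y (fun b => K (a, b)) (c a)) :
    LnF C jO Y K fun i => ∏ a, c a i := by
  induction n with
  | zero =>
    simp only [Finset.univ_eq_empty, Finset.prod_empty]
    exact LnF_empty hC K
  | succ n ih =>
    simp only [Fin.prod_univ_succ]
    have h1 := ih (fun x => K (x.1.succ, x.2)) (fun a => c a.succ) (fun a => h a.succ)
    refine LnF.reindex hC (gE n) ?_ (LnF.cup hC (h 0) h1)
    rintro (k | k)
    · rfl
    · rfl

/-- Products of lines of degree two, indexed by a finite type. -/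
theorem LnF_pairsF {Y : RedAV p ν} {J : Type} [Fintype J] [DecidableEq J]
    (K : J × Fin 2 → Wt Y.X L) (h : ∀ a, LnF C jO Y (fun b => K (a, b)) fun _ => 1) :
    LnF C jO Y K fun _ => 1 := by
  let e := Fintype.equivFin J
  have h1 := LnF_pairs hC (Fintype.card J) (fun x => K (e.symm x.1, x.2)) (fun _ _ => 1)
    (fun i => h _)
  simp only [Finset.prod_const_one] at h1
  exact LnF.reindex hC (Equiv.prodCongr e.symm (Equiv.refl _)) (fun k => rfl) h1

/-- Lines with conjugate monomials. -/
theorem two_linesF [Nonempty T] (j : L →+* ℂ) {Y : RedAV p ν} (hB : Big Y.X j) {κ : Type}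
    [Fintype κ] [DecidableEq κ] {I : κ → Wt Y.X L} (hI : Function.Injective I) {c d : ∀ i, Ω i}
    (h : LnF C jO Y I c) (h' : LnF C jO Y (fun k => bar (I k)) d) :
    ∃ l : L, ∀ i, c i * d i = jO i l := by
  classical
  have : Finite (Wt Y.X L) := Pool.Agent.W67.TA.finite_wt j hB
  let _ : Fintype (Wt Y.X L) := Fintype.ofFinite _
  let P := prodR Y Y
  have hP : Big P.X j := big_prodR hB hB
  have h1 : LnF C jO P (fun k => inlW (I k)) c :=
    LnF.types hC j (Y := P) (I := fun k => inlW (I k)) hI (fun k => rfl) h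
  have h2 : LnF C jO P (fun k => inrW (bar (I k))) d :=
    LnF.types hC j (Y := P) (I := fun k => inrW (bar (I k))) (J := fun k => bar (I k))
      (fun k k' hk => hI (bar_injective hk)) (fun k => rfl) h'
  have h3 : LnF C jO P (restK I) fun _ => 1 :=
    LnF_pairsF (jO := jO) hC (restK I) fun i => LnF_hodge hC j rfl
  have h4 := LnF.cup hC (LnF.cup hC h1 h2) h3
  simp only [mul_one] at h4
  exact LnF.top hC j hP (full_bijective hI) h4

/-- The coefficients of a class. -/
theorem LnF_coef (j : L →+* ℂ) {Y : RedAV p ν} (hB : Big Y.X j)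
    (e : ∀ i, Basis (Wt Y.X L) (Ω i) (TM (Ω i) Y)) (h1 : ∀ i w, co (jO i) w (e i w) = 1)
    (h0 : ∀ i w w', w ≠ w' → co (jO i) w (e i w') = 0) {κ : Type} [Fintype κ] [DecidableEq κ]
    {z : FCl Ω Y κ} (hz : C Y κ z) {I : κ → Wt Y.X L} (hI : Function.Injective I) :
    LnF C jO Y I fun i => z i fun k => e i (I k) := by
  classical
  have : Finite (Wt Y.X L) := Pool.Agent.W67.TA.finite_wt j hB
  let _ : Fintype (Wt Y.X L) := Fintype.ofFinite _
  let G : (κ → Wt Y.X L) → WF jO Y κ := fun I =>
    semiF jO Y κ (fun i => z i fun k => e i (I k)) (mono I)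
  -- the sum over all families
  have hsum : ∀ a : Y.X.H1, ∑ I, chr I a • G I ∈ VF C jO Y κ := by
    intro a
    have h2 := VF_of (jO := jO) (hC.pull (mulA a) (isHom_mulA a) z hz)
    have h3 : ∀ (i : T) (v : κ → Y.X.H1), ((Fintype.card (Equiv.Perm κ) : ℕ) : Ω i) *
        res ((z i).compLinearMap ((mulA a).baseChange (Ω i))) v =
        ∑ I : κ → Wt Y.X L, (z i fun k => e i (I k)) * jO i (chr I a * mono I v) := by
      intro i v
      rw [res_pull]
      have h4 := congrArg (fun f => res f (fun k => mulA a (v k)))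
        (Pool.Agent.TH117.BL.expand_formula (jO i) (e i) (h1 i) (h0 i) (z i))
      have h5 : res (((Fintype.card (Equiv.Perm κ) : ℕ) : Ω i) • z i) (fun k => mulA a (v k)) =
          ((Fintype.card (Equiv.Perm κ) : ℕ) : Ω i) * res (z i) (fun k => mulA a (v k)) := rfl
      rw [← h5]
      refine h4.trans ?_
      unfold res
      rw [Pool.Agent.W351.TA.sum_alt]
      refine Finset.sum_congr rfl fun I _ => ?_
      rw [AlternatingMap.smul_apply, smul_eq_mul, Pool.Agent.W417.TA.monoO_tmul, mono_mulA]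
    have h4 : ∑ I, chr I a • G I = ((Fintype.card (Equiv.Perm κ) : ℕ) : L) •
        (⟨fun i => res ((z i).compLinearMap ((mulA a).baseChange (Ω i)))⟩ : WF jO Y κ) := by
      ext i v
      rw [WF.sum_val, WF.smul_val]
      dsimp only
      rw [map_natCast, h3]
      refine Finset.sum_congr rfl fun I _ => ?_
      change jO i (chr I a) * ((z i fun k => e i (I k)) * jO i (mono I v)) = _
      rw [map_mul]
      ring
    rw [h4]
    exact Submodule.smul_mem _ _ h2
  -- the sums over the families with the same character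
  let S : Finset (Y.X.H1 →* L) := Finset.univ.image fun I : κ → Wt Y.X L => chr I
  have h2 := char_component (C := {ψ // ψ ∈ S}) (fun ψ => ψ.1)
    (fun ψ => ∑ I with chr I = ψ.1, G I) (VF C jO Y κ) (fun a => by
      have h3 : ∑ ψ : {ψ // ψ ∈ S}, ψ.1 a • ∑ I with chr I = ψ.1, G I = ∑ I, chr I a • G I := by
        rw [Finset.sum_coe_sort S fun ψ => ψ a • ∑ I with chr I = ψ, G I]
        rw [← Finset.sum_fiberwise_of_maps_to (t := S) (g := fun I : κ → Wt Y.X L => chr I)
          (fun I _ => Finset.mem_image_of_mem _ (Finset.mem_univ I))]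
        refine Finset.sum_congr rfl fun ψ _ => ?_
        rw [Finset.smul_sum]
        refine Finset.sum_congr rfl fun I hI => ?_
        rw [(Finset.mem_filter.1 hI).2]
      rw [h3]
      exact hsum a)
    ⟨chr I, Finset.mem_image_of_mem _ (Finset.mem_univ I)⟩
    (fun ψ hψ => Or.inl (Subtype.ext hψ))
  dsimp only at h2
  have h3 : ∑ K with chr K = chr I, G K = ((Fintype.card (Equiv.Perm κ) : ℕ) : L) • G I := by
    have h4 : ∑ K with chr K = chr I, G K = ∑ σ : Equiv.Perm κ, G (I ∘ σ) := by
      refine (Finset.sum_bij (fun σ _ => I ∘ (σ : Equiv.Perm κ)) ?_ ?_ ?_ ?_).symm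
      · intro σ _
        refine Finset.mem_filter.2 ⟨Finset.mem_univ _, MonoidHom.ext fun a => ?_⟩
        rw [chr_apply, chr_apply]
        exact Fintype.prod_equiv σ _ _ fun k => rfl
      · intro σ _ τ _ h
        exact Equiv.ext fun k => hI (congrFun h k)
      · intro K hK
        obtain ⟨σ, hσ⟩ := exists_perm hI (Finset.mem_filter.1 hK).2
        exact ⟨σ, Finset.mem_univ _, hσ.symm⟩
      · intro σ _
        rfl
    have h5 : ∀ σ : Equiv.Perm κ, G (I ∘ σ) = G I := by
      intro σ
      ext i v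
      change (z i fun k => e i ((I ∘ σ) k)) * jO i (mono (I ∘ σ) v) =
        (z i fun k => e i (I k)) * jO i (mono I v)
      have hs : ((Equiv.Perm.sign σ : ℤ) : Ω i) * ((Equiv.Perm.sign σ : ℤ) : Ω i) = 1 := by
        rw [← Int.cast_mul, ← Units.val_mul, Int.units_mul_self, Units.val_one, Int.cast_one]
      have e1 : (z i fun k => e i ((I ∘ σ) k)) =
          ((Equiv.Perm.sign σ : ℤ) : Ω i) * z i fun k => e i (I k) := by
        have := (z i).map_perm (fun k => e i (I k)) σ
        rw [Units.smul_def, zsmul_eq_mul] at this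
        exact this
      rw [e1, mono_perm, map_mul, map_intCast]
      linear_combination (z i fun k => e i (I k)) * jO i (mono I v) * hs
    rw [h4, Finset.sum_congr rfl fun σ _ => h5 σ, Finset.sum_const, Finset.card_univ,
      Nat.cast_smul_eq_nsmul]
  rw [h3] at h2
  have h4 : ((Fintype.card (Equiv.Perm κ) : ℕ) : L) ≠ 0 := Nat.cast_ne_zero.2 Fintype.card_ne_zero
  have h5 := Submodule.smul_mem _ (((Fintype.card (Equiv.Perm κ) : ℕ) : L))⁻¹ h2
  rwa [smul_smul, inv_mul_cancel₀ h4, one_smul] at h5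

end

end Pool.Agent.N202.QR
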