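import Pool.Agent.N202.QR.Prime

/-!
# Relations between the Frobenius eigenvalues of abelian varieties of prime dimension
-/

set_option autoImplicit false
set_option linter.unusedSectionVars false
set_option linter.unusedVariables false

namespace Pool.Agent.N202.QR

open NumberField Pool.Agent.H204R3.CM Pool.Agent.W547.KB Pool.Agent.W547.LD Pool.Agent.W547.HR
  Pool.Agent.W495.TA Module Pool.Agent.TH117.PO Pool.Agent.W976.TA Pool.Agent.W417.TA
  Pool.Agent.TH117.BL Pool.Agent.W495.TC Pool.Agent.W495.TB Pool.Agent.TH117.F5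
open scoped TensorProduct

noncomputable section

variable {p : ℕ} [Fact p.Prime] {ν : PadicAlgCl p ≃+* ℂ}

/-- Elementary relations are quadratic relations. -/
theorem quad_of_elementary {K : Type} [Field K] (κ : K →+* ℂ) {Z : RedAV p ν}
    (h : HasElementaryRelations Z) : HasQuadRelE κ Z := by
  intro e he
  refine AddSubgroup.closure_mono ?_ (h e he)
  rintro d ⟨n, h1, h2, h3⟩
  exact ⟨n, h1, Or.inl h2, h3⟩

/-- One CM field of degree `2 g`, where `g` is an odd prime number. -/
theorem prime_relations {Z : RedAV p ν} (i0 : Z.X.I) (hone : ∀ i : Z.X.I, i = i0) {g : ℕ}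
    (hg : g.Prime) (hg2 : g ≠ 2) (hdeg : finrank ℚ (Z.X.factor i0).E = 2 * g) :
    HasElementaryRelations Z ∨ HasRankOneRelations Z := by
  classical
  have hne : Nonempty (Z.X.prod (single (kp p))).I := ⟨Sum.inr ()⟩
  obtain ⟨L, _, _, _, _, j, hj⟩ := exists_cm (Z.X.prod (single (kp p)))
  have hZ : Big Z.X j := fun i ψ => hj (Sum.inl i) ψ
  have hfin := finite_wt j hZ
  let _ : Fintype (Wt Z.X L) := Fintype.ofFinite _
  have hfin' := finite_emb j (Z.X.factor i0)
  let _ : Fintype ((Z.X.factor i0).E →+* L) := Fintype.ofFinite _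
  have hbij := toEmb_bijective (j := j) hZ
  let A := Z.X.factor i0
  let X := A.E →+* L
  let a : X → Wt Z.X L := fun φ => ⟨i0, φ⟩
  have ha : Function.Bijective a := by
    constructor
    · intro φ φ' h
      exact eq_of_heq (Sigma.mk.inj_iff.1 h).2
    · rintro ⟨i, φ⟩
      obtain rfl := hone i
      exact ⟨φ, rfl⟩
  let E : X ≃ Emb Z := Equiv.ofBijective (fun φ => toEmb j Z (a φ)) (hbij.comp ha)
  have hset := setting j A (L := L)
  have hcard : Fintype.card X = 2 * g := (card_emb (hZ i0)).trans hdeg
  have hTs : ∀ (σ : L ≃ₐ[ℚ] L) (φ : X) h, nn p ν j A (σ • φ) h = nn p ν j A φ (h * σ) :=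
    fun σ φ h => congrFun (nn_smul j A φ σ) h
  have hTo : ∀ (φ : X) h, nn p ν j A (cc L • φ) h = -nn p ν j A φ h := fun φ h =>
    congrFun (nn_cc A φ) h
  have hrel : ∀ e : Emb Z → ℕ, IsRel Z e ↔
      ∀ σ, ∑ φ : X, (e (E φ) : ℤ) * nn p ν j A φ σ = 0 := by
    intro e
    rw [isRel_iff hZ]
    refine forall_congr' fun σ => ?_
    rw [← Equiv.sum_comp (Equiv.ofBijective a ha)]
    rfl
  have hEc : ∀ φ : X, conjE (E φ) = E (cc L • φ) := fun φ => (toEmb_cw (a φ)).symm
  rcases prime_cases hset hg hg2 hcard (nn p ν j A) hTs hTo with hinj | ⟨t, ε, hε, ht⟩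
  · right
    obtain ⟨x0, ε, hε⟩ := prime_orbit hset hg hg2 hcard (nn p ν j A) hTs hTo hinj
    have hodd : ∀ e, IsRel Z e → ∀ φ : X, oddE e (E φ) = ε φ * oddE e (E x0) := by
      intro e he
      refine hε (fun φ => oddE e (E φ)) (fun φ => ?_) fun h => ?_
      · rw [← hEc, oddE_conj]
      · have h1 := (hrel e).1 he h
        have h2 : ∑ φ : X, (e (conjE (E φ)) : ℤ) * nn p ν j A φ h = 0 := by
          rw [← neg_eq_zero, ← Finset.sum_neg_distrib, ← h1]
          refine Fintype.sum_equiv (MulAction.toPerm (cc L)) _ _ fun φ => ?_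
          change -((e (conjE (E φ)) : ℤ) * nn p ν j A φ h) =
            (e (E (cc L • φ)) : ℤ) * nn p ν j A (cc L • φ) h
          rw [hEc, hTo]
          ring
        have h3 : ∑ φ : X, oddE e (E φ) * nn p ν j A φ h =
            ∑ φ : X, (e (E φ) : ℤ) * nn p ν j A φ h -
              ∑ φ : X, (e (conjE (E φ)) : ℤ) * nn p ν j A φ h := by
          rw [← Finset.sum_sub_distrib]
          refine Finset.sum_congr rfl fun φ _ => ?_
          unfold oddE
          ring
        rw [h3, h1, h2, sub_zero]
    intro e e' he he' w w'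
    obtain ⟨φ, rfl⟩ := E.surjective w
    obtain ⟨φ', rfl⟩ := E.surjective w'
    rw [hodd e he φ, hodd e' he' φ', hodd e he φ', hodd e' he' φ]
    ring
  · left
    -- the products of two eigenvalues
    have hpair : ∀ (n : Emb Z → ℕ), IsRel Z n → ∑ w, n w ≤ 2 → (fun w => (n w : ℤ)) ∈
        AddSubgroup.closure {d : Emb Z → ℤ | ∃ n : Emb Z → ℕ, IsRel Z n ∧ IsElementary Z n ∧
          ∀ w, d w = n w} := fun n h1 h2 =>
      AddSubgroup.subset_closure ⟨n, h1, Or.inl h2, fun w => rfl⟩
    by_cases ht0 : ∀ h, t h = 0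
    · -- supersingular
      intro e he
      let n : X → Emb Z → ℕ := fun φ w => if w = E φ then 1 else 0
      have h1 : (fun w => (e w : ℤ)) = ∑ φ : X, e (E φ) • fun w => ((n φ w : ℕ) : ℤ) := by
        funext w
        obtain ⟨φ, rfl⟩ := E.surjective w
        rw [Finset.sum_apply, Finset.sum_eq_single φ]
        · simp [n]
        · intro φ' _ hne
          have h2 : E φ ≠ E φ' := fun h => hne (E.injective h).symm
          simp [n, h2]
        · intro h
          exact absurd (Finset.mem_univ _) h
      rw [h1]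
      refine AddSubgroup.sum_mem _ fun φ _ => AddSubgroup.nsmul_mem _ (hpair (n φ) ?_ ?_) _
      · rw [hrel]
        intro σ
        refine Finset.sum_eq_zero fun φ' _ => ?_
        rw [ht, ht0, mul_zero, mul_zero]
      · change ∑ w, (if w = E φ then 1 else 0) ≤ 2
        rw [Finset.sum_ite_eq' Finset.univ (E φ) fun _ => 1, if_pos (Finset.mem_univ _)]
        norm_num
    · push Not at ht0
      obtain ⟨h0, ht0⟩ := ht0
      have hεc : ∀ φ : X, ε (cc L • φ) = -ε φ := by
        intro φ
        have h1 := hTo φ h0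
        rw [ht, ht] at h1
        have h2 : (ε (cc L • φ) + ε φ) * t h0 = 0 := by linarith
        rcases mul_eq_zero.1 h2 with h3 | h3
        · omega
        · exact absurd h3 ht0
      have hX : Nonempty X := by
        rw [← Fintype.card_pos_iff, hcard]
        have := hg.pos
        omega
      obtain ⟨x1, hx1⟩ : ∃ x : X, ε x = 1 := by
        obtain ⟨x⟩ := hX
        rcases hε x with h | h
        · exact ⟨x, h⟩
        · exact ⟨cc L • x, by rw [hεc, h]; norm_num⟩
      obtain ⟨x2, hx2⟩ : ∃ x : X, ε x = -1 := ⟨cc L • x1, by rw [hεc, hx1]⟩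
      intro e he
      let n : X → X → Emb Z → ℕ := fun φ φ' w =>
        (if w = E φ then 1 else 0) + if w = E φ' then 1 else 0
      have hn : ∀ φ φ', ε φ + ε φ' = 0 → (fun w => ((n φ φ' w : ℕ) : ℤ)) ∈
        AddSubgroup.closure {d : Emb Z → ℤ | ∃ n : Emb Z → ℕ, IsRel Z n ∧ IsElementary Z n ∧
          ∀ w, d w = n w} := by
        intro φ φ' hφ
        refine hpair (n φ φ') ?_ ?_
        · rw [hrel]
          intro σ
          have e1 : ∀ ψ : X, ((n φ φ' (E ψ) : ℕ) : ℤ) * nn p ν j A ψ σ =
              (if ψ = φ then nn p ν j A ψ σ else 0) + if ψ = φ' then nn p ν j A ψ σ else 0 := by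
            intro ψ
            change (((if E ψ = E φ then 1 else 0) + (if E ψ = E φ' then 1 else 0) : ℕ) : ℤ) * _ = _
            simp only [E.injective.eq_iff]
            split_ifs <;> push_cast <;> ring
          rw [Finset.sum_congr rfl fun ψ _ => e1 ψ, Finset.sum_add_distrib,
            Finset.sum_ite_eq' Finset.univ φ fun ψ => nn p ν j A ψ σ,
            Finset.sum_ite_eq' Finset.univ φ' fun ψ => nn p ν j A ψ σ,
            if_pos (Finset.mem_univ _), if_pos (Finset.mem_univ _), ht, ht, ← add_mul, hφ,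
            zero_mul]
        · change ∑ w, ((if w = E φ then 1 else 0) + if w = E φ' then 1 else 0) ≤ 2
          rw [Finset.sum_add_distrib, Finset.sum_ite_eq' Finset.univ (E φ) fun _ => 1,
            Finset.sum_ite_eq' Finset.univ (E φ') fun _ => 1, if_pos (Finset.mem_univ _),
            if_pos (Finset.mem_univ _)]
      -- the sums over the two halves agree
      have hsum : ∑ φ : X, (if ε φ = 1 then (e (E φ) : ℤ) else 0) =
          ∑ φ : X, if ε φ = -1 then (e (E φ) : ℤ) else 0 := by
        have h1 := (hrel e).1 he h0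
        have h2 : (∑ φ : X, (if ε φ = 1 then (e (E φ) : ℤ) else 0) -
            ∑ φ : X, if ε φ = -1 then (e (E φ) : ℤ) else 0) * t h0 = 0 := by
          refine Eq.trans ?_ h1
          rw [← Finset.sum_sub_distrib, Finset.sum_mul]
          refine Finset.sum_congr rfl fun φ _ => ?_
          rw [ht]
          rcases hε φ with h | h
          · rw [if_pos h, if_neg (by rw [h]; norm_num), h]
            ring
          · rw [if_neg (by rw [h]; norm_num), if_pos h, h]
            ring
        rcases mul_eq_zero.1 h2 with h3 | h3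
        · omega
        · exact absurd h3 ht0
      have h1 : (fun w => (e w : ℤ)) =
          (∑ φ : X, if ε φ = 1 then (e (E φ) : ℤ) • (fun w => ((n φ x2 w : ℕ) : ℤ))
            else (e (E φ) : ℤ) • fun w => ((n x1 φ w : ℕ) : ℤ)) -
          (∑ φ : X, (if ε φ = 1 then (e (E φ) : ℤ) else 0)) • fun w => ((n x1 x2 w : ℕ) : ℤ) := by
        funext w
        obtain ⟨ψ, rfl⟩ := E.surjective w
        rw [Pi.sub_apply, Finset.sum_apply, Pi.smul_apply, smul_eq_mul]
        have e1 : ∀ φ : X, (if ε φ = 1 then (e (E φ) : ℤ) • (fun w => ((n φ x2 w : ℕ) : ℤ))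
            else (e (E φ) : ℤ) • fun w => ((n x1 φ w : ℕ) : ℤ)) (E ψ) =
            (if ψ = φ then (e (E φ) : ℤ) else 0) +
            (if ε φ = 1 then (e (E φ) : ℤ) else 0) * (if ψ = x2 then 1 else 0) +
            (if ε φ = -1 then (e (E φ) : ℤ) else 0) * (if ψ = x1 then 1 else 0) := by
          intro φ
          have e2 : ∀ φ' φ'' : X, ((n φ' φ'' (E ψ) : ℕ) : ℤ) =
              (if ψ = φ' then 1 else 0) + if ψ = φ'' then 1 else 0 := by
            intro φ' φ''
            change (((if E ψ = E φ' then 1 else 0) + (if E ψ = E φ'' then 1 else 0) : ℕ) : ℤ) = _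
            simp only [E.injective.eq_iff]
            push_cast
            rfl
          rcases hε φ with h | h
          · have h' : ¬ ε φ = -1 := by rw [h]; norm_num
            simp only [if_pos h, if_neg h']
            rw [Pi.smul_apply, smul_eq_mul, e2]
            split_ifs <;> ring
          · have h' : ¬ ε φ = 1 := by rw [h]; norm_num
            simp only [if_pos h, if_neg h']
            rw [Pi.smul_apply, smul_eq_mul, e2]
            split_ifs <;> ring
        have e3 : ((n x1 x2 (E ψ) : ℕ) : ℤ) =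
              (if ψ = x1 then 1 else 0) + if ψ = x2 then 1 else 0 := by
          change (((if E ψ = E x1 then 1 else 0) + (if E ψ = E x2 then 1 else 0) : ℕ) : ℤ) = _
          simp only [E.injective.eq_iff]
          push_cast
          rfl
        rw [Finset.sum_congr rfl fun φ _ => e1 φ, Finset.sum_add_distrib, Finset.sum_add_distrib,
          ← Finset.sum_mul, ← Finset.sum_mul, ← hsum, e3,
          Finset.sum_ite_eq Finset.univ ψ fun φ => (e (E φ) : ℤ), if_pos (Finset.mem_univ _)]
        ring
      rw [h1]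
      refine AddSubgroup.sub_mem _ (AddSubgroup.sum_mem _ fun φ _ => ?_)
        (AddSubgroup.zsmul_mem _ (hn x1 x2 (by rw [hx1, hx2]; norm_num)) _)
      split_ifs with h
      · exact AddSubgroup.zsmul_mem _ (hn φ x2 (by rw [h, hx2]; norm_num)) _
      · exact AddSubgroup.zsmul_mem _ (hn x1 φ (by
          rw [(hε φ).resolve_left h, hx1]; norm_num)) _

end

end Pool.Agent.N202.QR
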