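import Pool.Agent.N202.QR.Main
import Pool.Agent.N202.QR.PrimeRel
import Pool.Agent.TH117.PO.Full

/-!
# The standard conjecture of Hodge type for abelian varieties over finite fields with quadratic
relations between the Frobenius eigenvalues
-/

set_option autoImplicit false
set_option linter.unusedSectionVars false
set_option linter.unusedVariables false

namespace Pool.Agent.N202.QR

open NumberField Pool.Agent.H204R3.CM Pool.Agent.W547.KB Pool.Agent.W547.LD Pool.Agent.W547.HR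
  Pool.Agent.W495.TA Module Pool.Agent.TH117.PO Pool.Agent.W976.TA Pool.Agent.W417.TA
  Pool.Agent.TH117.BL Pool.Agent.W495.TC Pool.Agent.W495.TB Pool.Agent.TH117.F5
open scoped TensorProduct

noncomputable section

variable {p : ℕ} [Fact p.Prime] {ν : PadicAlgCl p ≃+* ℂ}

section

variable {Ω : Nat.Primes → Type} [∀ l, Field (Ω l)] [∀ l, CharZero (Ω l)]
  [∀ l : Nat.Primes, Algebra ℚ_[(l : ℕ)] (Ω l)] [∀ l, IsAlgClosed (Ω l)]
  {C : (Y : RedAV p ν) → (κ : Type) → FCl Ω Y κ → Prop}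

theorem hodge_quadE (hC : IsCompatible Ω C) (l0 : Nat.Primes)
    (hR : IsRosatiPositive (Ω l0) (atPrime C l0)) (hT : AreTate (Ω l0) (atPrime C l0)) {K : Type}
    [Field K] [NumberField K] [IsCMField K] (hK : finrank ℚ K = 2) (κ0 : K →+* ℂ)
    {Z Y : RedAV p ν} (hrel : HasQuadRelE κ0 Z)
    (hYZ : IsPowersTimesSupersingular Z Y) : HodgeType (Ω l0) (atPrime C l0) Y :=
  fun _ hα _ _ hrm _ hz hnt hprim => positive_quad hC l0 hR hT hK κ0 hrel hYZ hα hrm hz hnt hprim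

theorem hodge_quad (hC : IsCompatible Ω C) (l0 : Nat.Primes)
    (hR : IsRosatiPositive (Ω l0) (atPrime C l0)) (hT : AreTate (Ω l0) (atPrime C l0)) {K : Type}
    [Field K] [NumberField K] [IsCMField K] (hK : finrank ℚ K = 2) (κ0 : K →+* ℂ)
    {Z Y : RedAV p ν} (hrel : HasQuadraticRelations κ0 Z)
    (hYZ : IsPowersTimesSupersingular Z Y) : HodgeType (Ω l0) (atPrime C l0) Y := by
  refine hodge_quadE hC l0 hR hT hK κ0 (fun e he => ?_) hYZ
  refine AddSubgroup.closure_mono ?_ (hrel e he)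
  rintro d ⟨n, h1, h2, h3⟩
  exact ⟨n, h1, h2.imp_left Or.inl, h3⟩

theorem hodge_rank_one (hC : IsCompatible Ω C) (l0 : Nat.Primes)
    (hR : IsRosatiPositive (Ω l0) (atPrime C l0)) (hT : AreTate (Ω l0) (atPrime C l0))
    {Z Y : RedAV p ν} (hrel : HasRankOneRelations Z)
    (hYZ : IsPowersTimesSupersingular Z Y) : HodgeType (Ω l0) (atPrime C l0) Y := by
  obtain ⟨K, _, _, _, hK, κ, hκ⟩ := quad_of_rank_one hrel
  exact hodge_quadE hC l0 hR hT hK κ hκ hYZ

theorem ne_zero_of_numTriv {Ω : Type} [Field Ω] [CharZero Ω]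
    {C : (Y : RedAV p ν) → (κ : Type) → ((TM Ω Y) [⋀^κ]→ₗ[Ω] Ω) → Prop} {Y : RedAV p ν}
    {κ : Type} [Fintype κ] [DecidableEq κ] {z : (TM Ω Y) [⋀^κ]→ₗ[Ω] Ω}
    (h : ¬ IsNumTrivial Ω C z) : z ≠ 0 := by
  rintro rfl
  refine h fun κ' _ _ y _ _ v => ?_
  unfold altSum
  refine Finset.sum_eq_zero fun σ _ => ?_
  have h1 : times (res (0 : (TM Ω Y) [⋀^κ]→ₗ[Ω] Ω)) (res y) = 0 := by
    funext u
    exact zero_mul _
  rw [h1]
  simp

theorem hodge_prime (hC : IsCompatible Ω C) (l0 : Nat.Primes)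
    (hR : IsRosatiPositive (Ω l0) (atPrime C l0)) (hT : AreTate (Ω l0) (atPrime C l0))
    {Z Y : RedAV p ν} {g : ℕ} (hg : g.Prime) (hZ : HasOneFactor Z g)
    (hYZ : IsPowersTimesSupersingular Z Y) : HodgeType (Ω l0) (atPrime C l0) Y := by
  obtain ⟨i0, hone, hdeg⟩ := hZ
  by_cases hg2 : g = 2
  · intro α hα r m hrm z hz hnt hprim
    refine positive_full (hC.cycle l0) hR hT (Or.inl ⟨Z.X.factor i0, Z.a, Z.π i0, ?_, Z.pos,
      Z.frob i0, ?_⟩) hα hrm hz (ne_zero_of_numTriv hnt) hprim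
    · rw [hdeg, hg2]
      norm_num
    · intro i
      rcases hYZ i with h | ⟨k, ι, s, t, h1, h2, h3, h4⟩
      · exact Or.inl h
      · obtain rfl := hone k
        exact Or.inr ⟨ι, s, t, h1, h2, h3, h4⟩
  · rcases prime_relations i0 hone hg hg2 hdeg with h | h
    · obtain ⟨κ⟩ : Nonempty ((kp p).E →+* ℂ) := inferInstance
      exact hodge_quadE hC l0 hR hT (finrank_kp p) κ (quad_of_elementary κ h) hYZ
    · exact hodge_rank_one hC l0 hR hT h hYZ

end

end

end Pool.Agent.N202.QR
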