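import Pool.Agent.N202.QR.Desc
import Pool.Agent.W177.TB.WeilG
import Pool.Agent.TH117.BL.Main

/-!
# Words stable under the Galois group of an imaginary quadratic field
-/

set_option autoImplicit false
set_option linter.unusedSectionVars false
set_option linter.unusedVariables false

namespace Pool.Agent.N202.QR

open NumberField Pool.Agent.H204R3.CM Pool.Agent.W547.KB Pool.Agent.W547.LD Pool.Agent.W547.HR
  Pool.Agent.W495.TA Module Pool.Agent.TH117.PO Pool.Agent.W976.TA Pool.Agent.W417.TA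
open scoped TensorProduct

noncomputable section

variable {p : ℕ} [Fact p.Prime] {ν : PadicAlgCl p ≃+* ℂ}
  {L : Type} [Field L] [NumberField L] [IsCMField L] [IsGalois ℚ L]

/-- The stabilizer of an element. -/
def stabN (δ : L) : Subgroup (L ≃ₐ[ℚ] L) where
  carrier := {σ | σ δ = δ}
  one_mem' := rfl
  mul_mem' := by
    intro σ τ h1 h2
    change σ (τ δ) = δ
    rw [show τ δ = δ from h2, show σ δ = δ from h1]
  inv_mem' := by
    intro σ h1
    change σ⁻¹ δ = δ
    conv_lhs => rw [← show σ δ = δ from h1]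
    exact σ.symm_apply_apply δ

theorem mem_stabN (δ : L) (σ : L ≃ₐ[ℚ] L) : σ ∈ stabN δ ↔ σ δ = δ := Iff.rfl

theorem isImag_stabN {δ : L} {d : ℚ} (hδ : IsRoot δ d) (j : L →+* ℂ) : IsImag (stabN δ) := by
  have h0 := hδ.ne
  have h2 : -δ ≠ δ := by
    intro h
    have h3 : (2 : L) * δ = 0 := by linear_combination -h
    rcases mul_eq_zero.1 h3 with h4 | h4
    · exact two_ne_zero h4
    · exact h0 h4
  constructor
  · rw [mem_stabN, hδ.cj j]
    exact h2
  · intro τ hτ
    rw [mem_stabN] at hτ ⊢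
    rcases hδ.conj_or τ with h3 | h3
    · exact absurd h3 hτ
    · change cc L (τ δ) = δ
      rw [h3, map_neg, hδ.cj j, neg_neg]

/-- Words with given types. -/
theorem exists_word (ν : PadicAlgCl p ≃+* ℂ) (j : L →+* ℂ) (N : Subgroup (L ≃ₐ[ℚ] L))
    {κ : Type} [Finite κ] (y : κ → Set (L ≃ₐ[ℚ] L)) (hy : ∀ k, IsHalf (y k))
    (hN : ∀ τ ∈ N, ∃ e : κ → κ, Function.Injective e ∧ ∀ k, y (e k) = tr τ (y k)) :
    ∃ (Y' : RedAV p ν) (_ : Big Y'.X j) (J : κ → Wt Y'.X L), Function.Injective J ∧
      (∀ k, St j (J k) = y k) ∧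
      ∀ σ ∈ N, ∃ π : Equiv.Perm κ, ∀ k, sw σ (J k) = J (π k) := by
  classical
  obtain ⟨Q, _, x, f, hxq, hf⟩ := Pool.Agent.W918.TB.orb L N κ y hN
  have hx : ∀ q, IsHalf (x q) := by
    intro q
    obtain ⟨k, hk⟩ := hxq q
    rw [hk]
    exact hy k
  have hex : ∀ q, ∃ (a : ℕ) (π : fld (x q)), 0 < a ∧
      IsFrobenius p ν (pairOf j (x q) (hx q)) a π := fun q =>
    Pool.Agent.W902.TB.honda Pool.Agent.W366.TA.val p ν L j (x q) (hx q)
  choose a π ha hπ using hex
  let Z : RedAV p ν :=
    { X := prodOf j x hx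
      a := ∏ q, a q
      pos := Finset.prod_pos fun q _ => ha q
      π := fun q => (show (pairOf j (x q) (hx q)).E from π q) ^
        (∏ q' ∈ Finset.univ.erase q, a q')
      frob := fun q => by
        have h1 := isFrob_pow (hπ q) (∏ q' ∈ Finset.univ.erase q, a q')
        have h2 : a q * ∏ q' ∈ Finset.univ.erase q, a q' = ∏ q, a q :=
          Finset.mul_prod_erase _ _ (Finset.mem_univ q)
        rw [h2] at h1
        exact h1 }
  let J : κ → Wt Z.X L := fun k => orbWt j N x hx (f k)
  have hJ : Function.Injective J := fun k k' h => f.injective (orbWt_injective j N x hx h)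
  refine ⟨Z, big_prodOf j x hx, J, hJ, fun k => ?_, fun σ hσ => ?_⟩
  · rw [← hf k]
    exact St_orbWt j N x hx (f k)
  · have hex : ∀ k, ∃ k', sw σ (J k) = J k' := by
      intro k
      have h1 := (f k).2.2.choose_spec
      let o' : Orb N x := ⟨(f k).1, ⟨tr σ (f k).2.1, σ * (f k).2.2.choose, N.mul_mem hσ h1.1, by
        rw [← tr_tr, h1.2]⟩⟩
      refine ⟨f.symm o', ?_⟩
      have h2 : J (f.symm o') = orbWt j N x hx o' := by
        change orbWt j N x hx (f (f.symm o')) = _
        rw [f.apply_symm_apply]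
      rw [h2]
      have h3 : sw σ (J k) = wt j x hx (f k).1 (σ * (f k).2.2.choose) := rfl
      rw [h3]
      change wt j x hx (f k).1 (σ * (f k).2.2.choose) = wt j x hx (f k).1 o'.2.2.choose
      rw [wt_eq_iff, o'.2.2.choose_spec.2, ← tr_tr, h1.2]
    choose g hg using hex
    have hgi : Function.Injective g := by
      intro k k' h
      apply hJ
      have h1 : sw σ (J k) = sw σ (J k') := by rw [hg, hg, h]
      exact (swE Z.X σ).symm.injective h1
    exact ⟨Equiv.ofBijective g (Finite.injective_iff_bijective.1 hgi), hg⟩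

end

end Pool.Agent.N202.QR
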