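import Pool.Agent.N202.QR.Pos

/-!
# Positivity of primitive classes on abelian varieties with quadratic relations between the Frobenius
eigenvalues
-/

set_option autoImplicit false
set_option linter.unusedSectionVars false
set_option linter.unusedVariables false

namespace Pool.Agent.N202.QR

open NumberField Pool.Agent.H204R3.CM Pool.Agent.W547.KB Pool.Agent.W547.LD Pool.Agent.W547.HR
  Pool.Agent.W495.TA Module Pool.Agent.TH117.PO Pool.Agent.W976.TA Pool.Agent.W417.TA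
  Pool.Agent.TH117.BL Pool.Agent.W495.TC Pool.Agent.W495.TB Pool.Agent.TH117.F5
open scoped TensorProduct

noncomputable section

variable {p : ℕ} [Fact p.Prime] {ν : PadicAlgCl p ≃+* ℂ}

section

variable {L : Type} [Field L] [NumberField L] [IsCMField L] [IsGalois ℚ L] {j : L →+* ℂ}
  {Ω : Nat.Primes → Type} [∀ l, Field (Ω l)] [∀ l, CharZero (Ω l)]
  [∀ l : Nat.Primes, Algebra ℚ_[(l : ℕ)] (Ω l)] [∀ l, IsAlgClosed (Ω l)]
  {C : (Y : RedAV p ν) → (κ : Type) → FCl Ω Y κ → Prop}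

/-- The signs of the words. -/
theorem word_sign (hC : IsCompatible Ω C) (l0 : Nat.Primes)
    (hR : IsRosatiPositive (Ω l0) (atPrime C l0)) {K : Type} [Field K] [NumberField K]
    [IsCMField K] (hK : finrank ℚ K = 2) {κ0 : K →+* ℂ} {κL : K →+* L} (hκ : j.comp κL = κ0)
    {Z : RedAV p ν} (hZ : Big Z.X j) (hkp : BigA (kp p) j) (hrel : HasQuadRelE κ0 Z)
    {Y : RedAV p ν} (hY : Big Y.X j) (hYZ : IsPowersTimesSupersingular Z Y)
    (jO : ∀ l, L →+* Ω l) {κ : Type} [Fintype κ] [DecidableEq κ] {s : κ → Wt Y.X L}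
    (hs : Function.Injective s) (hbal : ∀ g, ∑ k, tf p ν j (St j (s k)) g = 0)
    (heven : Even (Fintype.card κ)) {c c' : Ω l0} (h : Ln (jO l0) (atPrime C l0) Y s c c')
    (hcc : c * c' ≠ 0) :
    ∃ μ : L, c * c' = jO l0 μ ∧ PosC (j μ * ∏ k, Pool.Agent.TH117.PO.sgn j (s k)) := by
  classical
  have hfin := Pool.Agent.W67.TA.finite_wt j hZ
  let _ : Fintype (Wt Z.X L) := Fintype.ofFinite _
  have hC0 := hC.cycle l0
  obtain ⟨δ, d, hδ, hfix⟩ := exists_root j hK κL
  choose o ho using fun w => weight_cases hY hZ hYZ w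
  -- the exponents
  let w : κ → Option (Wt Z.X L) := fun k => o (s k)
  have hsum : ∀ g, ∑ k, ext0 (tw p ν j Z.X) (w k) g = 0 := by
    intro g
    rw [← hbal g]
    exact Finset.sum_congr rfl fun k _ => by rw [ho (s k)]
  have hbij := toEmb_bijective (j := j) hZ
  let E : Wt Z.X L ≃ Emb Z := Equiv.ofBijective _ hbij
  let e : Emb Z → ℕ := fun u => Nat.card {k // w k = some (E.symm u)}
  have he : ∀ v : Wt Z.X L, (e (toEmb j Z v) : ℤ) = Pool.Agent.TH117.BL.cnt w v := by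
    intro v
    have h1 : E.symm (toEmb j Z v) = v := E.symm_apply_apply v
    change ((Nat.card {k // w k = some (E.symm (toEmb j Z v))} : ℕ) : ℤ) = _
    rw [h1]
    rfl
  have h1 : IsRel Z e := by
    rw [isRel_iff hZ]
    intro σ
    rw [← hsum σ, sum_eq_cnt]
    exact Finset.sum_congr rfl fun v _ => by rw [he]
  obtain ⟨n, hn, hnrel, hG⟩ := rel_decomp (jO l0) hZ hkp hκ _ (hrel e h1)
  obtain ⟨h', Y', hY', J, hJ, hJbal, hJN, hJt⟩ := exists_J hδ hZ n
    (fun σ hσ => hn σ (hfix σ hσ)) hnrel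
  have h3 : (fun l : Wt Z.X L => ((e (toEmb j Z l) : ℕ) : ℤ)) = Pool.Agent.TH117.BL.cnt w :=
    funext he
  have hG' : GenD (AlgM p ν j (jO l0)) (Set.range (ext0 (tw p ν j Z.X)))
      (DD (tw p ν j Z.X) (Pool.Agent.TH117.BL.cnt w) -
        DD (tw p ν j Z.X) (Pool.Agent.TH117.BL.cnt (fl' n h'))) := by
    rw [cnt_fl', ← h3]
    exact hG
  have hA := alg_K (jO l0) hkp hY hY' (fun k => ho (s k)) heven hJt (even_of_bal hJbal) hG'
  have hs' : Function.Injective fun k => bar (s k) := fun k k' hk => hs (bar_injective hk)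
  have hKi : Function.Injective (Sum.elim (fun k => inlW (J k)) fun k => inrW (bar (s k)) :
      _ ⊕ κ → Wt (prodR Y' Y).X L) := by
    refine Function.Injective.sumElim ?_ ?_ ?_
    · intro k k' hk
      refine hJ ?_
      have h5 := Sigma.mk.inj_iff.1 hk
      exact Sigma.ext (Sum.inl.inj h5.1) h5.2
    · intro k k' hk
      refine hs' ?_
      have h5 := Sigma.mk.inj_iff.1 hk
      exact Sigma.ext (Sum.inr.inj h5.1) h5.2
    · intro k k' hk
      exact Sum.inl_ne_inr (Sigma.mk.inj_iff.1 hk).1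
  have hKp := pos_of_alg hC0 (jO l0) j (big_prodR hY' hY) hKi hA
  exact sign_div hC0 hR hY hY' hs heven hJ hJbal
    (fun c c' h4 h5 => quad_pos hC hδ jO hY' hJ hJbal hJN l0 h4 h5) hKp h hcc

end

/-- **Positivity of the primitive classes which are not numerically trivial.** -/
theorem positive_quad {Ω : Nat.Primes → Type} [∀ l, Field (Ω l)] [∀ l, CharZero (Ω l)]
    [∀ l : Nat.Primes, Algebra ℚ_[(l : ℕ)] (Ω l)] [∀ l, IsAlgClosed (Ω l)]
    {C : (Y : RedAV p ν) → (κ : Type) → FCl Ω Y κ → Prop} (hC : IsCompatible Ω C)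
    (l0 : Nat.Primes) (hR : IsRosatiPositive (Ω l0) (atPrime C l0))
    (hT : AreTate (Ω l0) (atPrime C l0)) {K : Type} [Field K] [NumberField K]
    [IsCMField K] (hK : finrank ℚ K = 2) (κ0 : K →+* ℂ)
    {Z : RedAV p ν} (hrel : HasQuadRelE κ0 Z)
    {Y : RedAV p ν} (hYZ : IsPowersTimesSupersingular Z Y)
    {α : Y.X.H1} (hα : IsPolar Y.X α) {r m : ℕ} (hrm : 2 * (2 * r + m) = finrank ℚ Y.X.H1)
    {z : (TM (Ω l0) Y) [⋀^Fin r × Fin 2]→ₗ[Ω l0] Ω l0} (hz : atPrime C l0 Y _ z)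
    (hnt : ¬ IsNumTrivial (Ω l0) (atPrime C l0) z) (hprim : IsPrim α m z) :
    IsPosClass α m z := by
  classical
  have hC0 := hC.cycle l0
  have hne : Nonempty (((Y.X.prod Z.X).prod (single (kp p))).prod (single (anyPair K))).I :=
    ⟨Sum.inr ()⟩
  obtain ⟨L, _, _, _, _, j, hj⟩ :=
    exists_cm (((Y.X.prod Z.X).prod (single (kp p))).prod (single (anyPair K)))
  have hY : Big Y.X j := fun i ψ => hj (Sum.inl (Sum.inl (Sum.inl i))) ψ
  have hZ : Big Z.X j := fun i ψ => hj (Sum.inl (Sum.inl (Sum.inr i))) ψ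
  have hkp : BigA (kp p) j := fun ψ => hj (Sum.inl (Sum.inr ())) ψ
  obtain ⟨κL, hκ⟩ : ∃ κL : K →+* L, j.comp κL = κ0 := hj (Sum.inr ()) κ0
  let jO : ∀ l, L →+* Ω l := fun l => ((IsAlgClosed.lift : L →ₐ[ℚ] Ω l) : L →+* Ω l)
  obtain ⟨e, h1, h0⟩ := Pool.Agent.W67.TA.basis p ν (Ω l0) L j (jO l0) Y hY
  -- the words occurring in the class
  have hbal : ∀ s : Fin r × Fin 2 → Wt Y.X L, (z fun k => e (s k)) ≠ 0 →
      ∀ g, ∑ k, tf p ν j (St j (s k)) g = 0 := by
    intro s hs g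
    let ε : Fin r × Fin 2 ≃ Fin (2 * r) := finProdFinEquiv.trans (finCongr (mul_comm r 2))
    obtain ⟨t, ht, h2⟩ := hT (z.domDomCongr ε) (hC0.reindex ε z hz)
    have h3 := balanced (jO l0) Pool.Agent.W366.TA.val hY e h1 h0 t r ht (z.domDomCongr ε) h2
      (fun k => s (ε.symm k)) (by
        change (z fun k => e (s (ε.symm (ε k)))) ≠ 0
        simp only [ε.symm_apply_apply]
        exact hs) g
    rw [← h3]
    exact (Equiv.sum_comp ε.symm fun k => tf p ν j (St j (s k)) g).symm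
  have hterm : ∀ s : Fin r × Fin 2 → Wt Y.X L,
      (z fun k => e (s k)) * (z fun k => e (bar (s k))) ≠ 0 →
      ∃ μ : L, (z fun k => e (s k)) * (z fun k => JJ (jO l0) e α (e (s k))) = jO l0 μ ∧
        PosC (j μ) := by
    intro s hss
    have hs := left_ne_zero_of_mul hss
    have hsi : Function.Injective s := by
      intro k k' hk
      by_contra hne
      refine hs (z.map_eq_zero_of_eq _ ?_ hne)
      rw [hk]
    obtain ⟨μ, h4, h5⟩ := word_sign hC l0 hR hK hκ hZ hkp hrel hY hYZ jO hsi (hbal s hs) (by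
      rw [Fintype.card_prod, Fintype.card_fin, Fintype.card_fin]
      exact even_two.mul_left r) (Ln_coef hC0 j hY e h1 h0 hz hsi) hss
    refine ⟨μ * (∏ k, ev α (s k))⁻¹, ?_, ?_⟩
    · rw [x_JJ e h1 h0, map_mul, ← h4, map_inv₀, map_prod]
      ring
    · have h6 : PosC (∏ k, (j (ev α (bar (s k))) * Pool.Agent.TH117.PO.sgn j (s k))) :=
        PosC.prod _ _ fun k _ => polar_sign j hα (s k)
      rw [Finset.prod_mul_distrib] at h6
      have h7 : ∏ k, j (ev α (bar (s k))) = ∏ k, j (ev α (s k)) := by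
        rw [Fintype.prod_prod_type, Fintype.prod_prod_type]
        refine Finset.prod_congr rfl fun i _ => ?_
        rw [Fin.prod_univ_two, Fin.prod_univ_two, ev_bar_polar j hα, ev_bar_polar j hα, map_neg,
          map_neg]
        ring
      rw [h7] at h6
      have h8 := h5.mul h6.inv
      have h9 : j (μ * (∏ k, ev α (s k))⁻¹) = (j μ * ∏ k, Pool.Agent.TH117.PO.sgn j (s k)) *
          ((∏ k, j (ev α (s k))) * ∏ k, Pool.Agent.TH117.PO.sgn j (s k))⁻¹ := by
        have e1 : ∏ k, Pool.Agent.TH117.PO.sgn j (s k) ≠ 0 :=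
          Finset.prod_ne_zero_iff.2 fun k _ => sgn_ne j (s k)
        rw [map_mul, map_inv₀, map_prod, mul_inv]
        field_simp
      rw [h9]
      exact h8
  have key : ∀ s : Fin r × Fin 2 → Wt Y.X L, ∃ μ : L,
      (z fun k => e (s k)) * (z fun k => JJ (jO l0) e α (e (s k))) = jO l0 μ ∧
        (((z fun k => e (s k)) * (z fun k => e (bar (s k))) ≠ 0 → PosC (j μ)) ∧
          ∃ t : ℝ, 0 ≤ t ∧ j μ = t) := by
    intro s
    by_cases hs : (z fun k => e (s k)) * (z fun k => e (bar (s k))) = 0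
    · refine ⟨0, ?_, fun h => absurd hs h, 0, le_rfl, by simp⟩
      rw [x_JJ e h1 h0, map_zero, mul_left_comm, hs, mul_zero]
    · obtain ⟨μ, h2, h3⟩ := hterm s hs
      obtain ⟨t, ht, ht2⟩ := h3
      exact ⟨μ, h2, fun _ => ⟨t, ht, ht2⟩, t, ht.le, ht2⟩
  choose μ h2 h3 t ht h4 using key
  obtain ⟨s0, hs0⟩ : ∃ s : Fin r × Fin 2 → Wt Y.X L,
      (z fun k => e (s k)) * (z fun k => e (bar (s k))) ≠ 0 := by
    by_contra hcon
    push Not at hcon
    exact hnt (numTriv_of hC0 hY e h1 h0 hz fun s _ => hcon s)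
  refine positive_of hC0 hY e h1 h0 hα hrm hz hprim (γ := ∑ s, μ s) ?_ ⟨∑ s, t s, ?_, ?_⟩
  · rw [map_sum]
    exact Finset.sum_congr rfl fun s _ => h2 s
  · refine Finset.sum_pos' (fun s _ => ht s) ⟨s0, Finset.mem_univ s0, ?_⟩
    obtain ⟨t', ht', h5⟩ := h3 s0 hs0
    rw [h4] at h5
    have h6 : t s0 = t' := by exact_mod_cast h5
    rw [h6]
    exact ht'
  · rw [map_sum]
    push_cast
    exact Finset.sum_congr rfl fun s _ => h4 s

end

end Pool.Agent.N202.QR
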