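import Pool.Agent.N202.QR.RankOne

/-!
# Relations between the conjugates of a Weil number in a CM field of degree `2 g`, `g` prime
-/

set_option autoImplicit false
set_option linter.unusedSectionVars false
set_option linter.unusedVariables false

namespace Pool.Agent.N202.QR

open NumberField Pool.Agent.H204R3.CM Pool.Agent.W547.KB Pool.Agent.W547.LD Pool.Agent.W547.HR
  Pool.Agent.W495.TA Module Pool.Agent.TH117.PO Pool.Agent.W976.TA Pool.Agent.W417.TA
  Pool.Agent.TH117.BL Pool.Agent.W495.TC Pool.Agent.W495.TB Pool.Agent.TH117.F5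
open scoped TensorProduct

noncomputable section

section poly

open Polynomial

/-- A linear relation between the powers of an operator of prime order applied to a vector which is
not fixed has constant coefficients. -/
theorem const_of_rel {V : Type} [AddCommGroup V] [Module ℚ V] (R : V →ₗ[ℚ] V) {g : ℕ}
    (hg : g.Prime) {v : V} (hv : (R ^ g) v = v) (hne : R v ≠ v) (a : ℕ → ℚ)
    (h : ∑ i ∈ Finset.range g, a i • (R ^ i) v = 0) : ∀ i < g, a i = a 0 := by
  have : Fact g.Prime := ⟨hg⟩
  let A : ℚ[X] := ∑ i ∈ Finset.range g, C (a i) * X ^ i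
  have hA : (aeval R A) v = 0 := by
    have h1 : (aeval R A) v = ∑ i ∈ Finset.range g, a i • (R ^ i) v := by
      simp only [A, map_sum, map_mul, aeval_C, map_pow, aeval_X, LinearMap.sum_apply]
      refine Finset.sum_congr rfl fun i _ => ?_
      rw [Algebra.algebraMap_eq_smul_one]
      simp
    rw [h1, h]
  have hcoef : ∀ i < g, A.coeff i = a i := by
    intro i hi
    simp only [A, finsetSum_coeff, coeff_C_mul, coeff_X_pow]
    rw [Finset.sum_eq_single i]
    · simp
    · intro k _ hk
      simp [Ne.symm hk]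
    · intro h
      exact absurd (Finset.mem_range.2 hi) h
  have hdeg : A.degree < g := by
    refine (degree_sum_le _ _).trans_lt ?_
    rw [Finset.sup_lt_iff (by exact_mod_cast WithBot.bot_lt_coe g)]
    intro i hi
    refine (degree_C_mul_X_pow_le i (a i)).trans_lt ?_
    exact_mod_cast Finset.mem_range.1 hi
  have hirr := cyclotomic.irreducible_rat hg.pos
  have hdvd : cyclotomic g ℚ ∣ A := by
    by_contra hnd
    have hcop : IsCoprime (cyclotomic g ℚ) A :=
      (hirr.coprime_iff_not_dvd).2 hnd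
    obtain ⟨B, D, hBD⟩ := hcop
    apply hne
    have h1 : (X - 1 : ℚ[X]) = (X - 1) * D * A + B * (X ^ g - 1) := by
      rw [← cyclotomic_prime_mul_X_sub_one ℚ g]
      linear_combination (-(X - 1 : ℚ[X])) * hBD
    have h2 : (aeval R (X - 1 : ℚ[X])) v = 0 := by
      rw [h1, map_add, map_mul _ ((X - 1) * D) A, map_mul _ B, LinearMap.add_apply]
      have e1 : (aeval R ((X - 1) * D) * aeval R A) v = 0 := by
        rw [Module.End.mul_apply, hA, map_zero]
      have e2 : (aeval R B * aeval R (X ^ g - 1 : ℚ[X])) v = 0 := by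
        rw [Module.End.mul_apply]
        have e3 : (aeval R (X ^ g - 1 : ℚ[X])) v = 0 := by
          rw [map_sub, map_pow, aeval_X, map_one, LinearMap.sub_apply, hv]
          simp
        rw [e3, map_zero]
      rw [e1, e2, add_zero]
    rw [map_sub, aeval_X, map_one, LinearMap.sub_apply, Module.End.one_apply, sub_eq_zero] at h2
    exact h2
  obtain ⟨B, hB⟩ := hdvd
  have hB0 : B = C (B.coeff 0) := by
    by_cases hB1 : B = 0
    · rw [hB1]; simp
    refine eq_C_of_degree_le_zero ?_
    have h1 : A.degree = (g - 1 : ℕ) + B.degree := by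
      rw [hB, degree_mul, degree_cyclotomic, Nat.totient_prime hg]
    rw [h1] at hdeg
    by_contra hcon
    rw [not_le] at hcon
    have h2 : (1 : WithBot ℕ) ≤ B.degree := by
      rw [degree_eq_natDegree hB1] at hcon ⊢
      exact_mod_cast hcon
    have h3 : ((g - 1 : ℕ) : WithBot ℕ) + 1 ≤ ((g - 1 : ℕ) : WithBot ℕ) + B.degree :=
      add_le_add le_rfl h2
    have h4 : ((g - 1 : ℕ) : WithBot ℕ) + 1 = (g : ℕ) := by
      have h5 := hg.pos
      have h6 : g - 1 + 1 = g := by omega
      exact_mod_cast congrArg (fun n : ℕ => (n : WithBot ℕ)) h6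
    rw [h4] at h3
    exact absurd (lt_of_le_of_lt h3 hdeg) (lt_irrefl _)
  have hall : ∀ i < g, a i = B.coeff 0 := by
    intro i hi
    rw [← hcoef i hi, hB, hB0, coeff_mul_C, cyclotomic_prime]
    simp only [finsetSum_coeff, coeff_X_pow]
    rw [Finset.sum_eq_single i]
    · simp
    · intro k _ hk
      simp [Ne.symm hk]
    · intro h
      exact absurd (Finset.mem_range.2 hi) h
  intro i hi
  rw [hall i hi, hall 0 hg.pos]

end poly

section orbit

variable {G X : Type} [Group G] [Finite G] [Fintype X] [MulAction G X] {c : G}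

theorem iter_smul (τ : G) (n : ℕ) (x : X) : (fun y : X => τ • y)^[n] x = τ ^ n • x := by
  induction n with
  | zero => simp
  | succ n ih => rw [Function.iterate_succ_apply', ih, pow_succ', mul_smul]

open Classical in
/-- An element of prime order `g` without fixed points. -/
theorem exists_cyc (hset : Setting G X c) {g : ℕ} (hg : g.Prime) (hg2 : g ≠ 2)
    (hcard : Fintype.card X = 2 * g) :
    ∃ τ : G, (∀ x : X, τ ^ g • x = x) ∧ ∀ x : X, τ • x ≠ x := by
  have : Fact g.Prime := ⟨hg⟩
  have hX : Nonempty X := by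
    rw [← Fintype.card_pos_iff, hcard]
    have := hg.pos
    omega
  obtain ⟨x0⟩ := hX
  let H := (MulAction.toPermHom G X).range
  have horb : MulAction.orbit H x0 = Set.univ := by
    refine Set.eq_univ_iff_forall.2 fun y => ?_
    obtain ⟨σ, hσ⟩ := hset.trans x0 y
    exact ⟨⟨MulAction.toPermHom G X σ, σ, rfl⟩, hσ⟩
  have hdvd : g ∣ Nat.card H := by
    have h1 := MulAction.card_orbit_mul_card_stabilizer_eq_card_group H x0
    rw [Fintype.card_congr (Equiv.setCongr horb), Fintype.card_congr (Equiv.Set.univ X),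
      hcard] at h1
    rw [Nat.card_eq_fintype_card, ← h1]
    exact ⟨2 * Fintype.card (MulAction.stabilizer H x0), by ring⟩
  obtain ⟨⟨h, τ, hτ⟩, horder⟩ := exists_prime_orderOf_dvd_card' g hdvd
  have hpow : ∀ x : X, τ ^ g • x = x := by
    intro x
    have h1 : h ^ g = 1 := by
      have h2 := pow_orderOf_eq_one (⟨h, τ, hτ⟩ : H)
      rw [horder] at h2
      exact congrArg Subtype.val h2
    rw [← hτ, ← map_pow] at h1
    have h3 := congrArg (fun f : Equiv.Perm X => f x) h1
    exact h3
  refine ⟨τ, hpow, ?_⟩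
  -- the fixed points
  let F := {x : X // τ • x = x}
  have hF1 : g ∣ Fintype.card F := by
    let f0 : Function.End X := fun x => τ • x
    have h1 := Equiv.Perm.card_fixedPoints_modEq (f := f0)
      (p := g) (n := 1) (by
        rw [pow_one]
        funext x
        have h2 : (f0 ^ g) x = (fun y : X => τ • y)^[g] x := rfl
        rw [h2, iter_smul, hpow]
        rfl)
    have h2 : Fintype.card (Function.fixedPoints (fun x : X => τ • x)) = Fintype.card F :=
      Fintype.card_congr (Equiv.refl _)
    rw [hcard] at h1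
    have h3 : 0 ≡ Fintype.card F [MOD g] := by
      rw [← h2]
      refine Nat.ModEq.trans ?_ h1
      exact (Nat.modEq_zero_iff_dvd.2 ⟨2, by ring⟩).symm
    exact (Nat.modEq_zero_iff_dvd).1 h3.symm
  have hF2 : 2 ∣ Fintype.card F := by
    let f : Function.End F := fun x => ⟨c • x.1, by
      rw [← mul_smul, ← hset.comm, mul_smul, x.2]⟩
    have h1 := Equiv.Perm.card_fixedPoints_modEq (f := f) (p := 2) (n := 1) (by
        funext x
        refine Subtype.ext ?_
        change c • c • x.1 = x.1
        rw [← mul_smul, hset.sq, one_smul])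
    have h2 : Fintype.card (Function.fixedPoints f) = 0 := by
      rw [Fintype.card_eq_zero_iff]
      refine ⟨fun x => hset.ne x.1.1 ?_⟩
      exact congrArg Subtype.val x.2
    rw [h2] at h1
    exact (Nat.modEq_zero_iff_dvd).1 h1
  have hF3 : 2 * g ∣ Fintype.card F :=
    Nat.Coprime.mul_dvd_of_dvd_of_dvd ((Nat.coprime_primes Nat.prime_two hg).2 (Ne.symm hg2)) hF2 hF1
  intro x hx
  have hF4 : 0 < Fintype.card F := Fintype.card_pos_iff.2 ⟨⟨x, hx⟩⟩
  have hF5 : Fintype.card F = Fintype.card X := by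
    refine le_antisymm (Fintype.card_subtype_le _) ?_
    rw [hcard]
    exact Nat.le_of_dvd hF4 hF3
  have hF6 : ∀ x : X, τ • x = x := by
    intro y
    by_contra hne
    exact absurd hF5 (Fintype.card_subtype_lt (p := fun x : X => τ • x = x) hne).ne
  have h1 : (⟨h, τ, hτ⟩ : H) = 1 := by
    refine Subtype.ext (Equiv.ext fun y => ?_)
    change h y = y
    rw [← hτ]
    exact hF6 y
  rw [h1, orderOf_one] at horder
  exact hg.one_lt.ne horder

theorem pow_smul_eq {g : ℕ} {τ : G} (hτg : ∀ x : X, τ ^ g • x = x) {a b : ℕ}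
    (h : a ≡ b [MOD g]) (x : X) : τ ^ a • x = τ ^ b • x := by
  have h5 : ∀ (k m : ℕ) (x : X), τ ^ (m + g * k) • x = τ ^ m • x := by
    intro k m x
    induction k with
    | zero => simp
    | succ k ih =>
      have h1 : m + g * (k + 1) = (m + g * k) + g := by ring
      rw [h1, pow_add, mul_smul, hτg, ih]
  rcases le_total a b with hab | hab
  · obtain ⟨k, hk⟩ := (Nat.modEq_iff_dvd' hab).1 h
    have h1 : b = a + g * k := by omega
    rw [h1, h5]
  · obtain ⟨k, hk⟩ := (Nat.modEq_iff_dvd' hab).1 h.symm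
    have h1 : a = b + g * k := by omega
    rw [h1, h5]

/-- The two orbits of an element of prime order. -/
theorem orbit_equiv (hset : Setting G X c) {g : ℕ} (hg : g.Prime) (hg2 : g ≠ 2)
    (hcard : Fintype.card X = 2 * g) {τ : G} (hτg : ∀ x : X, τ ^ g • x = x)
    (hτ : ∀ x : X, τ • x ≠ x) (x0 : X) :
    ∃ f : Fin g × Bool → X, Function.Bijective f ∧ (∀ i, f (i, true) = τ ^ (i : ℕ) • x0) ∧
      ∀ i, f (i, false) = c • τ ^ (i : ℕ) • x0 := by
  have hper : ∀ x : X, Function.minimalPeriod (fun y : X => τ • y) x = g := by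
    intro x
    have h1 : Function.IsPeriodicPt (fun y : X => τ • y) g x := by
      change (fun y : X => τ • y)^[g] x = x
      rw [iter_smul, hτg]
    rcases (Nat.dvd_prime hg).1 h1.minimalPeriod_dvd with h2 | h2
    · rw [Function.minimalPeriod_eq_one_iff_isFixedPt] at h2
      exact absurd h2 (hτ x)
    · exact h2
  have hcτ : ∀ (n : ℕ) (x : X), c • τ ^ n • x = τ ^ n • c • x := by
    intro n x
    rw [← mul_smul, ← mul_smul, hset.comm]
  -- the conjugate is not in the orbit
  have hno : ∀ (m : ℕ) (x : X), c • x ≠ τ ^ m • x := by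
    intro m x h
    have h1 : τ ^ (2 * m) • x = x := by
      rw [two_mul, pow_add, mul_smul, ← h, ← hcτ, ← h, ← mul_smul, hset.sq, one_smul]
    have h2 : Function.IsPeriodicPt (fun y : X => τ • y) (2 * m) x := by
      change (fun y : X => τ • y)^[2 * m] x = x
      rw [iter_smul, h1]
    have h3 := h2.minimalPeriod_dvd
    rw [hper] at h3
    have h4 : g ∣ m := ((Nat.coprime_primes hg Nat.prime_two).2 hg2).dvd_of_dvd_mul_left h3
    obtain ⟨k, rfl⟩ := h4
    have h5 : ∀ k : ℕ, τ ^ (g * k) • x = x := by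
      intro k
      induction k with
      | zero => simp
      | succ k ih => rw [mul_add, mul_one, pow_add, mul_smul, hτg, ih]
    rw [h5] at h
    exact hset.ne x h
  let f : Fin g × Bool → X := fun i => if i.2 then τ ^ (i.1 : ℕ) • x0 else c • τ ^ (i.1 : ℕ) • x0
  have hf1 : ∀ i : Fin g, f (i, true) = τ ^ (i : ℕ) • x0 := fun i => rfl
  have hf2 : ∀ i : Fin g, f (i, false) = c • τ ^ (i : ℕ) • x0 := fun i => rfl
  have hinj1 : ∀ i k : Fin g, τ ^ (i : ℕ) • x0 = τ ^ (k : ℕ) • x0 → i = k := by
    intro i k h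
    have h1 := (Function.iterate_eq_iterate_iff_of_lt_minimalPeriod
      (f := fun y : X => τ • y) (x := x0) (by rw [hper]; exact i.2) (by rw [hper]; exact k.2)).1
      (by rw [iter_smul, iter_smul]; exact h)
    exact Fin.ext h1
  have hmix : ∀ i k : Fin g, c • τ ^ (i : ℕ) • x0 ≠ τ ^ (k : ℕ) • x0 := by
    intro i k h
    refine hno (k + (g - i)) (τ ^ (i : ℕ) • x0) ?_
    rw [h, ← mul_smul, ← pow_add]
    have h1 : (k : ℕ) + (g - i) + i = k + g := by
      have := i.2
      omega
    rw [h1, pow_add, mul_smul, hτg]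
  have hfi : Function.Injective f := by
    rintro ⟨i, b⟩ ⟨k, b'⟩ h
    cases b <;> cases b'
    · rw [hf2, hf2] at h
      rw [hinj1 i k (smul_left_cancel c h)]
    · rw [hf2, hf1] at h
      exact absurd h (hmix i k)
    · rw [hf2, hf1] at h
      exact absurd h.symm (hmix k i)
    · rw [hf1, hf1] at h
      rw [hinj1 i k h]
  have hfb : Function.Bijective f := by
    rw [Fintype.bijective_iff_injective_and_card]
    refine ⟨hfi, ?_⟩
    rw [Fintype.card_prod, Fintype.card_fin, Fintype.card_bool, hcard, mul_comm]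
  exact ⟨f, hfb, hf1, hf2⟩

/-- The relations between the translates of a function. -/
theorem prime_orbit (hset : Setting G X c) {g : ℕ} (hg : g.Prime) (hg2 : g ≠ 2)
    (hcard : Fintype.card X = 2 * g) (T : X → G → ℤ) (hT : ∀ σ x h, T (σ • x) h = T x (h * σ))
    (hodd : ∀ x h, T (c • x) h = -T x h) (hinj : Function.Injective T) :
    ∃ (x0 : X) (ε : X → ℤ), ∀ a : X → ℤ, (∀ x, a (c • x) = -a x) →
      (∀ h, ∑ x, a x * T x h = 0) → ∀ x, a x = ε x * a x0 := by
  classical
  obtain ⟨τ, hτg, hτ⟩ := exists_cyc hset hg hg2 hcard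
  have hX : Nonempty X := by
    rw [← Fintype.card_pos_iff, hcard]
    have := hg.pos
    omega
  obtain ⟨x0⟩ := hX
  obtain ⟨f, hfb, hf1, hf2⟩ := orbit_equiv hset hg hg2 hcard hτg hτ x0
  let e : Fin g × Bool ≃ X := Equiv.ofBijective f hfb
  refine ⟨x0, fun x => if (e.symm x).2 then 1 else -1, fun a ha hrel => ?_⟩
  -- the operator
  let R : (G → ℚ) →ₗ[ℚ] (G → ℚ) :=
    { toFun := fun u h => u (h * τ), map_add' := fun _ _ => rfl, map_smul' := fun _ _ => rfl }
  let v : G → ℚ := fun h => (T x0 h : ℚ)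
  have hR : ∀ i : ℕ, (R ^ i) v = fun h => (T (τ ^ i • x0) h : ℚ) := by
    intro i
    induction i with
    | zero => simp [v]
    | succ i ih =>
      rw [pow_succ', Module.End.mul_apply, ih]
      funext h
      change (T (τ ^ i • x0) (h * τ) : ℚ) = _
      rw [← hT, ← mul_smul, ← pow_succ']
  have hrel' : ∑ i ∈ Finset.range g, ((a (τ ^ i • x0) : ℤ) : ℚ) • (R ^ i) v = 0 := by
    funext h
    rw [Finset.sum_apply, ← Fin.sum_univ_eq_sum_range
      (fun i => (((a (τ ^ i • x0) : ℤ) : ℚ) • (R ^ i) v) h) g]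
    have h1 := hrel h
    rw [← Equiv.sum_comp e, Fintype.sum_prod_type] at h1
    have h2 : ∀ i : Fin g, ∑ b : Bool, a (e (i, b)) * T (e (i, b)) h =
        2 * (a (τ ^ (i : ℕ) • x0) * T (τ ^ (i : ℕ) • x0) h) := by
      intro i
      rw [Fintype.sum_bool]
      change a (f (i, true)) * T (f (i, true)) h + a (f (i, false)) * T (f (i, false)) h = _
      rw [hf1, hf2, ha, hodd]
      ring
    rw [Finset.sum_congr rfl fun i _ => h2 i, ← Finset.mul_sum] at h1
    have h3 : ∑ i : Fin g, a (τ ^ (i : ℕ) • x0) * T (τ ^ (i : ℕ) • x0) h = 0 := by omega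
    have h4 := congrArg (fun z : ℤ => (z : ℚ)) h3
    push_cast at h4
    rw [Pi.zero_apply, ← h4]
    refine Finset.sum_congr rfl fun i _ => ?_
    rw [Pi.smul_apply, hR, smul_eq_mul]
  have hconst := const_of_rel R hg (v := v) (by
      rw [hR, hτg]) (by
      intro h
      have h1 := hR 1
      rw [pow_one, h, pow_one] at h1
      have h2 : T x0 = T (τ • x0) := by
        funext h
        have h3 := congrFun h1 h
        change (T x0 h : ℚ) = (T (τ • x0) h : ℚ) at h3
        exact_mod_cast h3
      exact hτ x0 (hinj h2).symm) (fun i => ((a (τ ^ i • x0) : ℤ) : ℚ)) hrel'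
  have hconst' : ∀ i < g, a (τ ^ i • x0) = a x0 := by
    intro i hi
    have h1 := hconst i hi
    rw [pow_zero, one_smul] at h1
    exact_mod_cast h1
  intro x
  obtain ⟨⟨i, b⟩, rfl⟩ := e.surjective x
  dsimp only
  rw [e.symm_apply_apply]
  cases b
  · change a (f (i, false)) = _
    rw [hf2, ha, hconst' i i.2]
    simp
  · change a (f (i, true)) = _
    rw [hf1, hconst' i i.2]
    simp

/-- If the functions are not pairwise different, then they are equal up to signs. -/
theorem prime_cases (hset : Setting G X c) {g : ℕ} (hg : g.Prime) (hg2 : g ≠ 2)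
    (hcard : Fintype.card X = 2 * g) (T : X → G → ℤ) (hT : ∀ σ x h, T (σ • x) h = T x (h * σ))
    (hodd : ∀ x h, T (c • x) h = -T x h) :
    Function.Injective T ∨ ∃ (t : G → ℤ) (ε : X → ℤ), (∀ x, ε x = 1 ∨ ε x = -1) ∧
      ∀ x h, T x h = ε x * t h := by
  classical
  by_cases hinj : Function.Injective T
  · exact Or.inl hinj
  right
  obtain ⟨τ, hτg, hτ⟩ := exists_cyc hset hg hg2 hcard
  obtain ⟨x0, y0, hxy, hne⟩ : ∃ x0 y0, T x0 = T y0 ∧ x0 ≠ y0 := by
    by_contra hcon
    push Not at hcon
    exact hinj fun x y h => hcon x y h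
  obtain ⟨f, hf, hf1, hf2⟩ := orbit_equiv hset hg hg2 hcard hτg hτ x0
  -- the translates
  have hTτ : ∀ (n : ℕ) (x y : X), T x = T y → T (τ ^ n • x) = T (τ ^ n • y) := by
    intro n x y h
    funext k
    rw [hT, hT, h]
  have hTc : ∀ x y : X, T x = T y → T (c • x) = T (c • y) := by
    intro x y h
    funext k
    rw [hodd, hodd, h]
  have hzero : T x0 = 0 → ∀ x, T x = 0 := by
    intro h x
    obtain ⟨σ, rfl⟩ := hset.trans x0 x
    funext k
    rw [hT, h]
    rfl
  have hcase : (∀ x, T x = 0) ∨ ∀ n : ℕ, T (τ ^ n • x0) = T x0 := by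
    have hgen : ∀ i : ℕ, ¬ g ∣ i → T (τ ^ i • x0) = T x0 → ∀ n : ℕ, T (τ ^ n • x0) = T x0 := by
      intro i hi h n
      have h1 : ∀ k : ℕ, T (τ ^ (k * i) • x0) = T x0 := by
        intro k
        induction k with
        | zero => simp
        | succ k ih =>
          rw [add_mul, one_mul, pow_add, mul_smul, hTτ (k * i) _ _ h, ih]
      have hcop : Nat.Coprime i g := Nat.Coprime.symm ((Nat.Prime.coprime_iff_not_dvd hg).2 hi)
      obtain ⟨k, -, hk⟩ := Nat.exists_mul_mod_eq_one_of_coprime hcop hg.one_lt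
      have h2 : τ ^ ((n * k) * i) • x0 = τ ^ n • x0 := by
        have h3 : (n * k) * i ≡ n [MOD g] := by
          have h4 : k * i ≡ 1 [MOD g] := by
            rw [Nat.ModEq, mul_comm k i, hk, Nat.mod_eq_of_lt hg.one_lt]
          calc (n * k) * i = n * (k * i) := by ring
            _ ≡ n * 1 [MOD g] := h4.mul_left n
            _ = n := mul_one n
        exact pow_smul_eq hτg h3 x0
      rw [← h2, h1]
    obtain ⟨⟨i, b⟩, hib⟩ := hf.2 y0
    cases b
    · rw [hf2] at hib
      have h1 : T (c • τ ^ (i : ℕ) • x0) = T x0 := by rw [hib, hxy]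
      have h2 : ∀ h, T (τ ^ (i : ℕ) • x0) h = -T x0 h := by
        intro h
        have h3 := congrFun h1 h
        rw [hodd] at h3
        omega
      have h3 : T (τ ^ (2 * (i : ℕ)) • x0) = T x0 := by
        funext h
        rw [two_mul, pow_add, mul_smul, hT, h2]
        have h4 := h2 h
        rw [hT] at h4
        omega
      by_cases hi : g ∣ 2 * (i : ℕ)
      · have h4 : g ∣ (i : ℕ) := ((Nat.coprime_primes hg Nat.prime_two).2 hg2).dvd_of_dvd_mul_left hi
        have h5 : (i : ℕ) = 0 := Nat.eq_zero_of_dvd_of_lt h4 i.2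
        refine Or.inl (hzero ?_)
        funext h
        have h6 := h2 h
        rw [h5, pow_zero, one_smul] at h6
        change T x0 h = 0
        omega
      · exact Or.inr (hgen _ hi h3)
    · rw [hf1] at hib
      have h1 : T (τ ^ (i : ℕ) • x0) = T x0 := by rw [hib, hxy]
      refine Or.inr (hgen _ ?_ h1)
      intro h
      have h5 : (i : ℕ) = 0 := Nat.eq_zero_of_dvd_of_lt h i.2
      rw [h5, pow_zero, one_smul] at hib
      exact hne hib
  rcases hcase with h0 | h1
  · refine ⟨0, fun _ => 1, fun x => Or.inl rfl, fun x h => ?_⟩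
    rw [h0]
    simp
  · let e : Fin g × Bool ≃ X := Equiv.ofBijective f hf
    refine ⟨T x0, fun x => if (e.symm x).2 then 1 else -1, fun x => ?_, fun x h => ?_⟩
    · dsimp only
      split_ifs
      · exact Or.inl rfl
      · exact Or.inr rfl
    · obtain ⟨⟨i, b⟩, rfl⟩ := e.surjective x
      dsimp only
      rw [e.symm_apply_apply]
      cases b
      · change T (f (i, false)) h = _
        rw [hf2, hodd, h1]
        simp
      · change T (f (i, true)) h = _
        rw [hf1, h1]
        simp

end orbit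

end

end Pool.Agent.N202.QR
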