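import Pool.Agent.N202.QR.Rel

/-!
# Relations of rank one between the Frobenius eigenvalues
-/

set_option autoImplicit false
set_option linter.unusedSectionVars false
set_option linter.unusedVariables false

namespace Pool.Agent.N202.QR

open NumberField Pool.Agent.H204R3.CM Pool.Agent.W547.KB Pool.Agent.W547.LD Pool.Agent.W547.HR
  Pool.Agent.W495.TA Module Pool.Agent.TH117.PO Pool.Agent.W976.TA Pool.Agent.W417.TA
  Pool.Agent.TH117.BL Pool.Agent.W495.TC Pool.Agent.W495.TB Pool.Agent.TH117.F5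
open scoped TensorProduct

noncomputable section

variable {p : ℕ} [Fact p.Prime] {ν : PadicAlgCl p ≃+* ℂ}

theorem conjE_conjE {Z : RedAV p ν} (w : Emb Z) : conjE (conjE w) = w := by
  refine Sigma.ext rfl (heq_of_eq ?_)
  exact star_star w.2

theorem conjE_ne {Z : RedAV p ν} (w : Emb Z) : conjE w ≠ w := by
  intro h
  exact conj_ne w.2 (eq_of_heq (Sigma.mk.inj_iff.1 h).2)

theorem oddE_conj {Z : RedAV p ν} (e : Emb Z → ℕ) (w : Emb Z) : oddE e (conjE w) = -oddE e w := by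
  unfold oddE
  rw [conjE_conjE]
  ring

theorem eig_conj {Z : RedAV p ν} (w : Emb Z) : eig Z w * eig Z (conjE w) = (p : ℂ) ^ Z.a := by
  have h1 := (Z.frob w.1).weil w.2
  have h2 : eig Z (conjE w) = starRingEnd ℂ (eig Z w) := rfl
  rw [h2, Complex.mul_conj, Complex.normSq_eq_norm_sq]
  change ((‖w.2 (Z.π w.1)‖ ^ 2 : ℝ) : ℂ) = _
  rw [h1]
  push_cast
  rfl

open Classical in
/-- Symmetric exponents. -/
theorem sym_mem {Z : RedAV p ν} (S : Set (Emb Z → ℤ))
    (hS : ∀ n : Emb Z → ℕ, IsRel Z n → IsElementary Z n → (fun w => (n w : ℤ)) ∈ S)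
    (f : Emb Z → ℕ) (hf : ∀ w, f (conjE w) = f w) :
    (fun w => (f w : ℤ)) ∈ AddSubgroup.closure S := by
  let n : Emb Z → Emb Z → ℕ := fun w x => (if x = w then 1 else 0) + if x = conjE w then 1 else 0
  have hn : ∀ w, (fun x => (n w x : ℤ)) ∈ S := by
    intro w
    have hsum : ∑ x, n w x = 2 := by
      change ∑ x, ((if x = w then 1 else 0) + if x = conjE w then 1 else 0) = 2
      rw [Finset.sum_add_distrib, Finset.sum_ite_eq' Finset.univ w fun _ => 1,
        Finset.sum_ite_eq' Finset.univ (conjE w) fun _ => 1, if_pos (Finset.mem_univ _),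
        if_pos (Finset.mem_univ _)]
    refine hS (n w) ⟨1, one_pos, ?_⟩ (Or.inl hsum.le)
    have hprod : ∏ x : Emb Z, eig Z x ^ n w x = eig Z w * eig Z (conjE w) := by
      have e1 : ∀ x : Emb Z, eig Z x ^ n w x =
          (if x = w then eig Z x else 1) * if x = conjE w then eig Z x else 1 := by
        intro x
        change eig Z x ^ ((if x = w then 1 else 0) + if x = conjE w then 1 else 0) = _
        rw [pow_add]
        congr 1
        · split_ifs
          · rw [pow_one]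
          · rw [pow_zero]
        · split_ifs
          · rw [pow_one]
          · rw [pow_zero]
      rw [Finset.prod_congr rfl fun x _ => e1 x, Finset.prod_mul_distrib,
        Finset.prod_ite_eq' Finset.univ w fun x => eig Z x,
        Finset.prod_ite_eq' Finset.univ (conjE w) fun x => eig Z x,
        if_pos (Finset.mem_univ _), if_pos (Finset.mem_univ _)]
    rw [hprod, eig_conj, hsum]
  have h1 : (fun w => (f w : ℤ)) = ∑ w : Emb Z, (if w.2 ∈ (Z.X.factor w.1).Φ then f w else 0) •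
      fun x => (n w x : ℤ) := by
    funext x
    rw [Finset.sum_apply]
    have h2 : ∀ w : Emb Z, ((if w.2 ∈ (Z.X.factor w.1).Φ then f w else 0) •
        fun x => (n w x : ℤ)) x = (if w = x then (if w.2 ∈ (Z.X.factor w.1).Φ then (f w : ℤ) else 0)
          else 0) + (if w = conjE x then (if w.2 ∈ (Z.X.factor w.1).Φ then (f w : ℤ) else 0)
          else 0) := by
      intro w
      change (if w.2 ∈ (Z.X.factor w.1).Φ then f w else 0) •
        (((if x = w then 1 else 0) + if x = conjE w then 1 else 0 : ℕ) : ℤ) = _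
      have h3 : x = conjE w ↔ w = conjE x := by
        constructor
        · rintro rfl
          rw [conjE_conjE]
        · rintro rfl
          rw [conjE_conjE]
      have h4 : x = w ↔ w = x := eq_comm
      simp only [h3, h4]
      split_ifs <;> simp <;> ring
    rw [Finset.sum_congr rfl fun w _ => h2 w, Finset.sum_add_distrib,
      Finset.sum_ite_eq' Finset.univ x, Finset.sum_ite_eq' Finset.univ (conjE x),
      if_pos (Finset.mem_univ _), if_pos (Finset.mem_univ _)]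
    have h5 : x.2 ∈ (Z.X.factor x.1).Φ ↔ ¬ (conjE x).2 ∈ (Z.X.factor (conjE x).1).Φ :=
      (Z.X.factor x.1).isCMType x.2
    by_cases h6 : x.2 ∈ (Z.X.factor x.1).Φ
    · rw [if_pos h6, if_neg (h5.1 h6), add_zero]
    · rw [if_neg h6, if_pos (by
        by_contra h7
        exact h6 (h5.2 h7)), zero_add, hf]
  rw [h1]
  exact AddSubgroup.sum_mem _ fun w _ => AddSubgroup.nsmul_mem _
    (AddSubgroup.subset_closure (hn w)) _

section

variable {L : Type} [Field L] [NumberField L] [IsCMField L] [IsGalois ℚ L] {j : L →+* ℂ}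
  {Z : RedAV p ν}

theorem toEmb_cw (w : Wt Z.X L) : toEmb j Z (cw Z w) = conjE (toEmb j Z w) := by
  refine Sigma.ext rfl (heq_of_eq ?_)
  exact comp_cc w.2

theorem cw_sw (σ : L ≃ₐ[ℚ] L) (w : Wt Z.X L) (j : L →+* ℂ) : cw Z (sw σ w) = sw σ (cw Z w) := by
  have h5 : cw Z (sw σ w) = sw (cc L) (sw σ w) := rfl
  have h6 : cw Z w = sw (cc L) w := rfl
  rw [h5, h6, ← sw_mul, ← sw_mul, cc_comm j]

theorem tw_sw (σ : L ≃ₐ[ℚ] L) (w : Wt Z.X L) (g : L ≃ₐ[ℚ] L) :
    tw p ν j Z.X (sw σ w) g = tw p ν j Z.X w (g * σ) := by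
  have h1 : ∀ v : Wt Z.X L, tw p ν j Z.X v = tf p ν j (St j v) := fun v =>
    (tf_nn Z.X v.1 v.2).symm
  rw [h1, h1]
  exact tf_smul_wt j Z.X w σ g

/-- The action of the Galois group on exponents. -/
def actE (hZ : Big Z.X j) (σ : L ≃ₐ[ℚ] L) (e : Emb Z → ℕ) : Emb Z → ℕ := fun u =>
  e (toEmb j Z (sw σ ((Equiv.ofBijective _ (toEmb_bijective (j := j) hZ)).symm u)))

theorem actE_toEmb (hZ : Big Z.X j) (σ : L ≃ₐ[ℚ] L) (e : Emb Z → ℕ) (w : Wt Z.X L) :
    actE hZ σ e (toEmb j Z w) = e (toEmb j Z (sw σ w)) := by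
  unfold actE
  have h1 : (Equiv.ofBijective _ (toEmb_bijective (j := j) hZ)).symm (toEmb j Z w) = w :=
    (Equiv.ofBijective _ (toEmb_bijective (j := j) hZ)).symm_apply_apply w
  rw [h1]

theorem isRel_actE (hZ : Big Z.X j) (σ : L ≃ₐ[ℚ] L) {e : Emb Z → ℕ} (he : IsRel Z e) :
    IsRel Z (actE hZ σ e) := by
  classical
  have hfin := finite_wt j hZ
  let _ : Fintype (Wt Z.X L) := Fintype.ofFinite _
  rw [isRel_iff hZ] at he ⊢
  intro g
  have h1 := he (g * σ⁻¹)
  rw [← h1]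
  refine Fintype.sum_equiv (swE Z.X σ).symm _ _ fun w => ?_
  change (actE hZ σ e (toEmb j Z w) : ℤ) * tw p ν j Z.X w g =
    (e (toEmb j Z (sw σ w)) : ℤ) * tw p ν j Z.X (sw σ w) (g * σ⁻¹)
  rw [actE_toEmb, tw_sw, inv_mul_cancel_right]

theorem oddE_actE (hZ : Big Z.X j) (σ : L ≃ₐ[ℚ] L) (e : Emb Z → ℕ) (w : Wt Z.X L) :
    oddE (actE hZ σ e) (toEmb j Z w) = oddE e (toEmb j Z (sw σ w)) := by
  unfold oddE
  rw [← toEmb_cw, ← toEmb_cw, actE_toEmb, actE_toEmb, cw_sw σ w j]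

end

/-- The nonnegative part of the odd part of a relation. -/
theorem split_rel {Z : RedAV p ν} {e : Emb Z → ℕ} (he : IsRel Z e) :
    IsRel Z (fun w => (oddE e w).toNat) ∧
      ∀ w, (e w : ℤ) = ((oddE e w).toNat : ℤ) + (min (e w) (e (conjE w)) : ℕ) := by
  classical
  have hw : ∀ w, (e w : ℤ) = ((oddE e w).toNat : ℤ) + (min (e w) (e (conjE w)) : ℕ) := by
    intro w
    unfold oddE
    omega
  refine ⟨?_, hw⟩
  have hne : Nonempty (Z.X.prod (single (kp p))).I := ⟨Sum.inr ()⟩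
  obtain ⟨L, _, _, _, _, j, hj⟩ := exists_cm (Z.X.prod (single (kp p)))
  have hZ : Big Z.X j := fun i ψ => hj (Sum.inl i) ψ
  have hfin := finite_wt j hZ
  let _ : Fintype (Wt Z.X L) := Fintype.ofFinite _
  rw [isRel_iff hZ] at he ⊢
  intro g
  have h1 : ∑ w : Wt Z.X L, ((min (e (toEmb j Z w)) (e (conjE (toEmb j Z w))) : ℕ) : ℤ) *
      tw p ν j Z.X w g = 0 := by
    have h2 : ∑ w : Wt Z.X L, ((min (e (toEmb j Z w)) (e (conjE (toEmb j Z w))) : ℕ) : ℤ) *
      tw p ν j Z.X w g = -∑ w : Wt Z.X L, ((min (e (toEmb j Z w))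
        (e (conjE (toEmb j Z w))) : ℕ) : ℤ) * tw p ν j Z.X w g := by
      rw [← Finset.sum_neg_distrib]
      refine Fintype.sum_equiv (Function.Involutive.toPerm (cw Z) cw_cw) _ _ fun w => ?_
      change _ = -(((min (e (toEmb j Z (cw Z w))) (e (conjE (toEmb j Z (cw Z w)))) : ℕ) : ℤ) *
        tw p ν j Z.X (cw Z w) g)
      rw [toEmb_cw, conjE_conjE, tw_cw, Pi.neg_apply, min_comm]
      ring
    omega
  have h3 := he g
  have h4 : ∑ w : Wt Z.X L, (e (toEmb j Z w) : ℤ) * tw p ν j Z.X w g =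
      ∑ w : Wt Z.X L, (((oddE e (toEmb j Z w)).toNat : ℕ) : ℤ) * tw p ν j Z.X w g +
      ∑ w : Wt Z.X L, ((min (e (toEmb j Z w)) (e (conjE (toEmb j Z w))) : ℕ) : ℤ) *
        tw p ν j Z.X w g := by
    rw [← Finset.sum_add_distrib]
    refine Finset.sum_congr rfl fun w _ => ?_
    rw [← add_mul, ← hw]
  rw [h4, h1, add_zero] at h3
  exact h3

/-- Relations of rank one are defined over an imaginary quadratic field. -/
theorem quad_of_rank_one {Z : RedAV p ν} (hr : HasRankOneRelations Z) :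
    ∃ (K : Type) (_ : Field K) (_ : NumberField K) (_ : IsCMField K) (_ : finrank ℚ K = 2)
      (κ : K →+* ℂ), HasQuadRelE κ Z := by
  classical
  by_cases h0 : ∀ e, IsRel Z e → ∀ w, oddE e w = 0
  · obtain ⟨κ⟩ : Nonempty ((kp p).E →+* ℂ) := inferInstance
    refine ⟨(kp p).E, inferInstance, inferInstance, inferInstance, finrank_kp p, κ, ?_⟩
    intro e he
    refine sym_mem _ (fun n h1 h2 => ?_) e fun w => ?_
    · exact ⟨n, h1, Or.inl h2, fun w => rfl⟩
    · have h1 := h0 e he w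
      unfold oddE at h1
      omega
  push Not at h0
  obtain ⟨e0, he0, w0, hw0⟩ := h0
  have hne : Nonempty (Z.X.prod (single (kp p))).I := ⟨Sum.inr ()⟩
  obtain ⟨L, _, _, _, _, j, hj⟩ := exists_cm (Z.X.prod (single (kp p)))
  have hZ : Big Z.X j := fun i ψ => hj (Sum.inl i) ψ
  have hfin := finite_wt j hZ
  let _ : Fintype (Wt Z.X L) := Fintype.ofFinite _
  have hbij := toEmb_bijective (j := j) hZ
  let a : Wt Z.X L → ℤ := fun w => oddE e0 (toEmb j Z w)
  have ha : ∀ (σ : L ≃ₐ[ℚ] L) (w w' : Wt Z.X L), a (sw σ w) * a w' = a (sw σ w') * a w := by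
    intro σ w w'
    have h1 := hr _ _ (isRel_actE hZ σ he0) he0 (toEmb j Z w) (toEmb j Z w')
    rw [oddE_actE, oddE_actE] at h1
    exact h1
  have hcw : ∀ w, a (cw Z w) = -a w := by
    intro w
    change oddE e0 (toEmb j Z (cw Z w)) = -oddE e0 (toEmb j Z w)
    rw [toEmb_cw, oddE_conj]
  obtain ⟨v0, hv0⟩ := hbij.2 w0
  have hv0' : a v0 ≠ 0 := by
    change oddE e0 (toEmb j Z v0) ≠ 0
    rw [hv0]
    exact hw0
  have : Nonempty (Wt Z.X L) := ⟨v0⟩
  obtain ⟨w1, hw1⟩ := Finite.exists_max fun w => |a w|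
  have hw1' : a w1 ≠ 0 := by
    intro h
    have h1 := hw1 v0
    rw [h, abs_zero] at h1
    exact hv0' (abs_nonpos_iff.1 h1)
  have hpm : ∀ σ : L ≃ₐ[ℚ] L, (∀ w, a (sw σ w) = a w) ∨ ∀ w, a (sw σ w) = -a w := by
    intro σ
    have h1 := ha σ w1 (sw σ⁻¹ w1)
    have h2 : sw σ (sw σ⁻¹ w1) = w1 := by rw [← sw_mul, mul_inv_cancel, sw_one]
    rw [h2] at h1
    have h3 : |a (sw σ w1)| * |a (sw σ⁻¹ w1)| = |a w1| * |a w1| := by
      rw [← abs_mul, ← abs_mul, h1]
    have h4 := hw1 (sw σ w1)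
    have h5 := hw1 (sw σ⁻¹ w1)
    have h6 : 0 < |a w1| := abs_pos.2 hw1'
    have h7 : |a (sw σ w1)| = |a w1| := by
      by_contra hne
      have h8 : |a (sw σ w1)| < |a w1| := lt_of_le_of_ne h4 hne
      have h9 : 0 ≤ |a (sw σ w1)| := abs_nonneg _
      nlinarith
    rcases abs_eq_abs.1 h7 with h8 | h8
    · refine Or.inl fun w => ?_
      have h9 := ha σ w1 w
      rw [h8] at h9
      exact (mul_left_cancel₀ hw1' (by linarith)).symm
    · refine Or.inr fun w => ?_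
      have h9 := ha σ w1 w
      rw [h8] at h9
      have h10 : a w1 * a (sw σ w) = a w1 * -a w := by linarith
      exact mul_left_cancel₀ hw1' h10
  let N : Subgroup (L ≃ₐ[ℚ] L) :=
    { carrier := {σ | ∀ w, a (sw σ w) = a w}
      one_mem' := fun w => by rw [sw_one]
      mul_mem' := by
        intro σ τ h1 h2 w
        have h1' : ∀ w, a (sw σ w) = a w := h1
        have h2' : ∀ w, a (sw τ w) = a w := h2
        rw [sw_mul, h1', h2']
      inv_mem' := by
        intro σ h1 w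
        have h1' : ∀ w, a (sw σ w) = a w := h1
        rw [← h1' (sw σ⁻¹ w), ← sw_mul, mul_inv_cancel, sw_one] }
  have hmemN : ∀ σ, σ ∈ N ↔ ∀ w, a (sw σ w) = a w := fun σ => Iff.rfl
  have hN : IsImag N := by
    constructor
    · intro h
      have h1 : a (cw Z w1) = a w1 := h w1
      rw [hcw] at h1
      omega
    · intro τ hτ w
      have h1 : ∀ w, a (sw τ w) = -a w := (hpm τ).resolve_left hτ
      have h2 : sw (cc L * τ) w = cw Z (sw τ w) := sw_cc τ w
      rw [h2, hcw, h1, neg_neg]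
  have hS : IsHalf (N : Set (L ≃ₐ[ℚ] L)) := by
    intro σ
    change σ ∈ N ↔ ¬ (cc L * σ ∈ N)
    rw [hN.mul_mem_iff j]
    have := hN.1
    tauto
  have hstab : ∀ τ, τ ∈ stab (N : Set (L ≃ₐ[ℚ] L)) ↔ τ ∈ N := by
    intro τ
    rw [mem_stab]
    constructor
    · intro h
      have h1 : (1 : L ≃ₐ[ℚ] L) ∈ tr τ (N : Set (L ≃ₐ[ℚ] L)) := by
        rw [h]
        exact N.one_mem
      rw [mem_tr, one_mul] at h1
      exact h1
    · intro h
      ext σ
      rw [mem_tr]
      exact N.mul_mem_cancel_right h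
  have hCM : IsCMField (fld (N : Set (L ≃ₐ[ℚ] L))) := isCM_fld j hS
  let κ : fld (N : Set (L ≃ₐ[ℚ] L)) →+* ℂ := j.comp (emb (N : Set (L ≃ₐ[ℚ] L)) 1)
  have hfix : ∀ x : fld (N : Set (L ≃ₐ[ℚ] L)), κ x = j x := fun x => rfl
  have htwo : finrank ℚ (fld (N : Set (L ≃ₐ[ℚ] L))) = 2 := by
    have h1 : ({κ, ComplexEmbedding.conjugate κ} :
        Finset (fld (N : Set (L ≃ₐ[ℚ] L)) →+* ℂ)) = Finset.univ := by
      refine Finset.eq_univ_iff_forall.2 fun ψ => ?_
      rw [Finset.mem_insert, Finset.mem_singleton]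
      obtain ⟨τ, rfl⟩ := exists_embC j (N : Set (L ≃ₐ[ℚ] L)) ψ
      by_cases hτ : τ ∈ N
      · left
        have h2 : emb (N : Set (L ≃ₐ[ℚ] L)) τ = emb (N : Set (L ≃ₐ[ℚ] L)) 1 := by
          rw [emb_eq_iff, tr_one]
          exact (hstab τ).2 hτ
        rw [h2]
      · right
        have h2 : emb (N : Set (L ≃ₐ[ℚ] L)) (cc L * τ) = emb (N : Set (L ≃ₐ[ℚ] L)) 1 := by
          rw [emb_eq_iff, tr_one]
          exact (hstab _).2 (hN.2 τ hτ)
        change _ = ComplexEmbedding.conjugate (j.comp (emb (N : Set (L ≃ₐ[ℚ] L)) 1))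
        rw [← h2, ← conj_emb]
        exact (star_star _).symm
    rw [← Embeddings.card (fld (N : Set (L ≃ₐ[ℚ] L))) ℂ, ← Finset.card_univ, ← h1,
      Finset.card_pair (conj_ne κ).symm]
  refine ⟨fld (N : Set (L ≃ₐ[ℚ] L)), inferInstance, inferInstance, hCM, htwo, κ, ?_⟩
  intro e he
  obtain ⟨h1, h2⟩ := split_rel he
  have h3 : (fun w => (e w : ℤ)) = (fun w => (((oddE e w).toNat : ℕ) : ℤ)) +
      fun w => ((min (e w) (e (conjE w)) : ℕ) : ℤ) := funext h2
  rw [h3]
  refine AddSubgroup.add_mem _ (AddSubgroup.subset_closure ⟨_, h1, Or.inr ?_, fun w => rfl⟩)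
    (sym_mem _ (fun n h1 h2 => ?_) _ fun w => by
      rw [conjE_conjE, min_comm])
  swap
  · exact ⟨n, h1, Or.inl h2, fun w => rfl⟩
  intro τ hτ w
  obtain ⟨v, rfl⟩ := hbij.2 w
  obtain ⟨σ, hσ⟩ := exists_aut (j := j) ((τ : ℂ →+* ℂ).comp j)
  have hσN : σ ∈ N := by
    rw [← hstab, mem_stab_iff]
    intro x hx
    apply j.injective
    rw [hσ]
    exact hτ ⟨x, hx⟩
  have h4 : (⟨(toEmb j Z v).1, (τ : ℂ →+* ℂ).comp (toEmb j Z v).2⟩ : Emb Z) =
      toEmb j Z (sw σ v) := by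
    refine Sigma.ext rfl (heq_of_eq ?_)
    ext x
    exact (hσ (v.2 x)).symm
  rw [h4]
  have h5 := hr e e0 he he0 (toEmb j Z (sw σ v)) (toEmb j Z w1)
  have h6 := hr e e0 he he0 (toEmb j Z v) (toEmb j Z w1)
  have h7 : a (sw σ v) = a v := hσN v
  have h8 : oddE e (toEmb j Z (sw σ v)) = oddE e (toEmb j Z v) := by
    have e1 : oddE e (toEmb j Z (sw σ v)) * a w1 = oddE e (toEmb j Z w1) * a (sw σ v) := h5
    have e2 : oddE e (toEmb j Z v) * a w1 = oddE e (toEmb j Z w1) * a v := h6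
    rw [h7, ← e2] at e1
    exact mul_right_cancel₀ hw1' e1
  exact congrArg Int.toNat h8

end

end Pool.Agent.N202.QR
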