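import Pool.Agent.N202.QR.JWord
import Pool.Agent.N202.QR.Ext
import Pool.Agent.W287.TB.SS2

/-!
# Relations generated by elementary relations and by relations defined over an imaginary quadratic
field
-/

set_option autoImplicit false
set_option linter.unusedSectionVars false
set_option linter.unusedVariables false

namespace Pool.Agent.N202.QR

open NumberField Pool.Agent.H204R3.CM Pool.Agent.W547.KB Pool.Agent.W547.LD Pool.Agent.W547.HR
  Pool.Agent.W495.TA Module Pool.Agent.TH117.PO Pool.Agent.W976.TA Pool.Agent.W417.TA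
  Pool.Agent.TH117.BL Pool.Agent.W495.TC Pool.Agent.W495.TB Pool.Agent.TH117.F5
open scoped TensorProduct

noncomputable section

variable {p : ℕ} [Fact p.Prime] {ν : PadicAlgCl p ≃+* ℂ}

/-- The multiplicative relations between the Frobenius eigenvalues are products of elementary
relations, of relations which are invariant under the automorphisms over `K`, and of inverses of such
relations. -/
def HasQuadRelE {K : Type} [Field K] (κ : K →+* ℂ) (Z : RedAV p ν) : Prop :=
  ∀ e : Emb Z → ℕ, IsRel Z e → (fun w => (e w : ℤ)) ∈ AddSubgroup.closure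
    {d : Emb Z → ℤ | ∃ n : Emb Z → ℕ, IsRel Z n ∧ (IsElementary Z n ∨ IsInvariant κ Z n) ∧
      ∀ w, d w = n w}

section DDl

variable {G Λ : Type} [Fintype Λ] (T : Λ → G → ℤ) (c : Λ → Λ) (hc : ∀ l, c (c l) = l)
  (hodd : ∀ l, T (c l) = -T l)

include hc hodd in
theorem DD_conj (e : Λ → ℤ) : DD T (fun l => e (c l)) = -DD T e := by
  classical
  funext f
  unfold DD
  rw [Pi.neg_apply, ← Finset.sum_neg_distrib]
  refine Fintype.sum_equiv (Function.Involutive.toPerm c hc) _ _ fun l => ?_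
  change e (c l) * _ = -(e (c l) * ((if T (c l) = f then 1 else 0) - if T (c l) = -f then 1 else 0))
  rw [hodd]
  have h1 : -T l = f ↔ T l = -f := neg_eq_iff_eq_neg
  have h2 : -T l = -f ↔ T l = f := neg_inj
  simp only [h1, h2]
  ring

theorem cnt_elim {κ κ' : Type} [Finite κ] [Finite κ'] (w : κ → Option Λ) (w' : κ' → Option Λ) :
    Pool.Agent.TH117.BL.cnt (Sum.elim w w') = Pool.Agent.TH117.BL.cnt w + Pool.Agent.TH117.BL.cnt w' := by
  classical
  have := Fintype.ofFinite κ
  have := Fintype.ofFinite κ'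
  funext l
  rw [Pi.add_apply]
  unfold Pool.Agent.TH117.BL.cnt
  rw [card_eq_sum, card_eq_sum, card_eq_sum, Fintype.sum_sum_type]
  rfl

theorem cnt_map (hc : ∀ l, c (c l) = l) {κ : Type} (w : κ → Option Λ) :
    Pool.Agent.TH117.BL.cnt (fun k => (w k).map c) = fun l => Pool.Agent.TH117.BL.cnt w (c l) := by
  funext l
  unfold Pool.Agent.TH117.BL.cnt
  congr 1
  refine Nat.card_congr (Equiv.subtypeEquivRight fun k => ?_)
  constructor
  · intro h
    obtain ⟨a, h1, h2⟩ := Option.map_eq_some_iff.1 h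
    rw [h1, ← h2, hc]
  · intro h
    dsimp only
    rw [h, Option.map_some, hc]

theorem ext0_map (hodd : ∀ l, T (c l) = -T l) (o : Option Λ) :
    ext0 T (o.map c) = -ext0 T o := by
  rcases o with _ | l
  · exact neg_zero.symm
  · exact hodd l

/-- Labels with given multiplicities, and some labels `none`. -/
def fl' (e : Λ → ℕ) (h : ℕ) : (Σ l, Fin (e l)) ⊕ Fin h → Option Λ :=
  Sum.elim (fun k => some k.1) fun _ => none

theorem cnt_fl' (e : Λ → ℕ) (h : ℕ) : Pool.Agent.TH117.BL.cnt (fl' e h) = fun l => (e l : ℤ) := by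
  classical
  funext l
  unfold Pool.Agent.TH117.BL.cnt
  have h1 : {k // fl' e h k = some l} ≃ Fin (e l) :=
    { toFun := fun k => match k with
        | ⟨Sum.inl ⟨l', i⟩, h⟩ => Fin.cast (by
            have h2 : l' = l := Option.some_injective _ h
            rw [h2]) i
        | ⟨Sum.inr _, h⟩ => absurd h (by simp [fl'])
      invFun := fun i => ⟨Sum.inl ⟨l, i⟩, rfl⟩
      left_inv := by
        rintro ⟨⟨l', i⟩ | i, h⟩
        · have h2 : l' = l := Option.some_injective _ h
          subst h2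
          rfl
        · exact absurd h (by simp [fl'])
      right_inv := fun i => rfl }
  rw [Nat.card_congr h1, Nat.card_eq_fintype_card, Fintype.card_fin]

end DDl

section

variable {Ω : Type} [Field Ω] [CharZero Ω]
  {L : Type} [Field L] [NumberField L] [IsCMField L] [IsGalois ℚ L] {j : L →+* ℂ} (jO : L →+* Ω)
  {Z : RedAV p ν}

theorem cw_cw (l : Wt Z.X L) : cw Z (cw Z l) = l := bar_bar l

/-- The invariance in terms of the weights. -/
theorem inv_wt {K : Type} [Field K] {κ : K →+* ℂ} {κL : K →+* L} (hκ : j.comp κL = κ)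
    {n : Emb Z → ℕ} (hn : IsInvariant κ Z n) (σ : L ≃ₐ[ℚ] L) (hσ : ∀ x, σ (κL x) = κL x)
    (w : Wt Z.X L) : n (toEmb j Z (sw σ w)) = n (toEmb j Z w) := by
  obtain ⟨τ, hτ⟩ := exists_extend j σ
  have h1 := hn τ (fun x => by
    rw [← hκ]
    change τ (j (κL x)) = j (κL x)
    rw [hτ, hσ]) (toEmb j Z w)
  rw [← h1]
  congr 1
  refine Sigma.ext rfl (heq_of_eq ?_)
  ext x
  exact (hτ (w.2 x)).symm

/-- The decomposition of a relation. -/
theorem rel_decomp (hZ : Big Z.X j) (hkp : BigA (kp p) j) [Fintype (Wt Z.X L)] {K : Type} [Field K]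
    {κ : K →+* ℂ} {κL : K →+* L} (hκ : j.comp κL = κ) (d : Emb Z → ℤ)
    (hd : d ∈ AddSubgroup.closure {d : Emb Z → ℤ | ∃ n : Emb Z → ℕ, IsRel Z n ∧
      (IsElementary Z n ∨ IsInvariant κ Z n) ∧ ∀ w, d w = n w}) :
    ∃ n : Wt Z.X L → ℕ, (∀ σ : L ≃ₐ[ℚ] L, (∀ x, σ (κL x) = κL x) → ∀ w, n (sw σ w) = n w) ∧
      (∀ g, ∑ w, (n w : ℤ) * tw p ν j Z.X w g = 0) ∧
      GenD (AlgM p ν j jO) (Set.range (ext0 (tw p ν j Z.X)))
        (DD (tw p ν j Z.X) (fun l => d (toEmb j Z l)) -
          DD (tw p ν j Z.X) fun l => (n l : ℤ)) := by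
  classical
  have hbij := toEmb_bijective (j := j) hZ
  let E : Wt Z.X L ≃ Emb Z := Equiv.ofBijective _ hbij
  have hzero : ∃ n : Wt Z.X L → ℕ, (∀ σ : L ≃ₐ[ℚ] L, (∀ x, σ (κL x) = κL x) →
      ∀ w, n (sw σ w) = n w) ∧ (∀ g, ∑ w, (n w : ℤ) * tw p ν j Z.X w g = 0) ∧
        DD (tw p ν j Z.X) (fun l => (n l : ℤ)) = 0 := by
    refine ⟨fun _ => 0, fun _ _ _ => rfl, fun g => by simp, ?_⟩
    have h4 : (fun l : Wt Z.X L => ((0 : ℕ) : ℤ)) = 0 := by
      funext l
      simp
    rw [h4, DD_zero]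
  induction hd using AddSubgroup.closure_induction with
  | mem d hd =>
    obtain ⟨n, h0, h2, h3⟩ := hd
    have h1 := (isRel_iff hZ n).1 h0
    have h4 : (fun l => d (toEmb j Z l)) = fun l : Wt Z.X L => (n (toEmb j Z l) : ℤ) :=
      funext fun l => h3 _
    rw [h4]
    rcases h2 with h2 | h2
    · obtain ⟨m, h5, h6, h7⟩ := hzero
      refine ⟨m, h5, h6, ?_⟩
      rw [h7, sub_zero]
      rcases h2 with h2 | ⟨S, hS, h2⟩ | h2
      · rw [DD_small (tw p ν j Z.X) (fun l => n (toEmb j Z l)) (by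
          rw [← Equiv.sum_comp E] at h2
          exact h2) h1]
        exact GenD.zero
      · exact genD_of_good (cw Z) (tw p ν j Z.X) tw_cw (fam_set jO hZ hkp S hS)
          (fun l => n (toEmb j Z l)) (fun l hl => h2 _ hl) h1
      · exact genD_weil jO hZ hkp n h0 h2
    · refine ⟨fun l => n (toEmb j Z l), fun σ hσ w => inv_wt hκ h2 σ hσ w, h1, ?_⟩
      rw [sub_self]
      exact GenD.zero
  | zero =>
    obtain ⟨m, h5, h6, h7⟩ := hzero
    refine ⟨m, h5, h6, ?_⟩
    have h4 : (fun l : Wt Z.X L => (0 : Emb Z → ℤ) (toEmb j Z l)) = 0 := rfl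
    rw [h4, DD_zero, h7, sub_zero]
    exact GenD.zero
  | add d d' _ _ h h' =>
    obtain ⟨m, h1, h2, h3⟩ := h
    obtain ⟨m', h1', h2', h3'⟩ := h'
    refine ⟨m + m', fun σ hσ w => ?_, fun g => ?_, ?_⟩
    · rw [Pi.add_apply, Pi.add_apply, h1 σ hσ, h1' σ hσ]
    · have h4 : ∀ w, ((m + m') w : ℤ) * tw p ν j Z.X w g =
          (m w : ℤ) * tw p ν j Z.X w g + (m' w : ℤ) * tw p ν j Z.X w g := by
        intro w
        rw [Pi.add_apply]
        push_cast
        ring
      rw [Finset.sum_congr rfl fun w _ => h4 w, Finset.sum_add_distrib, h2, h2', add_zero]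
    · have h4 : (fun l : Wt Z.X L => (d + d') (toEmb j Z l)) =
        (fun l => d (toEmb j Z l)) + fun l => d' (toEmb j Z l) := rfl
      have h5 : (fun l : Wt Z.X L => (((m + m') l : ℕ) : ℤ)) =
          (fun l => (m l : ℤ)) + fun l => (m' l : ℤ) := by
        funext l
        simp
      rw [h4, h5, DD_add, DD_add, add_sub_add_comm]
      exact h3.add h3'
  | neg d _ h =>
    obtain ⟨m, h1, h2, h3⟩ := h
    refine ⟨fun l => m (cw Z l), fun σ hσ w => ?_, fun g => ?_, ?_⟩
    · have h4 : cw Z (sw σ w) = sw σ (cw Z w) := by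
        have h5 : cw Z (sw σ w) = sw (cc L) (sw σ w) := rfl
        have h6 : cw Z w = sw (cc L) w := rfl
        rw [h5, h6, ← sw_mul, ← sw_mul, cc_comm j]
      dsimp only
      rw [h4, h1 σ hσ]
    · rw [← neg_zero, ← h2 g, ← Finset.sum_neg_distrib]
      refine Fintype.sum_equiv (Function.Involutive.toPerm (cw Z) cw_cw) _ _ fun w => ?_
      change (m (cw Z w) : ℤ) * _ = -((m (cw Z w) : ℤ) * tw p ν j Z.X (cw Z w) g)
      rw [tw_cw, Pi.neg_apply]
      ring
    · have h4 : (fun l : Wt Z.X L => (-d) (toEmb j Z l)) = -fun l => d (toEmb j Z l) := rfl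
      rw [h4, DD_neg, DD_conj (tw p ν j Z.X) (cw Z) cw_cw tw_cw (fun l => (m l : ℤ)),
        ← neg_sub', ]
      exact h3.neg

end

end

end Pool.Agent.N202.QR
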