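import Pool.Agent.N202.QR.Fam2

/-!
# Compatible systems of classes of cycles, and words of Hodge type
-/

set_option autoImplicit false
set_option linter.unusedSectionVars false
set_option linter.unusedVariables false

namespace Pool.Agent.N202.QR

open NumberField Pool.Agent.H204R3.CM Pool.Agent.W547.KB Pool.Agent.W547.LD Pool.Agent.W547.HR
  Pool.Agent.W495.TA Module Pool.Agent.TH117.PO Pool.Agent.W976.TA
open scoped TensorProduct

noncomputable section

variable {p : ℕ} [Fact p.Prime] {ν : PadicAlgCl p ≃+* ℂ}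

/-! ### Repeating the classes -/

section

variable {T G : Type} {Ω : T → Type} [∀ i, Field (Ω i)] [∀ i, CharZero (Ω i)]

/-- The families of a set, repeated. -/
def rep (G : Type) (C : (Y : RedAV p ν) → (κ : Type) → FCl Ω Y κ → Prop) (Y : RedAV p ν)
    (κ : Type) (z : FCl (fun i : T × G => Ω i.1) Y κ) : Prop :=
  ∃ w, C Y κ w ∧ ∀ i, z i = w i.1

theorem IsFam.rep {C : (Y : RedAV p ν) → (κ : Type) → FCl Ω Y κ → Prop} (hC : IsFam Ω C) (g : G) :
    IsFam (fun i : T × G => Ω i.1) (rep G C) where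
  reindex e f hf := by
    obtain ⟨w, hw, h⟩ := hf
    exact ⟨_, hC.reindex e w hw, fun i => by dsimp only; rw [h]⟩
  unit := by
    intro Y κ _ f hf
    refine ⟨fun i => AlternatingMap.constOfIsEmpty (Ω i) _ _ 1, hC.unit _ fun i v => rfl,
      fun i => ?_⟩
    refine AlternatingMap.ext fun v => ?_
    rw [hf]
    rfl
  cup := by
    intro Y κ κ' _ _ _ _ f g hf hg h hh
    obtain ⟨w, hw, h1⟩ := hf
    obtain ⟨w', hw', h2⟩ := hg
    refine ⟨fun i => cupO (w i) (w' i), hC.cup w w' hw hw' _ fun i v => cupO_apply _ _ v,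
      fun i => ?_⟩
    refine AlternatingMap.ext fun v => ?_
    rw [hh, h1, h2, cupO_apply]
  pull := by
    intro Y Z κ h hh f hf
    obtain ⟨w, hw, h1⟩ := hf
    exact ⟨_, hC.pull h hh w hw, fun i => by dsimp only; rw [h1]⟩
  top := by
    intro Y κ f hκ hf v
    obtain ⟨w, hw, h1⟩ := hf
    obtain ⟨a, ha⟩ := hC.top w hκ hw v
    exact ⟨a, fun i => by rw [h1]; exact ha i.1⟩
  hodge := by
    intro Y f hf g' hg
    refine ⟨fun i => g' (i, g), hC.hodge f hf _ fun i v => hg (i, g) v, fun i => ?_⟩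
    refine ext_res fun v => ?_
    rw [hg]
    exact (hg (i.1, g) v).symm

end

/-! ### Mixed intersection numbers -/

section

variable {Ω : Nat.Primes → Type} [∀ l, Field (Ω l)] [∀ l, CharZero (Ω l)]
  [∀ l : Nat.Primes, Algebra ℚ_[(l : ℕ)] (Ω l)] {L : Type} [Field L] [NumberField L]
  {C : (Y : RedAV p ν) → (κ : Type) → FCl Ω Y κ → Prop}

/-- The embeddings of `L`. -/
def jS (jO : ∀ l, L →+* Ω l) (i : Nat.Primes × (L ≃ₐ[ℚ] L)) : L →+* Ω i.1 :=
  (jO i.1).comp (i.2 : L →+* L)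

theorem jS_apply (jO : ∀ l, L →+* Ω l) (i : Nat.Primes × (L ≃ₐ[ℚ] L)) (x : L) :
    jS jO i x = jO i.1 (i.2 x) := rfl

/-- Combinations of conjugates, with `l`-adic coefficients. -/
def SS (jO : ∀ l, L →+* Ω l) (l : Nat.Primes) : AddSubgroup ((L ≃ₐ[ℚ] L) → Ω l) :=
  AddSubgroup.closure {x | ∃ (m : L) (q : ℚ_[(l : ℕ)]), ∀ σ, x σ = jO l (σ m) *
    algebraMap ℚ_[(l : ℕ)] (Ω l) q}

theorem SS_smul (jO : ∀ l, L →+* Ω l) (l : Nat.Primes) (m : L) {x : (L ≃ₐ[ℚ] L) → Ω l}
    (hx : x ∈ SS jO l) : (fun σ => jO l (σ m) * x σ) ∈ SS jO l := by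
  induction hx using AddSubgroup.closure_induction with
  | mem x hx =>
    obtain ⟨n, q, h⟩ := hx
    refine AddSubgroup.subset_closure ⟨m * n, q, fun σ => ?_⟩
    dsimp only
    rw [h, map_mul, map_mul]
    ring
  | zero =>
    have h : (fun σ : L ≃ₐ[ℚ] L => jO l (σ m) * (0 : (L ≃ₐ[ℚ] L) → Ω l) σ) = 0 := by
      funext σ
      simp
    rw [h]
    exact AddSubgroup.zero_mem _
  | add x y _ _ h1 h2 =>
    have h : (fun σ : L ≃ₐ[ℚ] L => jO l (σ m) * (x + y) σ) =
        (fun σ => jO l (σ m) * x σ) + fun σ => jO l (σ m) * y σ := by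
      funext σ
      simp [mul_add]
    rw [h]
    exact AddSubgroup.add_mem _ h1 h2
  | neg x _ h1 =>
    have h : (fun σ : L ≃ₐ[ℚ] L => jO l (σ m) * (-x) σ) = -fun σ => jO l (σ m) * x σ := by
      funext σ
      simp
    rw [h]
    exact AddSubgroup.neg_mem _ h1

variable (hC : IsCompatible Ω C)
include hC

theorem mixed_top [IsCMField L] [IsGalois ℚ L] (jO : ∀ l, L →+* Ω l) (j : L →+* ℂ)
    {Y : RedAV p ν} {κ κ' : Type} [Fintype κ]
    [DecidableEq κ] [Fintype κ'] [DecidableEq κ'] {F : WF (jS jO) Y κ}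
    (hF : F ∈ VF (rep (L ≃ₐ[ℚ] L) C) (jS jO) Y κ) {I : κ' → Wt Y.X L}
    (hI : Balanced (fun k => St j (I k)))
    (hcard : Fintype.card κ + Fintype.card κ' = finrank ℚ Y.X.H1) (l : Nat.Primes)
    (v : κ ⊕ κ' → Y.X.H1) :
    (fun σ => cupF (F.val (l, σ)) (fun u => jO l (σ (mono I u))) v) ∈ SS jO l := by
  classical
  unfold VF at hF
  induction hF using Submodule.span_induction with
  | mem F hF =>
    obtain ⟨z, ⟨w, hw, hz⟩, rfl⟩ := hF
    obtain ⟨n, a, b, hab⟩ := exists_dual L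
    choose q hq using fun t : Fin n => hC.mixed w (trForm (a t) I) hw
      (isHodge_trForm j I hI (a t)) hcard l v
    have h1 : (fun σ : L ≃ₐ[ℚ] L => cupF (res (z (l, σ))) (fun u => jO l (σ (mono I u))) v) =
        ∑ t, fun σ : L ≃ₐ[ℚ] L => jO l (σ (b t)) * algebraMap ℚ_[(l : ℕ)] (Ω l) (q t) := by
      funext σ
      rw [Finset.sum_apply]
      have h2 : ∀ u, jO l (σ (mono I u)) =
          ∑ t, jO l (σ (b t)) * ((trForm (a t) I u : ℚ) : Ω l) := by
        intro u
        conv_lhs => rw [hab (mono I u)]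
        rw [map_sum, map_sum]
        refine Finset.sum_congr rfl fun t _ => ?_
        rw [map_mul, map_mul, map_ratCast, map_ratCast]
        rfl
      have h3 : cupF (res (z (l, σ))) (fun u => jO l (σ (mono I u))) v =
          ∑ t, jO l (σ (b t)) * altSum (times (res (w l)) fun u =>
            ((trForm (a t) I u : ℚ) : Ω l)) v := by
        rw [hz]
        unfold cupF altSum times
        simp only [h2, Finset.mul_sum]
        rw [Finset.sum_comm]
        refine Finset.sum_congr rfl fun t _ => Finset.sum_congr rfl fun τ _ => ?_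
        ring
      rw [h3]
      exact Finset.sum_congr rfl fun t _ => by rw [hq]
    rw [h1]
    exact AddSubgroup.sum_mem _ fun t _ => AddSubgroup.subset_closure ⟨b t, q t, fun σ => rfl⟩
  | zero =>
    have h : (fun σ : L ≃ₐ[ℚ] L => cupF ((0 : WF (jS jO) Y κ).val (l, σ))
        (fun u => jO l (σ (mono I u))) v) = 0 := by
      funext σ
      simp [cupF, altSum, times]
    rw [h]
    exact AddSubgroup.zero_mem _
  | add F G _ _ h1 h2 =>
    have h : (fun σ : L ≃ₐ[ℚ] L => cupF ((F + G).val (l, σ)) (fun u => jO l (σ (mono I u))) v) =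
        (fun σ => cupF (F.val (l, σ)) (fun u => jO l (σ (mono I u))) v) +
          fun σ => cupF (G.val (l, σ)) (fun u => jO l (σ (mono I u))) v := by
      funext σ
      simp only [cupF, altSum, times, WF.add_val, Pi.add_apply, add_mul, mul_add,
        Finset.sum_add_distrib]
    rw [h]
    exact AddSubgroup.add_mem _ h1 h2
  | smul m F _ h1 =>
    have h : (fun σ : L ≃ₐ[ℚ] L => cupF ((m • F).val (l, σ)) (fun u => jO l (σ (mono I u))) v) =
        fun σ => jO l (σ m) * cupF (F.val (l, σ)) (fun u => jO l (σ (mono I u))) v := by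
      funext σ
      simp only [cupF, altSum, times, WF.smul_val, jS_apply, Finset.mul_sum]
      exact Finset.sum_congr rfl fun τ _ => by ring
    rw [h]
    exact SS_smul jO l m h1

/-- The coefficients of a line whose monomial has Hodge type. -/
theorem coef_mem [IsCMField L] [IsGalois ℚ L] (jO : ∀ l, L →+* Ω l) (j : L →+* ℂ)
    {Y : RedAV p ν} (hB : Big Y.X j) {κ : Type} [Fintype κ] [DecidableEq κ] {I : κ → Wt Y.X L}
    (hI : Function.Injective I) (hbal : Balanced (fun k => St j (I k)))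
    {c : ∀ i : Nat.Primes × (L ≃ₐ[ℚ] L), Ω i.1}
    (h : LnF (rep (L ≃ₐ[ℚ] L) C) (jS jO) Y I c) (l : Nat.Primes) :
    (fun σ => c (l, σ)) ∈ SS jO l := by
  classical
  have hC' : IsFam (fun i : Nat.Primes × (L ≃ₐ[ℚ] L) => Ω i.1) (rep (L ≃ₐ[ℚ] L) C) :=
    hC.toIsFam.rep 1
  have : Finite (Wt Y.X L) := Pool.Agent.W67.TA.finite_wt j hB
  let _ : Fintype (Wt Y.X L) := Fintype.ofFinite _
  let P := prodR Y Y
  have hP : Big P.X j := big_prodR hB hB
  have h1 : LnF (rep (L ≃ₐ[ℚ] L) C) (jS jO) P (fun k => inlW (I k)) c :=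
    LnF.types hC' j (Y := P) (I := fun k => inlW (I k)) hI (fun k => rfl) h
  let R : Type := {w : Wt Y.X L // w ∉ Set.range I} × Fin 2
  let _ : DecidableEq R :=
    inferInstanceAs (DecidableEq ({w : Wt Y.X L // w ∉ Set.range I} × Fin 2))
  let _ : Fintype R := inferInstanceAs (Fintype ({w : Wt Y.X L // w ∉ Set.range I} × Fin 2))
  let K : κ ⊕ R → Wt P.X L := Sum.elim (fun k => inrW (bar (I k))) (restK I)
  -- the second word has Hodge type
  have hbar : ∀ (σ : L ≃ₐ[ℚ] L) (w : Wt Y.X L), σ ∈ St j (bar w) ↔ σ ∉ St j w := by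
    intro σ w
    change j.comp (σ • (cc L • w.2)) ∈ (Y.X.factor w.1).Φ ↔
      ¬ (j.comp (σ • w.2) ∈ (Y.X.factor w.1).Φ)
    have h2 : σ • (cc L • w.2) = cc L • (σ • w.2) := by
      rw [← mul_smul, ← mul_smul, cc_comm j]
    rw [h2, comp_conj]
    have h3 := (Y.X.factor w.1).isCMType (j.comp (σ • w.2))
    constructor
    · intro h4 h5
      exact (h3.1 h5) h4
    · intro h4
      by_contra h5
      exact h4 (h3.2 h5)
  have hsg : ∀ (σ : L ≃ₐ[ℚ] L) (w : Wt Y.X L), (if σ ∈ St j (bar w) then (1 : ℤ) else -1) =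
      -(if σ ∈ St j w then (1 : ℤ) else -1) := by
    intro σ w
    by_cases h2 : σ ∈ St j w
    · rw [if_pos h2, if_neg fun h => ((hbar σ w).1 h) h2]
    · rw [if_neg h2, if_pos ((hbar σ w).2 h2), neg_neg]
  have hK : Balanced (fun k => St j (K k)) := by
    intro σ
    rw [Fintype.sum_sum_type]
    have e1 : ∑ k : κ, (if σ ∈ St j (K (Sum.inl k)) then (1 : ℤ) else -1) = 0 := by
      have e2 : ∀ k : κ, (if σ ∈ St j (K (Sum.inl k)) then (1 : ℤ) else -1) =
          -(if σ ∈ St j (I k) then (1 : ℤ) else -1) := fun k => hsg σ (I k)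
      rw [Finset.sum_congr rfl fun k _ => e2 k, Finset.sum_neg_distrib, hbal σ, neg_zero]
    have e3 : ∑ k : R, (if σ ∈ St j (K (Sum.inr k)) then (1 : ℤ) else -1) = 0 := by
      rw [Fintype.sum_prod_type]
      refine Finset.sum_eq_zero fun w _ => ?_
      rw [Fin.sum_univ_two]
      have e4 : (if σ ∈ St j (K (Sum.inr (w, 1))) then (1 : ℤ) else -1) =
          (if σ ∈ St j (bar w.1) then (1 : ℤ) else -1) := rfl
      have e5 : (if σ ∈ St j (K (Sum.inr (w, 0))) then (1 : ℤ) else -1) =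
          (if σ ∈ St j w.1 then (1 : ℤ) else -1) := rfl
      rw [e4, e5, hsg, add_neg_cancel]
    rw [e1, e3, add_zero]
  -- the full word
  let f : (κ ⊕ κ) ⊕ R ≃ κ ⊕ (κ ⊕ R) := Equiv.sumAssoc κ κ R
  have hfull : Function.Bijective (Sum.elim (fun k => inlW (I k)) K : κ ⊕ (κ ⊕ R) → Wt P.X L) := by
    have h3 := (full_bijective (Y := Y) hI).comp f.symm.bijective
    have h4 : (Sum.elim (fun k => inlW (I k)) K : κ ⊕ (κ ⊕ R) → Wt P.X L) =
        fullK I ∘ f.symm := by
      funext x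
      rcases x with x | x | x <;> rfl
    rw [h4]
    exact h3
  have hcardK : Fintype.card κ + Fintype.card (κ ⊕ R) = finrank ℚ P.X.H1 := by
    rw [← Fintype.card_sum, ← Nat.card_eq_fintype_card, Nat.card_eq_of_bijective _ hfull,
      Pool.Agent.W67.TA.card_wt j hP]
  let b0 := Module.finBasis ℚ P.X.H1
  let e : Fin (finrank ℚ P.X.H1) ≃ κ ⊕ (κ ⊕ R) := (Finite.equivFinOfCardEq (by
    rw [Nat.card_eq_fintype_card, Fintype.card_sum, hcardK])).symm
  let b : Basis (κ ⊕ (κ ⊕ R)) ℚ P.X.H1 := b0.reindex e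
  have hd := mono_ne_zero (jO l) j hP hfull b
  have h2 := mixed_top hC jO j h1 hK hcardK l b
  set N : L := (Fintype.card (Equiv.Perm κ) : L) * (Fintype.card (Equiv.Perm (κ ⊕ R)) : L) with hN
  have hN0 : N ≠ 0 := mul_ne_zero (Nat.cast_ne_zero.2 Fintype.card_ne_zero)
    (Nat.cast_ne_zero.2 Fintype.card_ne_zero)
  set D : L := N * mono (Sum.elim (fun k => inlW (I k)) K) b with hD
  have hD0 : D ≠ 0 := mul_ne_zero hN0 hd
  have h3 : (fun σ : L ≃ₐ[ℚ] L => cupF ((semiF (jS jO) P κ c (mono fun k => inlW (I k))).val (l, σ))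
      (fun u => jO l (σ (mono K u))) b) = fun σ => jO l (σ D) * c (l, σ) := by
    funext σ
    change cupF (fun v => c (l, σ) * jO l (σ (mono (fun k => inlW (I k)) v)))
      (fun u => jO l (σ (mono K u))) b = _
    have h3 := congrFun (mono_cup (fun k => inlW (I k)) K) b
    rw [Pi.smul_apply, smul_eq_mul] at h3
    rw [hD, hN, ← h3]
    unfold cupF altSum times cupFun
    rw [map_sum, map_sum, Finset.sum_mul]
    refine Finset.sum_congr rfl fun τ _ => ?_
    rw [map_mul, map_mul, map_mul, map_mul, map_intCast, map_intCast]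
    ring
  have h4 : (fun σ : L ≃ₐ[ℚ] L => jO l (σ D) * c (l, σ)) ∈ SS jO l := by
    rw [← h3]
    exact h2
  have h5 := SS_smul jO l D⁻¹ h4
  have h6 : (fun σ : L ≃ₐ[ℚ] L => jO l (σ D⁻¹) * (jO l (σ D) * c (l, σ))) =
      fun σ => c (l, σ) := by
    funext σ
    rw [← mul_assoc, ← map_mul, ← map_mul, inv_mul_cancel₀ hD0, map_one, map_one, one_mul]
  rwa [h6] at h5

end

end

end Pool.Agent.N202.QR
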