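import Pool.Agent.N202.QR.Rel

/-!
# The word belonging to an invariant relation
-/

set_option autoImplicit false
set_option linter.unusedSectionVars false
set_option linter.unusedVariables false

namespace Pool.Agent.N202.QR

open NumberField Pool.Agent.H204R3.CM Pool.Agent.W547.KB Pool.Agent.W547.LD Pool.Agent.W547.HR
  Pool.Agent.W495.TA Module Pool.Agent.TH117.PO Pool.Agent.W976.TA Pool.Agent.W417.TA
  Pool.Agent.TH117.BL Pool.Agent.W495.TC Pool.Agent.W495.TB Pool.Agent.TH117.F5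
open scoped TensorProduct

noncomputable section

variable {p : ℕ} [Fact p.Prime] {ν : PadicAlgCl p ≃+* ℂ}
  {L : Type} [Field L] [NumberField L] [IsCMField L] [IsGalois ℚ L] {j : L →+* ℂ}

/-- The root belonging to an imaginary quadratic subfield. -/
theorem exists_root (j : L →+* ℂ) {K : Type} [Field K] [NumberField K] [IsCMField K]
    (hK : finrank ℚ K = 2) (κL : K →+* L) :
    ∃ (δ : L) (d : ℚ), IsRoot δ d ∧ ∀ σ : L ≃ₐ[ℚ] L, σ δ = δ → ∀ x, σ (κL x) = κL x := by
  let N : Subgroup (L ≃ₐ[ℚ] L) :=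
    { carrier := {σ | ∀ x, σ (κL x) = κL x}
      one_mem' := fun x => rfl
      mul_mem' := by
        intro σ τ h1 h2 x
        change σ (τ (κL x)) = κL x
        rw [show τ (κL x) = κL x from h2 x, show σ (κL x) = κL x from h1 x]
      inv_mem' := by
        intro σ h1 x
        conv_lhs => rw [← show σ (κL x) = κL x from h1 x]
        exact σ.symm_apply_apply _ }
  have hccN : cc L ∉ N := by
    intro h
    have h1 : ∀ x, cc L (κL x) = κL x := h
    refine conj_ne (j.comp κL) (RingHom.ext fun x => ?_)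
    rw [ComplexEmbedding.conjugate_coe_eq]
    change starRingEnd ℂ (j (κL x)) = j (κL x)
    rw [← emb_cc, h1]
  have hN : IsImag N := by
    refine ⟨hccN, fun τ hτ x => ?_⟩
    rcases emb_quadratic hK (j.comp κL) (j.comp ((τ : L →+* L).comp κL)) with h | h
    · exact absurd (fun x => j.injective (RingHom.congr_fun h x)) hτ
    · apply j.injective
      have h1 := RingHom.congr_fun h x
      rw [ComplexEmbedding.conjugate_coe_eq] at h1
      change j (τ (κL x)) = starRingEnd ℂ (j (κL x)) at h1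
      change j (cc L (τ (κL x))) = j (κL x)
      rw [emb_cc, h1, Complex.conj_conj]
  obtain ⟨δ, d, hd, hδ, hτ⟩ := exists_sqrt j hN
  have hroot : IsRoot δ (d : ℚ) := ⟨by exact_mod_cast hd, by
    rw [sq, hδ]
    push_cast
    rfl⟩
  refine ⟨δ, d, hroot, fun σ hσ => ?_⟩
  by_contra hcon
  have h1 : cc L * σ ∈ N := hN.2 σ hcon
  have h2 : cc L (σ δ) = δ := hτ _ h1
  rw [hσ, hroot.cj j] at h2
  have h3 : (2 : L) * δ = 0 := by linear_combination -h2
  rcases mul_eq_zero.1 h3 with h4 | h4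
  · exact two_ne_zero h4
  · exact hroot.ne h4

theorem St_sw {X : CMAV} (τ : L ≃ₐ[ℚ] L) (w : Wt X L) : St j (sw τ w) = tr τ (St j w) := by
  ext σ
  rw [mem_tr]
  change j.comp (σ • (τ • w.2)) ∈ (X.factor w.1).Φ ↔ j.comp ((σ * τ) • w.2) ∈ (X.factor w.1).Φ
  rw [mul_smul]

open Classical in
/-- The word of an invariant relation. -/
theorem exists_J {Z : RedAV p ν} {δ : L} {d : ℚ} (hδ : IsRoot δ d) (hZ : Big Z.X j)
    [Fintype (Wt Z.X L)] (n : Wt Z.X L → ℕ)
    (hn : ∀ σ : L ≃ₐ[ℚ] L, σ δ = δ → ∀ w, n (sw σ w) = n w)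
    (hrel : ∀ g, ∑ w, (n w : ℤ) * tw p ν j Z.X w g = 0) :
    ∃ (h : ℕ) (Y' : RedAV p ν) (_ : Big Y'.X j)
      (J : (Σ l, Fin (n l)) ⊕ Fin h → Wt Y'.X L), Function.Injective J ∧
      Balanced (fun k => St j (J k)) ∧
      (∀ σ : L ≃ₐ[ℚ] L, σ δ = δ → ∃ π : Equiv.Perm ((Σ l, Fin (n l)) ⊕ Fin h),
        ∀ k, sw σ (J k) = J (π k)) ∧
      ∀ k, tf p ν j (St j (J k)) = ext0 (tw p ν j Z.X) (fl' n h k) := by
  have hN := isImag_stabN hδ j
  let bs : Wt Z.X L → (L ≃ₐ[ℚ] L) → ℤ := fun l σ => if σ ∈ St j l then 1 else -1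
  let G : (L ≃ₐ[ℚ] L) → ℤ := fun σ => ∑ l, (n l : ℤ) * bs l σ
  have hG1 : ∀ τ ∈ stabN δ, ∀ σ, G (σ * τ) = G σ := by
    intro τ hτ σ
    have h1 : ∀ l, bs l (σ * τ) = bs (sw τ l) σ := by
      intro l
      change (if σ * τ ∈ St j l then (1 : ℤ) else -1) = if σ ∈ St j (sw τ l) then 1 else -1
      rw [St_sw]
      rfl
    change ∑ l, (n l : ℤ) * bs l (σ * τ) = ∑ l, (n l : ℤ) * bs l σ
    refine Fintype.sum_equiv (swE Z.X τ).symm _ _ fun l => ?_
    change (n l : ℤ) * bs l (σ * τ) = (n (sw τ l) : ℤ) * bs (sw τ l) σ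
    rw [h1, hn τ hτ]
  have hG2 : ∀ σ, G (cc L * σ) = -G σ := by
    intro σ
    change ∑ l, (n l : ℤ) * bs l (cc L * σ) = -∑ l, (n l : ℤ) * bs l σ
    rw [← Finset.sum_neg_distrib]
    refine Finset.sum_congr rfl fun l _ => ?_
    have h1 := isHalf_St j l σ
    change (n l : ℤ) * (if cc L * σ ∈ St j l then (1 : ℤ) else -1) =
      -((n l : ℤ) * if σ ∈ St j l then (1 : ℤ) else -1)
    by_cases h2 : σ ∈ St j l
    · rw [if_pos h2, if_neg (h1.1 h2)]
      ring
    · rw [if_neg h2, if_pos (by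
        by_contra h3
        exact h2 (h1.2 h3))]
      ring
  have hG : ∀ σ, (σ ∈ stabN δ → G σ = G 1) ∧ (σ ∉ stabN δ → G σ = -G 1) := by
    intro σ
    constructor
    · intro h
      have := hG1 σ h 1
      rwa [one_mul] at this
    · intro h
      have h1 := hG1 _ (hN.2 σ h) 1
      rw [one_mul, hG2] at h1
      omega
  let S0 : Set (L ≃ₐ[ℚ] L) := if 0 < G 1 then (stabN δ : Set (L ≃ₐ[ℚ] L))ᶜ else stabN δ
  have hS0 : ∀ σ, ((G 1).natAbs : ℤ) * (if σ ∈ S0 then (1 : ℤ) else -1) = -G σ := by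
    intro σ
    by_cases h1 : 0 < G 1
    · have h2 : S0 = (stabN δ : Set (L ≃ₐ[ℚ] L))ᶜ := if_pos h1
      by_cases h3 : σ ∈ stabN δ
      · rw [h2, if_neg (fun h => h h3), (hG σ).1 h3]
        omega
      · rw [h2, if_pos (show σ ∈ (stabN δ : Set (L ≃ₐ[ℚ] L))ᶜ from h3), (hG σ).2 h3]
        omega
    · have h2 : S0 = (stabN δ : Set (L ≃ₐ[ℚ] L)) := if_neg h1
      by_cases h3 : σ ∈ stabN δ
      · rw [h2, if_pos (show σ ∈ (stabN δ : Set (L ≃ₐ[ℚ] L)) from h3), (hG σ).1 h3]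
        omega
      · rw [h2, if_neg (show ¬ σ ∈ (stabN δ : Set (L ≃ₐ[ℚ] L)) from h3), (hG σ).2 h3]
        omega
  have hNhalf : IsHalf (stabN δ : Set (L ≃ₐ[ℚ] L)) := by
    intro σ
    change σ ∈ stabN δ ↔ ¬ (cc L * σ ∈ stabN δ)
    rw [hN.mul_mem_iff j]
    have := hN.1
    tauto
  have hS0half : IsHalf S0 := by
    by_cases h1 : 0 < G 1
    · have h2 : S0 = (stabN δ : Set (L ≃ₐ[ℚ] L))ᶜ := if_pos h1
      rw [h2]
      intro σ
      have := hNhalf σ
      simp only [Set.mem_compl_iff]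
      tauto
    · have h2 : S0 = (stabN δ : Set (L ≃ₐ[ℚ] L)) := if_neg h1
      rw [h2]
      exact hNhalf
  have hS0tr : ∀ τ ∈ stabN δ, tr τ S0 = S0 := by
    intro τ hτ
    have h3 : tr τ (stabN δ : Set (L ≃ₐ[ℚ] L)) = stabN δ := by
      ext σ
      rw [mem_tr]
      exact (stabN δ).mul_mem_cancel_right hτ
    by_cases h1 : 0 < G 1
    · have h2 : S0 = (stabN δ : Set (L ≃ₐ[ℚ] L))ᶜ := if_pos h1
      rw [h2, tr_compl, h3]
    · have h2 : S0 = (stabN δ : Set (L ≃ₐ[ℚ] L)) := if_neg h1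
      rw [h2, h3]
  let y : (Σ l, Fin (n l)) ⊕ Fin (G 1).natAbs → Set (L ≃ₐ[ℚ] L) :=
    Sum.elim (fun k => St j k.1) fun _ => S0
  have hy : ∀ k, IsHalf (y k) := by
    rintro (k | k)
    · exact isHalf_St j k.1
    · exact hS0half
  obtain ⟨Y', hY', J, hJ, hJy, hJN⟩ := exists_word ν j (stabN δ) y hy (by
    intro τ hτ
    refine ⟨Sum.map (fun k => ⟨sw τ k.1, Fin.cast (hn τ hτ k.1).symm k.2⟩) id, ?_, ?_⟩
    · refine Function.Injective.sumMap ?_ Function.injective_id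
      rintro ⟨l, i⟩ ⟨l', i'⟩ h
      obtain ⟨h1, h2⟩ := Sigma.mk.inj_iff.1 h
      have h3 : l = l' := (swE Z.X τ).symm.injective h1
      subst h3
      have h4 : i = i' := Fin.cast_injective _ (eq_of_heq h2)
      rw [h4]
    · rintro (k | k)
      · exact St_sw τ k.1
      · exact (hS0tr τ hτ).symm)
  refine ⟨(G 1).natAbs, Y', hY', J, hJ, ?_, fun σ hσ => hJN σ hσ, ?_⟩
  · intro σ
    have h1 : ∑ k, (if σ ∈ St j (J k) then (1 : ℤ) else -1) =
        ∑ k, if σ ∈ y k then (1 : ℤ) else -1 :=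
      Finset.sum_congr rfl fun k _ => by rw [hJy]
    have h2 : ∑ k : (Σ l, Fin (n l)), (if σ ∈ y (Sum.inl k) then (1 : ℤ) else -1) = G σ := by
      rw [Fintype.sum_sigma]
      refine Finset.sum_congr rfl fun l _ => ?_
      change ∑ i : Fin (n l), (if σ ∈ St j l then (1 : ℤ) else -1) = (n l : ℤ) * bs l σ
      rw [Finset.sum_const, Finset.card_univ, Fintype.card_fin, nsmul_eq_mul]
    have h3 : ∑ k : Fin (G 1).natAbs, (if σ ∈ y (Sum.inr k) then (1 : ℤ) else -1) = -G σ := by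
      rw [← hS0 σ]
      change ∑ k : Fin (G 1).natAbs, (if σ ∈ S0 then (1 : ℤ) else -1) = _
      rw [Finset.sum_const, Finset.card_univ, Fintype.card_fin, nsmul_eq_mul]
    rw [h1, Fintype.sum_sum_type, h2, h3]
    ring
  · rintro (k | k)
    · rw [hJy]
      exact tf_nn Z.X k.1.1 k.1.2
    · rw [hJy]
      change tf p ν j S0 = 0
      have hG0 : G 1 ≠ 0 := by
        intro h
        have h2 := k.2
        have h3 : (G 1).natAbs = 0 := by rw [h]; rfl
        omega
      have hDN : ¬ Dec p ν j ≤ stabN δ := by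
        intro hle
        have h1 := hrel 1
        have h2 : ∀ l : Wt Z.X L, tw p ν j Z.X l 1 =
            ∑ d : L ≃ₐ[ℚ] L, if d ∈ Dec p ν j then bs l (d * 1) else 0 := by
          intro l
          have h3 : tw p ν j Z.X l = tf p ν j (St j l) := (tf_nn Z.X l.1 l.2).symm
          rw [h3]
          rfl
        have h3 : ∑ l, (n l : ℤ) * tw p ν j Z.X l 1 =
            ∑ d : L ≃ₐ[ℚ] L, if d ∈ Dec p ν j then G 1 else 0 := by
          have e1 : ∀ l : Wt Z.X L, (n l : ℤ) * tw p ν j Z.X l 1 =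
              ∑ d : L ≃ₐ[ℚ] L, if d ∈ Dec p ν j then (n l : ℤ) * bs l (d * 1) else 0 := by
            intro l
            rw [h2, Finset.mul_sum]
            exact Finset.sum_congr rfl fun d _ => by rw [mul_ite, mul_zero]
          rw [Finset.sum_congr rfl fun l _ => e1 l, Finset.sum_comm]
          refine Finset.sum_congr rfl fun d _ => ?_
          by_cases hd : d ∈ Dec p ν j
          · simp only [if_pos hd]
            rw [← (hG d).1 (hle hd), mul_one]
          · simp only [if_neg hd, Finset.sum_const_zero]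
        rw [h3, ← Finset.sum_filter, Finset.sum_const, nsmul_eq_mul] at h1
        have h4 : ((Finset.univ.filter fun d => d ∈ Dec p ν j).card : ℤ) ≠ 0 := by
          have h5 : (1 : L ≃ₐ[ℚ] L) ∈ Finset.univ.filter fun d => d ∈ Dec p ν j := by
            rw [Finset.mem_filter]
            exact ⟨Finset.mem_univ _, (Dec p ν j).one_mem⟩
          have h6 := Finset.card_pos.2 ⟨_, h5⟩
          omega
        exact hG0 ((mul_eq_zero.1 h1).resolve_left h4)
      obtain ⟨hz, -⟩ := Pool.Agent.W287.TBSS.ss2 Pool.Agent.W366.TA.val p ν L j (stabN δ) hN hDN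
      funext σ
      by_cases h1 : 0 < G 1
      · have h2 : S0 = (stabN δ : Set (L ≃ₐ[ℚ] L))ᶜ := if_pos h1
        rw [h2, Pool.Agent.W417.TA.tf_compl, hz σ, neg_zero]
        rfl
      · have h2 : S0 = (stabN δ : Set (L ≃ₐ[ℚ] L)) := if_neg h1
        rw [h2, hz σ]
        rfl

end

end Pool.Agent.N202.QR
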